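import Pool.Agent.Helper188_Cone.Index

/-! The group of homotopy classes of maps to the circle of a space whose cone embeds. -/

namespace Pool.Agent.Helper188_Cone

open Set Topology Filter Complex

set_option linter.unusedSectionVars false

/-- The circle valued version of having a logarithm. -/
lemma hasLog_circle {X : Type*} [TopologicalSpace X] (f : C(X, Circle)) :
    HasLog (fun x => (f x : ℂ)) ↔ ∃ h : C(X, ℝ), ∀ x, f x = Circle.exp (h x) := by
  constructor
  · rintro ⟨h, hc, hh⟩
    replace hh : ∀ x, ((f x : Circle) : ℂ) = Complex.exp (h x) := hh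
    refine ⟨⟨fun x => (h x).im, by fun_prop⟩, fun x => ?_⟩
    apply Circle.ext
    rw [Circle.coe_exp, hh x]
    have h1 : ‖Complex.exp (h x)‖ = 1 := by rw [← hh x]; exact Circle.norm_coe _
    rw [Complex.norm_exp, Real.exp_eq_one_iff] at h1
    congr 1
    apply Complex.ext <;> simp [h1]
  · rintro ⟨h, hh⟩
    refine ⟨fun x => h x * Complex.I, by fun_prop, fun x => ?_⟩
    show ((f x : Circle) : ℂ) = _
    rw [hh x, Circle.coe_exp]

theorem planar_hom {Y : Type*} [TopologicalSpace Y] [CompactSpace Y] (q : Y → ℂ)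
    (hq : Continuous q) (hinj : Function.Injective q) :
    ∃ T : C(Y, Circle) →* Multiplicative (Set ℂ →₀ ℤ),
      ∀ f, T f = 1 ↔ HasLog (fun x => (f x : ℂ)) := by
  classical
  have hrep : ∀ f : C(Y, Circle), ∃ (s : Finset (ℕ × ℕ)) (a : ℕ × ℕ → ℂ) (w : ℕ × ℕ → ℤ),
      Rep q (fun y => (f y : ℂ)) s a w := by
    intro f
    obtain ⟨s, a, w, h, h1, h2, h3⟩ := eilenberg' q hq hinj (fun y => (f y : ℂ)) (by fun_prop)
      (fun y => Circle.coe_ne_zero _)
    exact ⟨s, a, w, h1, h, h2, h3⟩
  choose s a w hr using hrep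
  have hev : ∀ f, ∀ a₀, Bornology.IsBounded (connectedComponentIn (range q)ᶜ a₀) →
      divc q (s f) (a f) (w f) (connectedComponentIn (range q)ᶜ a₀) =
        ∑ c ∈ s f, pick (connectedComponentIn (range q)ᶜ a₀) (a f c) (w f c) := by
    intro f a₀ hb
    exact divc_apply (hr f).1 hb
  have hmul : ∀ f g, divc q (s (f * g)) (a (f * g)) (w (f * g)) =
      divc q (s f) (a f) (w f) + divc q (s g) (a g) (w g) := by
    intro f g
    ext ω
    rw [Finsupp.add_apply]
    by_cases hω : ∃ a₀, a₀ ∉ range q ∧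
        Bornology.IsBounded (connectedComponentIn (range q)ᶜ a₀) ∧
        ω = connectedComponentIn (range q)ᶜ a₀
    · obtain ⟨a₀, ha₀, hb, rfl⟩ := hω
      rw [hev _ a₀ hb, hev _ a₀ hb, hev _ a₀ hb]
      exact rep_add hq hinj (hr f) (hr g) (hr (f * g)) (fun y => by simp)
        (fun y => Circle.coe_ne_zero _) ha₀ hb
    · rw [divc_apply' (hr _).1 hω, divc_apply' (hr _).1 hω, divc_apply' (hr _).1 hω, add_zero]
  let T : C(Y, Circle) →* Multiplicative (Set ℂ →₀ ℤ) :=
    MonoidHom.mk' (fun f => Multiplicative.ofAdd (divc q (s f) (a f) (w f))) (by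
      intro f g
      rw [hmul, ofAdd_add])
  refine ⟨T, fun f => ?_⟩
  constructor
  · intro h
    have h0 : divc q (s f) (a f) (w f) = 0 := h
    apply hasLog_of_rep hq (hr f)
    intro a₀ ha₀ hb
    have := hev f a₀ hb
    rw [h0] at this
    exact this.symm
  · intro h
    show Multiplicative.ofAdd (divc q (s f) (a f) (w f)) = 1
    have : divc q (s f) (a f) (w f) = 0 := by
      ext ω
      by_cases hω : ∃ a₀, a₀ ∉ range q ∧
          Bornology.IsBounded (connectedComponentIn (range q)ᶜ a₀) ∧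
          ω = connectedComponentIn (range q)ᶜ a₀
      · obtain ⟨a₀, ha₀, hb, rfl⟩ := hω
        rw [hev _ a₀ hb]
        exact rep_log hq hinj (hr f) h ha₀ hb
      · rw [divc_apply' (hr _).1 hω]; rfl
    rw [this]; rfl

theorem cone_hom {X : Type*} [TopologicalSpace X] [CompactSpace X] [T2Space X]
    (g : X × unitInterval → E3) (hg : Continuous g)
    (hinj : ∀ p q, g p = g q ↔ (p = q ∨ (p.2 = 1 ∧ q.2 = 1))) :
    ∃ T : C(X, Circle) →* Multiplicative (Set ℂ →₀ ℤ),
      ∀ f, T f = 1 ↔ ∃ h : C(X, ℝ), ∀ x, f x = Circle.exp (h x) := by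
  rcases isEmpty_or_nonempty X with hX | hX
  · refine ⟨1, fun f => ?_⟩
    simp only [MonoidHom.one_apply, true_iff]
    exact ⟨0, fun x => (IsEmpty.false x).elim⟩
  rcases planar_model g hg hinj with h | ⟨ρ, r, q, hρ, hr0, hr1, hq, hqi⟩
  · refine ⟨1, fun f => ?_⟩
    simp only [MonoidHom.one_apply, true_iff]
    rw [← hasLog_circle]
    exact h _ (by fun_prop) (fun x => Circle.coe_ne_zero _)
  · have hcl : IsClosed {p : X × unitInterval | ρ p = r} := isClosed_eq hρ continuous_const
    have : CompactSpace (Lev ρ r) := isCompact_iff_compactSpace.mp hcl.isCompact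
    obtain ⟨T, hT⟩ := planar_hom q hq hqi
    let p : C(Lev ρ r, X) := ⟨fun y => y.1.1, by fun_prop⟩
    let P : C(X, Circle) →* C(Lev ρ r, Circle) := ContinuousMap.compMonoidHom' p
    refine ⟨T.comp P, fun f => ?_⟩
    rw [MonoidHom.comp_apply, hT, ← hasLog_circle]
    constructor
    · intro h
      exact hasLog_of_level ρ hρ hr0 hr1 (fun x => (f x : ℂ)) (by fun_prop)
        (fun x => Circle.coe_ne_zero _) h
    · intro h
      exact h.comp p.continuous

end Pool.Agent.Helper188_Cone
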