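import Mathlib

/-! Embedding inverse limits by nearly contracting injective maps. -/

namespace Pool.Agent.Helper188_Cone

open Set Topology Filter

/-- Dependent choice on histories. -/
theorem dep_choice {A : Type*} [Nonempty A] (Q : ℕ → (ℕ → A) → Prop)
    (hdep : ∀ n T T', (∀ i ≤ n, T i = T' i) → Q n T → Q n T')
    (hstep : ∀ n T, (∀ i < n, Q i T) → ∃ a, Q n (Function.update T n a)) :
    ∃ T, ∀ n, Q n T := by
  classical
  have step : ∀ n, ∀ T : {T : ℕ → A // ∀ i < n, Q i T},
      ∃ T' : {T : ℕ → A // ∀ i < n + 1, Q i T}, ∀ i < n, T'.1 i = T.1 i := by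
    intro n T
    obtain ⟨a, ha⟩ := hstep n T.1 T.2
    refine ⟨⟨Function.update T.1 n a, ?_⟩, ?_⟩
    · intro i hi
      rcases Nat.lt_succ_iff_lt_or_eq.mp hi with h | h
      · apply hdep i T.1 _ _ (T.2 i h)
        intro j hj
        rw [Function.update_of_ne (by omega)]
      · rw [h]; exact ha
    · intro i hi
      exact Function.update_of_ne (by omega) _ _
  choose st hst using step
  let H : ∀ n, {T : ℕ → A // ∀ i < n, Q i T} := fun n =>
    Nat.rec ⟨fun _ => Classical.arbitrary A, fun i hi => absurd hi (Nat.not_lt_zero i)⟩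
      (fun n T => st n T) n
  have hH : ∀ n, H (n + 1) = st n (H n) := fun n => rfl
  have hstable : ∀ i n, i < n → (H n).1 i = (H (i + 1)).1 i := by
    intro i n hin
    induction n, hin using Nat.le_induction with
    | base => rfl
    | succ n hn ih =>
      rw [hH n, hst n (H n) i hn, ih]
  refine ⟨fun n => (H (n + 1)).1 n, fun n => ?_⟩
  apply hdep n (H (n + 1)).1 _ _ ((H (n + 1)).2 n (Nat.lt_succ_self n))
  intro i hi
  exact hstable i (n + 1) (by omega)

/-- composition `T j ∘ ⋯ ∘ T (n - 1)` -/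
def cmp {S : Type*} (T : ℕ → S → S) (j : ℕ) : ℕ → S → S
  | 0 => id
  | (n + 1) => if j ≤ n then cmp T j n ∘ T n else id

lemma cmp_succ {S : Type*} (T : ℕ → S → S) {j n : ℕ} (h : j ≤ n) :
    cmp T j (n + 1) = cmp T j n ∘ T n := by
  simp [cmp, h]

lemma cmp_self {S : Type*} (T : ℕ → S → S) (j : ℕ) : cmp T j j = id := by
  cases j with
  | zero => rfl
  | succ j => simp [cmp]

lemma cmp_left {S : Type*} (T : ℕ → S → S) {j n : ℕ} (h : j + 1 ≤ n) :
    cmp T j n = T j ∘ cmp T (j + 1) n := by
  induction n, h using Nat.le_induction with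
  | base => rw [cmp_succ T le_rfl, cmp_self, cmp_self]; rfl
  | succ n hn ih =>
    rw [cmp_succ T (by omega), ih, cmp_succ T hn]
    rfl

lemma cmp_congr {S : Type*} (T T' : ℕ → S → S) (j n : ℕ) (h : ∀ i < n, T i = T' i) :
    cmp T j n = cmp T' j n := by
  induction n with
  | zero => rfl
  | succ n ih =>
    simp only [cmp]
    rw [ih (fun i hi => h i (by omega)), h n (Nat.lt_succ_self n)]

lemma cmp_uc {S : Type*} [UniformSpace S] (T : ℕ → S → S) (j n : ℕ)
    (h : ∀ i < n, UniformContinuous (T i)) : UniformContinuous (cmp T j n) := by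
  induction n with
  | zero => exact uniformContinuous_id
  | succ n ih =>
    simp only [cmp]
    split_ifs
    · exact (ih (fun i hi => h i (by omega))).comp (h n (Nat.lt_succ_self n))
    · exact uniformContinuous_id

lemma exists_modulus {S : Type*} [MetricSpace S] (T : ℕ → S → S) (n : ℕ)
    (h : ∀ i < n, UniformContinuous (T i)) (b : ℕ → ℝ) (hb : ∀ j, 0 < b j) :
    ∃ α > 0, ∀ p q, dist p q ≤ α → ∀ j ≤ n, dist (cmp T j n p) (cmp T j n q) ≤ b j := by
  have key : ∀ m, ∃ α > 0, ∀ p q, dist p q ≤ α → ∀ j < m,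
      dist (cmp T j n p) (cmp T j n q) ≤ b j := by
    intro m
    induction m with
    | zero => exact ⟨1, one_pos, fun _ _ _ j hj => absurd hj (Nat.not_lt_zero j)⟩
    | succ m ih =>
      obtain ⟨α, hα, h1⟩ := ih
      obtain ⟨α', hα', h2⟩ := Metric.uniformContinuous_iff.mp (cmp_uc T m n h) (b m) (hb m)
      refine ⟨min α (α' / 2), lt_min hα (by positivity), fun p q hpq j hj => ?_⟩
      rcases Nat.lt_succ_iff_lt_or_eq.mp hj with h3 | h3
      · exact h1 p q (le_trans hpq (min_le_left _ _)) j h3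
      · rw [h3]
        apply (h2 _).le
        have := le_trans hpq (min_le_right _ _)
        linarith
  obtain ⟨α, hα, h1⟩ := key (n + 1)
  exact ⟨α, hα, fun p q hpq j hj => h1 p q hpq j (by omega)⟩

/-- Sequences compatible with uniformly continuous bonding maps are separated by suitable
tolerances. -/
theorem exists_sep {M : Type*} [MetricSpace M] (ψ : ℕ → M → M)
    (hψ : ∀ k, UniformContinuous (ψ k)) :
    ∃ δ : ℕ → ℝ, (∀ n, 0 < δ n) ∧ ∀ y y' : ℕ → M, (∀ k, y k = ψ k (y (k + 1))) →
      (∀ k, y' k = ψ k (y' (k + 1))) → (∀ k, dist (y k) (y' k) ≤ δ k) → y = y' := by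
  have h1 : ∀ n, ∃ α > 0, ∀ p q, dist p q ≤ α → ∀ j ≤ n,
      dist (cmp ψ j n p) (cmp ψ j n q) ≤ (1 / 2 : ℝ) ^ n := fun n =>
    exists_modulus ψ n (fun i _ => hψ i) (fun _ => (1 / 2 : ℝ) ^ n) (fun _ => by positivity)
  choose δ hδ hδ' using h1
  refine ⟨δ, hδ, fun y y' hy hy' hd => ?_⟩
  have hcmp : ∀ z : ℕ → M, (∀ k, z k = ψ k (z (k + 1))) → ∀ j n, j ≤ n →
      z j = cmp ψ j n (z n) := by
    intro z hz j n hjn
    induction n, hjn using Nat.le_induction with
    | base => rw [cmp_self]; rfl
    | succ n hn ih => rw [cmp_succ ψ hn, Function.comp_apply, ← hz n, ih]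
  funext j
  apply dist_le_zero.mp
  apply ge_of_tendsto (f := fun n : ℕ => (1 / 2 : ℝ) ^ n) (x := atTop)
    (tendsto_pow_atTop_nhds_zero_of_lt_one (by norm_num) (by norm_num))
  filter_upwards [eventually_ge_atTop j] with n hn
  rw [hcmp y hy j n hn, hcmp y' hy' j n hn]
  exact hδ' n _ _ (hd n) j hn

/-- The abstract embedding theorem. -/
theorem abstract_embed {X S : Type*} [TopologicalSpace X] [MetricSpace S] [CompleteSpace S]
    (s : ℕ → X → S) (hs : ∀ n, Continuous (s n)) (δ : ℕ → ℝ) (hδ : ∀ n, 0 < δ n)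
    (hsep : ∀ x x', (∀ n, dist (s n x) (s n x') ≤ δ n) → x = x')
    (H : ∀ n, ∀ α > 0, ∃ T : S → S, Function.Injective T ∧ UniformContinuous T ∧
      ∀ x, dist (T (s (n + 1) x)) (s n x) ≤ α) :
    ∃ e : X → S, Continuous e ∧ Function.Injective e := by
  classical
  rcases isEmpty_or_nonempty X with hX | ⟨⟨x₀⟩⟩
  · exact ⟨fun x => (IsEmpty.false x).elim, continuous_of_const (fun x => (IsEmpty.false x).elim),
      fun x => (IsEmpty.false x).elim⟩
  have hS : Nonempty S := ⟨s 0 x₀⟩
  let Q : ℕ → (ℕ → S → S) → Prop := fun n T => Function.Injective (T n) ∧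
    UniformContinuous (T n) ∧ ∀ j ≤ n, ∀ x,
      dist (cmp T j n (T n (s (n + 1) x))) (cmp T j n (s n x)) ≤ δ j / 4 * (1 / 2) ^ n
  obtain ⟨T, hT⟩ := dep_choice Q (by
      intro n T T' h ⟨h1, h2, h3⟩
      have e1 : ∀ j, cmp T j n = cmp T' j n := fun j => cmp_congr T T' j n (fun i hi => h i hi.le)
      have e2 := h n le_rfl
      refine ⟨e2 ▸ h1, e2 ▸ h2, fun j hj x => ?_⟩
      rw [← e1, ← e2]
      exact h3 j hj x) (by
      intro n T h
      obtain ⟨α, hα, h1⟩ := exists_modulus T n (fun i hi => (h i hi).2.1)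
        (fun j => δ j / 4 * (1 / 2) ^ n) (fun j => by have := hδ j; positivity)
      obtain ⟨a, ha1, ha2, ha3⟩ := H n α hα
      refine ⟨a, ?_, ?_, ?_⟩
      · rw [Function.update_self]; exact ha1
      · rw [Function.update_self]; exact ha2
      · intro j hj x
        have : cmp (Function.update T n a) j n = cmp T j n :=
          cmp_congr _ _ j n (fun i hi => Function.update_of_ne (by omega) _ _)
        rw [this, Function.update_self]
        exact h1 _ _ (ha3 x) j hj)
  -- the approximating sequences, shifted to start at j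
  let u : ℕ → X → ℕ → S := fun j x k => cmp T j (j + k) (s (j + k) x)
  have hu : ∀ j x k, dist (u j x k) (u j x (k + 1)) ≤ δ j / 4 * (1 / 2) ^ k := by
    intro j x k
    have h1 := (hT (j + k)).2.2 j (by omega) x
    have h2 : u j x (k + 1) = cmp T j (j + k) (T (j + k) (s (j + k + 1) x)) := by
      show cmp T j (j + k + 1) (s (j + k + 1) x) = _
      rw [cmp_succ T (by omega)]; rfl
    rw [h2, dist_comm]
    refine le_trans h1 ?_
    apply mul_le_mul_of_nonneg_left
    · apply pow_le_pow_of_le_one (by norm_num) (by norm_num) (by omega)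
    · have := hδ j; positivity
  have hcau : ∀ j x, CauchySeq (u j x) := fun j x =>
    cauchySeq_of_le_geometric (1 / 2) (δ j / 4) (by norm_num) (hu j x)
  choose e he using fun j x => cauchySeq_tendsto_of_complete (hcau j x)
  have hbound : ∀ j x k, dist (u j x k) (e j x) ≤ δ j / 4 * (1 / 2) ^ k / (1 - 1 / 2) := fun j x k =>
    dist_le_of_le_geometric_of_tendsto (1 / 2) (δ j / 4) (by norm_num) (hu j x) (he j x) k
  have hclose : ∀ j x, dist (s j x) (e j x) ≤ δ j / 2 := by
    intro j x
    have h1 := hbound j x 0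
    have h2 : u j x 0 = s j x := by
      show cmp T j j (s j x) = s j x
      rw [cmp_self]; rfl
    rw [h2] at h1
    norm_num at h1
    linarith
  have hrec : ∀ j x, T j (e (j + 1) x) = e j x := by
    intro j x
    have h1 : Tendsto (fun k => T j (u (j + 1) x k)) atTop (𝓝 (T j (e (j + 1) x))) :=
      ((hT j).2.1.continuous.tendsto _).comp (he (j + 1) x)
    have h2 : (fun k => T j (u (j + 1) x k)) = fun k => u j x (k + 1) := by
      funext k
      show T j (cmp T (j + 1) (j + 1 + k) (s (j + 1 + k) x)) =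
        cmp T j (j + (k + 1)) (s (j + (k + 1)) x)
      have : j + 1 + k = j + (k + 1) := by omega
      rw [this, cmp_left T (by omega : j + 1 ≤ j + (k + 1))]
      rfl
    rw [h2] at h1
    exact tendsto_nhds_unique h1 ((tendsto_add_atTop_iff_nat 1).mpr (he j x))
  refine ⟨e 0, ?_, ?_⟩
  · -- uniform limit
    have hunif : TendstoUniformly (fun k x => u 0 x k) (e 0) atTop := by
      rw [Metric.tendstoUniformly_iff]
      intro ε hε
      have h1 : Tendsto (fun k : ℕ => δ 0 / 4 * (1 / 2 : ℝ) ^ k / (1 - 1 / 2)) atTop (𝓝 0) := by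
        have := (tendsto_pow_atTop_nhds_zero_of_lt_one (show (0 : ℝ) ≤ 1 / 2 by norm_num)
          (by norm_num)).const_mul (δ 0 / 4)
        have := this.div_const (1 - 1 / 2)
        simpa using this
      filter_upwards [h1.eventually (gt_mem_nhds hε)] with k hk x
      rw [dist_comm]
      exact lt_of_le_of_lt (hbound 0 x k) hk
    apply hunif.continuous
    apply Filter.Frequently.of_forall
    intro k
    exact (cmp_uc T 0 (0 + k) (fun i _ => (hT i).2.1)).continuous.comp (hs _)
  · intro x x' hxx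
    have hall : ∀ j, e j x = e j x' := by
      intro j
      induction j with
      | zero => exact hxx
      | succ j ih =>
        apply (hT j).1
        rw [hrec, hrec, ih]
    apply hsep
    intro n
    calc dist (s n x) (s n x') ≤ dist (s n x) (e n x) + dist (e n x) (s n x') := dist_triangle _ _ _
      _ = dist (s n x) (e n x) + dist (s n x') (e n x') := by rw [hall n, dist_comm (e n x')]
      _ ≤ δ n / 2 + δ n / 2 := add_le_add (hclose n x) (hclose n x')
      _ = δ n := by ring

end Pool.Agent.Helper188_Cone
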