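import Pool.Agent.Helper188_Cone.Bruschlinsky
import Pool.Agent.Helper188_Cone.Limit

/-! Maps of the circle: degree, and injective thickenings. -/

namespace Pool.Agent.Helper188_Cone

open Set Topology Filter Complex

/-- Every map of the circle is a power times an exponential. -/
theorem exists_degree (f : C(Circle, Circle)) :
    ∃ (d : ℤ) (u : C(Circle, ℝ)), ∀ z, f z = z ^ d * Circle.exp (u z) := by
  classical
  obtain ⟨s, a, w, h, h1, h2, h3⟩ := eilenberg' (fun z : Circle => (z : ℂ)) (by fun_prop)
    (fun z w h => Circle.ext h) (fun z => (f z : ℂ)) (by fun_prop) (fun y => Circle.coe_ne_zero _)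
  have hin : ∀ c ∈ s, ‖a c‖ < 1 → HasLog (fun z : Circle => ((z : ℂ) - a c) / z) := by
    intro c hc hlt
    apply HasLog.of_re_pos
    · apply Continuous.div (by fun_prop) (by fun_prop)
      intro z; exact Circle.coe_ne_zero z
    · intro z
      apply re_pos_of_near
      have : (z : ℂ) - a c - z = -a c := by ring
      rw [this, norm_neg, Circle.norm_coe]
      exact hlt
  have hout : ∀ c ∈ s, ¬ ‖a c‖ < 1 → HasLog (fun z : Circle => ((z : ℂ) - a c)) := by
    intro c hc hlt
    apply hasLog_far (fun z : Circle => (z : ℂ)) (by fun_prop) (R := 1)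
    · intro y; rw [Circle.norm_coe]
    · apply lt_of_le_of_ne (not_lt.mp hlt)
      intro h5
      apply h1 c hc
      exact ⟨⟨a c, mem_sphere_zero_iff_norm.mpr h5.symm⟩, rfl⟩
  let d : ℤ := ∑ c ∈ s.filter (fun c => ‖a c‖ < 1), w c
  have hlog : HasLog (fun z : Circle => (((⟨fun z => f z * (z ^ d)⁻¹, by fun_prop⟩ :
      C(Circle, Circle)) z : Circle) : ℂ)) := by
    have e1 : HasLog (fun z : Circle => ∏ c ∈ s.filter (fun c => ‖a c‖ < 1),
        (((z : ℂ) - a c) / z) ^ (w c)) := by
      apply HasLog.prod
      intro c hc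
      exact (hin c (Finset.mem_filter.mp hc).1 (Finset.mem_filter.mp hc).2).zpow _
    have e2 : HasLog (fun z : Circle => ∏ c ∈ s.filter (fun c => ¬ ‖a c‖ < 1),
        (((z : ℂ) - a c)) ^ (w c)) := by
      apply HasLog.prod
      intro c hc
      exact (hout c (Finset.mem_filter.mp hc).1 (Finset.mem_filter.mp hc).2).zpow _
    have e3 : HasLog (fun z : Circle => Complex.exp (h z)) := ⟨h, h2, fun _ => rfl⟩
    refine ((e1.mul e2).mul e3).congr (fun z => ?_)
    show ((f z * (z ^ d)⁻¹ : Circle) : ℂ) = _
    rw [Circle.coe_mul, Circle.coe_inv, Circle.coe_zpow]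
    have h3' : ((f z : Circle) : ℂ) = _ := h3 z
    rw [h3']
    rw [← Finset.prod_filter_mul_prod_filter_not s (fun c => ‖a c‖ < 1)
      (fun c => ((z : ℂ) - a c) ^ (w c))]
    have h4 : ∏ c ∈ s.filter (fun c => ‖a c‖ < 1), (((z : ℂ) - a c) / z) ^ (w c) =
        (∏ c ∈ s.filter (fun c => ‖a c‖ < 1), ((z : ℂ) - a c) ^ (w c)) * ((z : ℂ) ^ d)⁻¹ := by
      rw [← zpow_sum _ _ (Circle.coe_ne_zero z), ← Finset.prod_inv_distrib,
        ← Finset.prod_mul_distrib]
      apply Finset.prod_congr rfl
      intro c _
      rw [div_zpow, div_eq_mul_inv]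
    rw [h4]
    ring
  rw [hasLog_circle] at hlog
  obtain ⟨u, hu⟩ := hlog
  refine ⟨d, u, fun z => ?_⟩
  have := hu z
  change f z * (z ^ d)⁻¹ = Circle.exp (u z) at this
  rw [← this, mul_comm (z ^ d), mul_assoc, inv_mul_cancel, mul_one]

/-- The power map of nonzero exponent has no continuous logarithm. -/
theorem degree_zero (d : ℤ) (u : Circle → ℝ) (hu : Continuous u)
    (h : ∀ z : Circle, z ^ d = Circle.exp (u z)) : d = 0 := by
  let D : ℝ → ℂ := fun t => d * (t * Complex.I) - u (Circle.exp t) * Complex.I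
  have hD : Continuous D := by
    simp only [D]
    fun_prop
  have hD1 : ∀ t, Complex.exp (D t) = 1 := by
    intro t
    have h1 := congrArg (fun z : Circle => (z : ℂ)) (h (Circle.exp t))
    simp only [Circle.coe_zpow, Circle.coe_exp] at h1
    simp only [D]
    rw [Complex.exp_sub, Complex.exp_int_mul, h1, div_self (Complex.exp_ne_zero _)]
  have h2 := const_of_exp_one hD hD1 0 (2 * Real.pi)
  simp only [D, Circle.exp_two_pi, Circle.exp_zero] at h2
  have h5 : (d : ℂ) * (2 * Real.pi * Complex.I) = 0 := by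
    push_cast at h2
    linear_combination -h2
  have h6 : (2 * Real.pi * Complex.I : ℂ) ≠ 0 := by
    simp [Real.pi_ne_zero, Complex.I_ne_zero]
  exact_mod_cast (mul_eq_zero.mp h5).resolve_right h6

lemma dist_exp_le (a b : ℝ) : dist (Circle.exp a) (Circle.exp b) ≤ |a - b| := by
  have h1 : dist (Circle.exp a) (Circle.exp b) =
      ‖((Circle.exp a : Circle) : ℂ) - ((Circle.exp b : Circle) : ℂ)‖ := by
    rw [← dist_eq_norm]; rfl
  rw [h1, Circle.coe_exp, Circle.coe_exp]
  have h2 : Complex.exp (a * Complex.I) - Complex.exp (b * Complex.I) =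
      Complex.exp (b * Complex.I) * (Complex.exp (Complex.I * ((a - b : ℝ) : ℂ)) - 1) := by
    rw [mul_sub, ← Complex.exp_add, mul_one]
    congr 2
    push_cast; ring
  rw [h2, norm_mul, Complex.norm_exp_ofReal_mul_I, one_mul]
  have := Real.norm_exp_I_mul_ofReal_sub_one_le (x := a - b)
  simpa [Real.norm_eq_abs] using this

lemma uc_exp : UniformContinuous (fun t : ℝ => Circle.exp t) := by
  refine (Metric.uniformContinuous_iff (α := ℝ) (β := Circle)).mpr ?_
  intro ε hε
  refine ⟨ε, hε, fun {a b} h => ?_⟩
  rw [Real.dist_eq] at h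
  exact lt_of_le_of_lt (dist_exp_le a b) h

/-- Thickening of a map of the circle of degree one or minus one. -/
theorem thick_circle (f : C(Circle, Circle)) (σ : ℤ) (hσ : σ = 1 ∨ σ = -1) (u : C(Circle, ℝ))
    (hf : ∀ z, f z = z ^ σ * Circle.exp (u z)) (α : ℝ) (hα : 0 < α) :
    ∃ T : Circle × ℝ → Circle × ℝ, Function.Injective T ∧ UniformContinuous T ∧
      ∀ z : Circle, dist (T (z, 0)) (f z, 0) ≤ α := by
  obtain ⟨C, hC⟩ : ∃ C : ℝ, ∀ z, |u z| ≤ C := by
    obtain ⟨C, hC⟩ := (isCompact_range u.continuous).isBounded.exists_norm_le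
    exact ⟨C, fun z => hC _ ⟨z, rfl⟩⟩
  have hC0 : 0 ≤ C := le_trans (abs_nonneg _) (hC 1)
  set ε : ℝ := α / (C + 1) with hε
  have hεpos : 0 < ε := by positivity
  refine ⟨fun p => (f p.1 * Circle.exp p.2, ε * (u p.1 + p.2)), ?_, ?_, ?_⟩
  · rintro ⟨z, t⟩ ⟨z', t'⟩ h
    simp only [Prod.mk.injEq] at h
    obtain ⟨h1, h2⟩ := h
    have h3 : u z + t = u z' + t' := mul_left_cancel₀ hεpos.ne' h2
    have h4 : f z * Circle.exp t = z ^ σ * Circle.exp (u z + t) := by
      rw [hf, Circle.exp_add, mul_assoc]
    have h5 : f z' * Circle.exp t' = z' ^ σ * Circle.exp (u z' + t') := by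
      rw [hf, Circle.exp_add, mul_assoc]
    rw [h4, h5, h3] at h1
    have h6 : z ^ σ = z' ^ σ := mul_right_cancel h1
    have h7 : z = z' := by
      rcases hσ with rfl | rfl
      · simpa using h6
      · simpa using h6
    subst h7
    have : t = t' := by linarith
    rw [this]
  · apply UniformContinuous.prodMk
    · have h1 : UniformContinuous (fun p : Circle × Circle => p.1 * p.2) :=
        CompactSpace.uniformContinuous_of_continuous (by fun_prop)
      have h2 : UniformContinuous (fun p : Circle × ℝ => (f p.1, Circle.exp p.2)) := by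
        apply UniformContinuous.prodMk
        · exact (CompactSpace.uniformContinuous_of_continuous f.continuous).comp
            uniformContinuous_fst
        · exact uc_exp.comp uniformContinuous_snd
      exact h1.comp h2
    · have h1 : UniformContinuous (fun p : Circle × ℝ => u p.1 + p.2) :=
        ((CompactSpace.uniformContinuous_of_continuous u.continuous).comp
            uniformContinuous_fst).add uniformContinuous_snd
      exact (Real.uniformContinuous_const_mul (x := ε)).comp h1
  · intro z
    rw [Prod.dist_eq]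
    apply max_le
    · simp only [Circle.exp_zero, mul_one, dist_self]
      exact hα.le
    · simp only [add_zero, dist_zero_right, Real.norm_eq_abs]
      rw [abs_mul, abs_of_pos hεpos]
      calc ε * |u z| ≤ ε * (C + 1) := by
            apply mul_le_mul_of_nonneg_left _ hεpos.le
            linarith [hC z]
        _ = α := by rw [hε]; field_simp

/-- Thickening of a map of the line. -/
theorem thick_line (ψ : ℝ → ℝ) (hψ : UniformContinuous ψ) (R : ℝ) (α : ℝ)
    (hα : 0 < α) :
    ∃ T : ℝ × ℝ → ℝ × ℝ, Function.Injective T ∧ UniformContinuous T ∧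
      ∀ t : ℝ, |t| ≤ R → dist (T (t, 0)) (ψ t, 0) ≤ α := by
  set ε : ℝ := α / (|R| + 1) with hε
  have hεpos : 0 < ε := by positivity
  refine ⟨fun p => (ψ p.1 + p.2, ε * p.1), ?_, ?_, ?_⟩
  · rintro ⟨z, t⟩ ⟨z', t'⟩ h
    simp only [Prod.mk.injEq] at h
    obtain ⟨h1, h2⟩ := h
    have h3 : z = z' := mul_left_cancel₀ hεpos.ne' h2
    subst h3
    have : t = t' := by linarith
    rw [this]
  · apply UniformContinuous.prodMk
    · exact (hψ.comp uniformContinuous_fst).add uniformContinuous_snd
    · exact (Real.uniformContinuous_const_mul (x := ε)).comp uniformContinuous_fst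
  · intro t ht
    rw [Prod.dist_eq]
    apply max_le
    · simp only [add_zero, dist_self]
      exact hα.le
    · simp only [dist_zero_right, Real.norm_eq_abs]
      rw [abs_mul, abs_of_pos hεpos]
      calc ε * |t| ≤ ε * (|R| + 1) := by
            apply mul_le_mul_of_nonneg_left _ hεpos.le
            linarith [le_abs_self R]
        _ = α := by rw [hε]; field_simp

/-- A compact space with an injective map to the plane embeds in the sphere. -/
theorem embeds_of_plane {X : Type*} [TopologicalSpace X] [CompactSpace X] (e : X → ℂ)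
    (he : Continuous e) (hinj : Function.Injective e) :
    ∃ e' : X → Metric.sphere (0 : E3) 1, Topology.IsEmbedding e' := by
  obtain ⟨v⟩ : Nonempty (Metric.sphere (0 : E3) 1) :=
    (NormedSpace.sphere_nonempty.mpr zero_le_one).to_subtype
  obtain ⟨h1, h2, h3, h4, h5⟩ := Pool.Agent.H370R3.SphereTools.stereo_facts (n := 2) v
  let k : ℂ → Metric.sphere (0 : E3) 1 := fun z =>
    (stereographic' 2 v).symm (Complex.orthonormalBasisOneI.repr z)
  have hk : Continuous k := h4.comp (LinearIsometryEquiv.continuous _)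
  have hkinj : Function.Injective k := by
    intro z w h
    have := congrArg (stereographic' 2 v) h
    simp only [k] at this
    rw [h3, h3] at this
    exact (LinearIsometryEquiv.injective _) this
  exact ⟨k ∘ e, ((hk.comp he).isClosedEmbedding (hkinj.comp hinj)).isEmbedding⟩

end Pool.Agent.Helper188_Cone
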