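import Pool.Agent.Helper188_Cone.Circ

/-! Inverse limits of circles. -/

namespace Pool.Agent.Helper188_Cone

open Set Topology Filter Complex

/-- Inverse limit of a sequence of circles. -/
abbrev InvLim (f : ℕ → C(Circle, Circle)) := {x : ℕ → Circle // ∀ n, x n = f n (x (n + 1))}

/-- the bonding maps as plain functions -/
noncomputable def bnd (f : ℕ → C(Circle, Circle)) : ℕ → Circle → Circle := fun n => f n

lemma invlim_cmp {f : ℕ → C(Circle, Circle)} (x : InvLim f) {j n : ℕ} (h : j ≤ n) :
    x.1 j = cmp (bnd f) j n (x.1 n) := by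
  induction n, h using Nat.le_induction with
  | base => rw [cmp_self]; rfl
  | succ n hn ih =>
    rw [cmp_succ _ hn, Function.comp_apply, ih]
    congr 1
    exact x.2 n

lemma cmp_bnd_continuous (f : ℕ → C(Circle, Circle)) (j n : ℕ) :
    Continuous (cmp (bnd f) j n) := by
  induction n with
  | zero => exact continuous_id
  | succ n ih =>
    simp only [cmp]
    split_ifs
    · exact ih.comp (f n).continuous
    · exact continuous_id

lemma invlim_ext {f : ℕ → C(Circle, Circle)} (x x' : InvLim f)
    (h : ∀ N, ∃ n ≥ N, x.1 n = x'.1 n) : x = x' := by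
  apply Subtype.ext
  funext N
  obtain ⟨n, hn, he⟩ := h N
  rw [invlim_cmp x hn, invlim_cmp x' hn, he]

theorem embed_unit_degrees (f : ℕ → C(Circle, Circle)) (d : ℕ → ℤ) (u : ℕ → C(Circle, ℝ))
    (hf : ∀ n z, f n z = z ^ (d n) * Circle.exp (u n z)) (n₀ : ℕ)
    (hd : ∀ n ≥ n₀, d n = 1 ∨ d n = -1) :
    ∃ e : InvLim f → Circle × ℝ, Continuous e ∧ Function.Injective e := by
  obtain ⟨δ, hδ, hsep⟩ := exists_sep (fun k => (bnd f) (n₀ + k))
    (fun k => CompactSpace.uniformContinuous_of_continuous (f (n₀ + k)).continuous)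
  apply abstract_embed (fun k x => (x.1 (n₀ + k), (0 : ℝ))) _ δ hδ
  · intro x x' h
    have h1 := hsep (fun k => x.1 (n₀ + k)) (fun k => x'.1 (n₀ + k)) (fun k => x.2 (n₀ + k))
      (fun k => x'.2 (n₀ + k)) (fun k => by
        have := h k
        rw [Prod.dist_eq] at this
        exact le_trans (le_max_left _ _) this)
    apply invlim_ext
    intro N
    exact ⟨n₀ + N, by omega, congrFun h1 N⟩
  · intro k α hα
    obtain ⟨T, h1, h2, h3⟩ := thick_circle (f (n₀ + k)) (d (n₀ + k)) (hd _ (by omega))
      (u (n₀ + k)) (hf _) α hα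
    refine ⟨T, h1, h2, fun x => ?_⟩
    have h4 := h3 (x.1 (n₀ + (k + 1)))
    have h5 := x.2 (n₀ + k)
    rw [show n₀ + k + 1 = n₀ + (k + 1) by omega] at h5
    rw [h5]
    exact h4
  · intro k
    have h : Continuous (fun x : InvLim f => x.1 (n₀ + k)) :=
      (continuous_apply _).comp continuous_subtype_val
    exact h.prodMk continuous_const

theorem embed_zero_degrees (f : ℕ → C(Circle, Circle)) (d : ℕ → ℤ) (u : ℕ → C(Circle, ℝ))
    (hf : ∀ n z, f n z = z ^ (d n) * Circle.exp (u n z)) (hd : ∀ N, ∃ n ≥ N, d n = 0) :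
    ∃ e : InvLim f → ℝ × ℝ, Continuous e ∧ Function.Injective e := by
  obtain ⟨ν, hν, hdν⟩ := Filter.extraction_of_frequently_atTop
    (P := fun n => d n = 0) (Filter.frequently_atTop.mpr hd)
  have hfν : ∀ k z, f (ν k) z = Circle.exp (u (ν k) z) := by
    intro k z
    rw [hf, hdν k, zpow_zero, one_mul]
  let y : ℕ → InvLim f → ℝ := fun k x => u (ν k) (x.1 (ν k + 1))
  have hx : ∀ k (x : InvLim f), x.1 (ν k) = Circle.exp (y k x) := by
    intro k x
    rw [x.2 (ν k), hfν]
  let ψ : ℕ → ℝ → ℝ := fun k t => u (ν k) (cmp (bnd f) (ν k + 1) (ν (k + 1)) (Circle.exp t))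
  have hlt : ∀ k, ν k + 1 ≤ ν (k + 1) := fun k => hν (Nat.lt_succ_self k)
  have hyψ : ∀ k (x : InvLim f), y k x = ψ k (y (k + 1) x) := by
    intro k x
    simp only [y, ψ]
    rw [show u (ν (k + 1)) (x.1 (ν (k + 1) + 1)) = y (k + 1) x from rfl, ← hx (k + 1) x,
      ← invlim_cmp x (hlt k)]
  have hψuc : ∀ k, UniformContinuous (ψ k) := by
    intro k
    have h1 : UniformContinuous (fun z : Circle => u (ν k) (cmp (bnd f) (ν k + 1) (ν (k + 1)) z)) :=
      CompactSpace.uniformContinuous_of_continuous
        ((u (ν k)).continuous.comp (cmp_bnd_continuous f _ _))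
    exact h1.comp uc_exp
  have hbd : ∀ k, ∃ C : ℝ, ∀ z, |u (ν k) z| ≤ C := by
    intro k
    obtain ⟨C, hC⟩ := (isCompact_range (u (ν k)).continuous).isBounded.exists_norm_le
    exact ⟨C, fun z => hC _ ⟨z, rfl⟩⟩
  choose C hC using hbd
  obtain ⟨δ, hδ, hsep⟩ := exists_sep ψ hψuc
  apply abstract_embed (fun k x => (y k x, (0 : ℝ))) _ δ hδ
  · intro x x' h
    have h1 := hsep (fun k => y k x) (fun k => y k x') (fun k => hyψ k x)
      (fun k => hyψ k x') (fun k => by
        have := h k
        rw [Prod.dist_eq] at this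
        exact le_trans (le_max_left _ _) this)
    apply invlim_ext
    intro N
    refine ⟨ν N, hν.id_le N, ?_⟩
    rw [hx, hx]
    exact congrArg _ (congrFun h1 N)
  · intro k α hα
    obtain ⟨T, h1, h2, h3⟩ := thick_line (ψ k) (hψuc k) (C (k + 1)) α hα
    refine ⟨T, h1, h2, fun x => ?_⟩
    have h4 := h3 (y (k + 1) x) (hC (k + 1) _)
    rw [← hyψ k x] at h4
    exact h4
  · intro k
    have h : Continuous (fun x : InvLim f => x.1 (ν k + 1)) :=
      (continuous_apply _).comp continuous_subtype_val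
    exact ((u (ν k)).continuous.comp h).prodMk continuous_const

lemma plane_of_annulus {X : Type*} [TopologicalSpace X] (e : X → Circle × ℝ) (he : Continuous e)
    (hi : Function.Injective e) : ∃ e' : X → ℂ, Continuous e' ∧ Function.Injective e' := by
  refine ⟨fun x => ((e x).1 : ℂ) * (Real.exp (e x).2 : ℝ), by fun_prop, fun x y h => ?_⟩
  have h1 : ‖((e x).1 : ℂ) * (Real.exp (e x).2 : ℝ)‖ = ‖((e y).1 : ℂ) * (Real.exp (e y).2 : ℝ)‖ :=
    congrArg norm h
  rw [norm_mul, norm_mul, Circle.norm_coe, Circle.norm_coe, one_mul, one_mul, Complex.norm_real,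
    Complex.norm_real, Real.norm_eq_abs, Real.norm_eq_abs, Real.abs_exp, Real.abs_exp] at h1
  have h2 := Real.exp_injective h1
  apply hi
  apply Prod.ext
  · apply Circle.ext
    simp only [h2] at h
    have h3 : ((Real.exp (e y).2 : ℝ) : ℂ) ≠ 0 := by
      exact_mod_cast (Real.exp_pos _).ne'
    exact mul_right_cancel₀ h3 h
  · exact h2

lemma plane_of_plane {X : Type*} [TopologicalSpace X] (e : X → ℝ × ℝ) (he : Continuous e)
    (hi : Function.Injective e) : ∃ e' : X → ℂ, Continuous e' ∧ Function.Injective e' := by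
  refine ⟨fun x => ⟨(e x).1, (e x).2⟩, ?_, fun x y h => ?_⟩
  · have h1 : (fun x => (⟨(e x).1, (e x).2⟩ : ℂ)) =
        fun x => ((e x).1 : ℂ) + ((e x).2 : ℂ) * Complex.I := by
      funext x
      exact (Complex.mk_eq_add_mul_I _ _)
    rw [h1]
    fun_prop
  · apply hi
    apply Prod.ext
    · exact congrArg Complex.re h
    · exact congrArg Complex.im h

/-- The projections of an inverse limit of circles with nonzero degrees are essential. -/
theorem essential_proj (f : ℕ → C(Circle, Circle)) (d : ℕ → ℤ) (u : ℕ → C(Circle, ℝ))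
    (hf : ∀ n z, f n z = z ^ (d n) * Circle.exp (u n z)) (N : ℕ) (hd : ∀ n ≥ N, d n ≠ 0)
    (h : C(InvLim f, ℝ)) (hh : ∀ x : InvLim f, x.1 N = Circle.exp (h x)) : False := by
  have hclosed : IsClosed {x : ℕ → Circle | ∀ n, x n = f n (x (n + 1))} := by
    have : {x : ℕ → Circle | ∀ n, x n = f n (x (n + 1))} =
        ⋂ n, {x : ℕ → Circle | x n = f n (x (n + 1))} := by
      ext x; simp
    rw [this]
    apply isClosed_iInter
    intro n
    apply isClosed_eq
    · fun_prop
    · fun_prop
  obtain ⟨h', hh'⟩ := ContinuousMap.exists_extension (hclosed.isClosedEmbedding_subtypeVal)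
    (h : C(InvLim f, ℝ))
  have hh'' : ∀ x : InvLim f, h' x.1 = h x := fun x => congrFun (congrArg DFunLike.coe hh') x
  let G : (ℕ → Circle) → ℝ := fun x =>
    (((x N : Circle) : ℂ) / ((Circle.exp (h' x) : Circle) : ℂ)).re
  have hG : Continuous G := by
    apply Complex.continuous_re.comp
    apply Continuous.div (by fun_prop) (by fun_prop)
    intro x
    exact Circle.coe_ne_zero _
  let U : Set (ℕ → Circle) := {x | 0 < G x}
  have hU : IsOpen U := isOpen_lt continuous_const hG
  have hLU : ∀ x : InvLim f, x.1 ∈ U := by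
    intro x
    show 0 < (((x.1 N : Circle) : ℂ) / ((Circle.exp (h' x.1) : Circle) : ℂ)).re
    rw [hh'', hh x, div_self (Circle.coe_ne_zero _)]
    simp
  let j : ℕ → Circle → (ℕ → Circle) := fun m z i => if i ≤ m then cmp (bnd f) i m z else 1
  have hjc : ∀ m, Continuous (j m) := by
    intro m
    apply continuous_pi
    intro i
    simp only [j]
    split_ifs
    · exact cmp_bnd_continuous f i m
    · exact continuous_const
  have hjrec : ∀ m z i, i < m → j m z i = f i (j m z (i + 1)) := by
    intro m z i hi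
    simp only [j]
    rw [if_pos hi.le, if_pos (by omega), cmp_left _ (by omega : i + 1 ≤ m)]
    rfl
  have hex : ∃ m ≥ N, ∀ z, j m z ∈ U := by
    by_contra hcon
    push Not at hcon
    have h1 : ∀ k : ℕ, ∃ z, j (N + k) z ∉ U := fun k => hcon (N + k) (by omega)
    choose z hz using h1
    obtain ⟨a, φ, hφ, ha⟩ := CompactSpace.tendsto_subseq (fun k => j (N + k) (z k))
    have haL : ∀ n, a n = f n (a (n + 1)) := by
      intro n
      have h2 : Tendsto (fun k => j (N + φ k) (z (φ k)) n) atTop (𝓝 (a n)) :=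
        ((continuous_apply n).tendsto a).comp ha
      have h3 : Tendsto (fun k => f n (j (N + φ k) (z (φ k)) (n + 1))) atTop
          (𝓝 (f n (a (n + 1)))) := by
        have hc : Continuous (fun a : ℕ → Circle => f n (a (n + 1))) := by fun_prop
        exact (hc.tendsto a).comp ha
      apply tendsto_nhds_unique h2
      refine h3.congr' ?_
      filter_upwards [eventually_ge_atTop (n + 1)] with k hk
      have : k ≤ φ k := hφ.id_le k
      exact (hjrec _ _ n (by omega)).symm
    have haU : a ∉ U := by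
      have : IsClosed Uᶜ := hU.isClosed_compl
      exact this.mem_of_tendsto ha (Filter.Eventually.of_forall (fun k => hz _))
    exact haU (hLU ⟨a, haL⟩)
  obtain ⟨m, hm, hmU⟩ := hex
  -- degree of the composition
  have hcomp : ∀ n ≥ N, ∃ (D : ℤ) (v : Circle → ℝ), D ≠ 0 ∧ Continuous v ∧
      ∀ z, cmp (bnd f) N n z = z ^ D * Circle.exp (v z) := by
    intro n hn
    induction n, hn using Nat.le_induction with
    | base =>
      refine ⟨1, fun _ => 0, one_ne_zero, continuous_const, fun z => ?_⟩
      rw [cmp_self]; simp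
    | succ n hn ih =>
      obtain ⟨D, v, hD, hv, hcmp⟩ := ih
      refine ⟨d n * D, fun z => u n z * D + v (f n z), mul_ne_zero (hd n hn) hD, by fun_prop,
        fun z => ?_⟩
      rw [cmp_succ _ hn, Function.comp_apply, hcmp]
      show (f n z) ^ D * _ = _
      rw [Circle.exp_add, ← mul_assoc]
      show (f n z) ^ D * Circle.exp (v (f n z)) = _
      congr 1
      rw [hf, mul_zpow, zpow_mul]
      congr 1
      rw [mul_comm, ← zsmul_eq_mul, Circle.exp_zsmul]
  obtain ⟨D, v, hD, hv, hcmp⟩ := hcomp m hm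
  have hlog1 : HasLog (fun z : Circle =>
      (((j m z N : Circle) : ℂ) / ((Circle.exp (h' (j m z)) : Circle) : ℂ))) := by
    apply HasLog.of_re_pos
    · apply Continuous.div
      · have := hjc m
        fun_prop
      · have := hjc m
        fun_prop
      · intro z; exact Circle.coe_ne_zero _
    · intro z
      exact hmU z
  have hlog2 : HasLog (fun z : Circle => ((Circle.exp (h' (j m z)) : Circle) : ℂ)) :=
    ⟨fun z => h' (j m z) * Complex.I, by have := hjc m; fun_prop, fun z => Circle.coe_exp _⟩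
  have hlog3 : HasLog (fun z : Circle => ((Circle.exp (v z) : Circle) : ℂ)) :=
    ⟨fun z => v z * Complex.I, by fun_prop, fun z => Circle.coe_exp _⟩
  have hlog4 : HasLog (fun z : Circle =>
      (((⟨fun z : Circle => z ^ D, by fun_prop⟩ : C(Circle, Circle)) z : Circle) : ℂ)) := by
    refine ((hlog1.mul hlog2).mul hlog3.inv).congr (fun z => ?_)
    show ((z ^ D : Circle) : ℂ) = _
    have h1 : j m z N = z ^ D * Circle.exp (v z) := by
      simp only [j, if_pos hm]
      exact hcmp z
    rw [h1]
    have n1 := Circle.coe_ne_zero (Circle.exp (h' (j m z)))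
    have n2 := Circle.coe_ne_zero (Circle.exp (v z))
    rw [Circle.coe_mul]
    field_simp
  rw [hasLog_circle] at hlog4
  obtain ⟨w, hw⟩ := hlog4
  exact hD (degree_zero D w w.continuous hw)

end Pool.Agent.Helper188_Cone
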