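import Pool.Agent.Helper188_Cone.CircleLike

/-! The cone question for inverse limits of circles. -/

namespace Pool.Agent.Helper188_Cone

open Set Topology Filter Complex

/-- An integer sequence with infinitely many proper divisions vanishes. -/
lemma vanish_of_divisible (z d : ℕ → ℤ) (N : ℕ) (hz : ∀ n ≥ N, z n = d n * z (n + 1))
    (hd : ∀ n ≥ N, d n ≠ 0) (hinf : ∀ n ≥ N, ∃ m ≥ n, 2 ≤ |d m|) : ∀ n ≥ N, z n = 0 := by
  have hstep : ∀ n ≥ N, |z (n + 1)| ≤ |z n| := by
    intro n hn
    rw [hz n hn, abs_mul]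
    have : 1 ≤ |d n| := Int.one_le_abs (hd n hn)
    nlinarith [abs_nonneg (z (n + 1))]
  have hmono : ∀ n ≥ N, ∀ m ≥ n, |z m| ≤ |z n| := by
    intro n hn m hm
    induction m, hm using Nat.le_induction with
    | base => exact le_rfl
    | succ m hm ih => exact le_trans (hstep m (by omega)) ih
  have hback : ∀ n ≥ N, ∀ m ≥ n, z m = 0 → z n = 0 := by
    intro n hn m hm
    induction m, hm using Nat.le_induction with
    | base => exact id
    | succ m hm ih =>
      intro h
      apply ih
      rw [hz m (by omega), h, mul_zero]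
  have key : ∀ v : ℕ, ∀ n ≥ N, |z n| ≤ v → z n = 0 := by
    intro v
    induction v with
    | zero =>
      intro n _ h
      have h1 : |z n| ≤ 0 := by simpa using h
      exact abs_nonpos_iff.mp h1
    | succ v ih =>
      intro n hn h
      obtain ⟨m, hm, hdm⟩ := hinf n hn
      apply hback n hn (m + 1) (by omega)
      apply ih (m + 1) (by omega)
      have h1 := hmono n hn m hm
      have h2 : |z m| = |d m| * |z (m + 1)| := by rw [hz m (by omega), abs_mul]
      have h3 := abs_nonneg (z (m + 1))
      push_cast at h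
      nlinarith
  intro n hn
  exact key (z n).natAbs n hn (by rw [Int.natCast_natAbs])

theorem circle_like_main {X : Type*} [TopologicalSpace X] [CompactSpace X] [T2Space X]
    (f : ℕ → C(Circle, Circle)) (E : X ≃ₜ InvLim f)
    (g : X × unitInterval → E3) (hg : Continuous g)
    (hinj : ∀ p q, g p = g q ↔ (p = q ∨ (p.2 = 1 ∧ q.2 = 1))) :
    ∃ e : X → Metric.sphere (0 : E3) 1, Topology.IsEmbedding e := by
  choose d u hf using fun n => exists_degree (f n)
  -- it is enough to embed in the plane
  have hplane : (∃ e : InvLim f → ℂ, Continuous e ∧ Function.Injective e) →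
      ∃ e : X → Metric.sphere (0 : E3) 1, Topology.IsEmbedding e := by
    rintro ⟨e, he, hi⟩
    exact embeds_of_plane (e ∘ E) (he.comp E.continuous) (hi.comp E.injective)
  by_cases hA : ∃ n₀, ∀ n ≥ n₀, d n = 1 ∨ d n = -1
  · obtain ⟨n₀, hn₀⟩ := hA
    obtain ⟨e, he, hi⟩ := embed_unit_degrees f d u hf n₀ hn₀
    exact hplane (plane_of_annulus e he hi)
  by_cases hB : ∀ N, ∃ n ≥ N, d n = 0
  · obtain ⟨e, he, hi⟩ := embed_zero_degrees f d u hf hB
    exact hplane (plane_of_plane e he hi)
  exfalso
  push Not at hA hB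
  obtain ⟨N, hN⟩ := hB
  obtain ⟨T, hT⟩ := cone_hom g hg hinj
  let p : ℕ → C(X, Circle) := fun n => ⟨fun x => (E x).1 n, by
    exact (continuous_apply n).comp (continuous_subtype_val.comp E.continuous)⟩
  have hp : ∀ n, T (p n) = T (p (n + 1)) ^ (d n) := by
    intro n
    let w : C(X, Circle) := ⟨fun x => Circle.exp (u n (p (n + 1) x)), by fun_prop⟩
    have h1 : p n = (p (n + 1)) ^ (d n) * w := by
      ext x
      congr 1
      show (E x).1 n = ((E x).1 (n + 1)) ^ (d n) * Circle.exp (u n ((E x).1 (n + 1)))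
      rw [(E x).2 n, hf]
    have h2 : T w = 1 := (hT w).mpr ⟨⟨fun x => u n (p (n + 1) x), by fun_prop⟩, fun x => rfl⟩
    rw [h1, map_mul, map_zpow, h2, mul_one]
  have hz : ∀ b : Set ℂ, ∀ n ≥ N, (Multiplicative.toAdd (T (p n))) b = 0 := by
    intro b
    apply vanish_of_divisible (fun n => (Multiplicative.toAdd (T (p n))) b) d N
    · intro n _
      show (Multiplicative.toAdd (T (p n))) b = d n * (Multiplicative.toAdd (T (p (n + 1)))) b
      rw [hp n, toAdd_zpow, Finsupp.smul_apply, smul_eq_mul]
    · exact hN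
    · intro n hn
      obtain ⟨m, hm, h1, h2⟩ := hA n
      refine ⟨m, hm, ?_⟩
      have h3 := hN m (by omega)
      rcases le_or_gt 0 (d m) with h4 | h4
      · rw [abs_of_nonneg h4]; omega
      · rw [abs_of_neg h4]; omega
  have hTN : T (p N) = 1 := by
    have : Multiplicative.toAdd (T (p N)) = 0 := by
      ext b
      exact hz b N le_rfl
    exact this
  obtain ⟨h, hh⟩ := (hT (p N)).mp hTN
  exact essential_proj f d u hf N hN ⟨fun y => h (E.symm y), by fun_prop⟩ (fun y => by
    have := hh (E.symm y)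
    simp only [p, ContinuousMap.coe_mk, Homeomorph.apply_symm_apply] at this
    exact this)

end Pool.Agent.Helper188_Cone
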