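import Pool.Agent.Helper188_Cone.Key

/-! The deleted product of a space whose cone embeds in three-space. -/

namespace Pool.Agent.Helper188_Cone

open Set Topology Filter Matrix

section geom

set_option linter.unusedSectionVars false

variable {X : Type*} [TopologicalSpace X] [CompactSpace X] [T2Space X]

/-- A small radius separating the base of the cone from the vertex. -/
lemma exists_radius [Nonempty X] (g : X × unitInterval → E3) (hg : Continuous g)
    (hinj : ∀ p q, g p = g q ↔ (p = q ∨ (p.2 = 1 ∧ q.2 = 1))) (v : E3)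
    (hv : ∀ x, g (x, 1) = v) : ∃ r : ℝ, 0 < r ∧ ∀ x, r < ‖g (x, 0) - v‖ := by
  have hc : Continuous fun x : X => ‖g (x, 0) - v‖ := by fun_prop
  obtain ⟨x₁, -, hx₁⟩ := isCompact_univ.exists_isMinOn (univ_nonempty (α := X)) hc.continuousOn
  have hpos : 0 < ‖g (x₁, 0) - v‖ := by
    rw [norm_pos_iff, sub_ne_zero, ← hv x₁]
    intro h
    rw [hinj] at h
    rcases h with h | h
    · have := congrArg Prod.snd h
      exact zero_ne_one this
    · exact zero_ne_one h.1
  refine ⟨‖g (x₁, 0) - v‖ / 2, by positivity, fun x => ?_⟩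
  have := hx₁ (mem_univ x)
  have h2 : ‖g (x₁, 0) - v‖ ≤ ‖g (x, 0) - v‖ := this
  linarith

lemma exists_level (g : X × unitInterval → E3) (hg : Continuous g) (v : E3)
    (hv : ∀ x, g (x, 1) = v) {r : ℝ} (hr : 0 < r) (hr0 : ∀ x, r < ‖g (x, 0) - v‖) (x : X) :
    ∃ t : unitInterval, ‖g (x, t) - v‖ = r := by
  have hc : Continuous fun t : unitInterval => ‖g (x, t) - v‖ := by fun_prop
  have h1 : ‖g (x, 1) - v‖ ≤ r := by rw [hv]; simpa using hr.le
  have h2 : r ≤ ‖g (x, 0) - v‖ := (hr0 x).le
  exact mem_range_of_exists_le_of_exists_ge hc ⟨1, h1⟩ ⟨0, h2⟩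

/-- If a whole small sphere lies in the image, the base is a continuous image of the sphere. -/
lemma image_of_sphere (g : X × unitInterval → E3) (hg : Continuous g)
    (hinj : ∀ p q, g p = g q ↔ (p = q ∨ (p.2 = 1 ∧ q.2 = 1))) (v : E3)
    (hv : ∀ x, g (x, 1) = v) {r : ℝ} (hr : 0 < r) (hr0 : ∀ x, r < ‖g (x, 0) - v‖)
    (hall : ∀ e : E3, ‖e‖ = 1 → ∃ p, g p = v + r • e) :
    ∃ s : Metric.sphere (0 : E3) 1 → X, Continuous s ∧ Function.Surjective s := by
  let K : Set (X × unitInterval) := {p | ‖g p - v‖ = r}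
  have hK : IsClosed K := isClosed_eq (by fun_prop) continuous_const
  have : CompactSpace K := isCompact_iff_compactSpace.mp hK.isCompact
  have hK1 : ∀ p ∈ K, p.2 ≠ 1 := by
    intro p hp h1
    have : g p = v := by rw [← hv p.1, ← h1]
    have h2 : ‖g p - v‖ = r := hp
    rw [this] at h2
    simp at h2
    linarith
  let G : K → Metric.sphere (0 : E3) 1 := fun p => ⟨r⁻¹ • (g p - v), by
    have : ‖g p - v‖ = r := p.2
    rw [mem_sphere_zero_iff_norm, norm_smul, this, Real.norm_eq_abs, abs_of_pos (inv_pos.mpr hr),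
      inv_mul_cancel₀ hr.ne']⟩
  have hGc : Continuous G := by
    apply Continuous.subtype_mk
    fun_prop
  have hGi : Function.Injective G := by
    intro p q h
    have h1 : r⁻¹ • (g p - v) = r⁻¹ • (g q - v) := congrArg Subtype.val h
    have h2 : g p - v = g q - v := smul_right_injective E3 (inv_ne_zero hr.ne') h1
    have h3 : g p = g q := sub_left_injective h2
    rw [hinj] at h3
    rcases h3 with h3 | h3
    · exact Subtype.ext h3
    · exact absurd h3.1 (hK1 _ p.2)
  have hGs : Function.Surjective G := by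
    intro e
    obtain ⟨p, hp⟩ := hall e (by simp)
    have he : ‖(e : E3)‖ = 1 := by simp
    have hpK : p ∈ K := by
      show ‖g p - v‖ = r
      rw [hp, add_sub_cancel_left, norm_smul, he, mul_one, Real.norm_eq_abs, abs_of_pos hr]
    refine ⟨⟨p, hpK⟩, Subtype.ext ?_⟩
    show r⁻¹ • (g p - v) = e
    rw [hp, add_sub_cancel_left, smul_smul, inv_mul_cancel₀ hr.ne', one_smul]
  let H : K ≃ₜ Metric.sphere (0 : E3) 1 :=
    Continuous.homeoOfEquivCompactToT2 (f := Equiv.ofBijective G ⟨hGi, hGs⟩) hGc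
  refine ⟨fun e => (H.symm e).1.1, by fun_prop, fun x => ?_⟩
  obtain ⟨t, ht⟩ := exists_level g hg v hv hr hr0 x
  refine ⟨H ⟨(x, t), ht⟩, ?_⟩
  simp

/-- The radial field can be made constant at the vertex. -/
lemma exists_field (g : X × unitInterval → E3) (hg : Continuous g) (v : E3)
    (hv : ∀ x, g (x, 1) = v) {r : ℝ} (hr : 0 < r) (hr0 : ∀ x, r < ‖g (x, 0) - v‖)
    (e : E3) (he : ‖e‖ = 1) (hmiss : ∀ p, g p ≠ v + r • e) :
    ∃ W : X × unitInterval → E3, Continuous W ∧ (∀ p, W p ≠ 0) ∧
      (∀ x, W (x, 0) = g (x, 0) - v) ∧ ∀ x, W (x, 1) = -e := by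
  let A : Set (X × unitInterval) := {p | r ≤ ‖g p - v‖}
  let T : Set (X × unitInterval) := {p | ‖g p - v‖ ≤ r ∧ g p - v = ‖g p - v‖ • e}
  have hρ : Continuous fun p => ‖g p - v‖ := by fun_prop
  have hd : Continuous fun p => g p - v := by fun_prop
  have hA : IsClosed A := isClosed_le continuous_const hρ
  have hT : IsClosed T := by
    apply IsClosed.inter
    · exact isClosed_le hρ continuous_const
    · exact isClosed_eq hd (hρ.smul continuous_const)
  have hdisj : Disjoint A T := by
    rw [Set.disjoint_left]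
    intro p hpA hpT
    have h1 : ‖g p - v‖ = r := le_antisymm hpT.1 hpA
    have h2 := hpT.2
    rw [h1] at h2
    exact hmiss p (by rw [← h2]; abel)
  obtain ⟨l, hl0, hl1, hl⟩ := exists_continuous_zero_one_of_isClosed hA hT hdisj
  have hTend : ∀ x, (x, (1 : unitInterval)) ∈ T := by
    intro x
    constructor
    · rw [hv]; simpa using hr.le
    · rw [hv]; simp
  have hAend : ∀ x, (x, (0 : unitInterval)) ∈ A := fun x => (hr0 x).le
  refine ⟨fun p => (1 - l p) • (g p - v) - l p • e, by fun_prop, ?_, ?_, ?_⟩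
  · intro p h0
    have hlp := hl p
    have h1 : (1 - l p) • (g p - v) = l p • e := sub_eq_zero.mp h0
    by_cases hz : l p = 0
    · rw [hz] at h1
      simp only [sub_zero, one_smul, zero_smul] at h1
      have hpT : p ∈ T := ⟨by rw [h1]; simpa using hr.le, by rw [h1]; simp⟩
      have := hl1 hpT
      simp only [Pi.one_apply] at this
      rw [hz] at this
      exact zero_ne_one this
    · by_cases ho : l p = 1
      · rw [ho] at h1
        simp only [sub_self, zero_smul, one_smul] at h1
        rw [← h1] at he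
        simp at he
      · have hl1' : 0 < 1 - l p := by
          have := hlp.2
          have : l p < 1 := lt_of_le_of_ne this ho
          linarith
        have hl0' : 0 < l p := lt_of_le_of_ne hlp.1 (Ne.symm hz)
        have h2 : g p - v = (l p / (1 - l p)) • e := by
          have := congrArg (fun z => (1 - l p)⁻¹ • z) h1
          simp only [smul_smul] at this
          rw [inv_mul_cancel₀ hl1'.ne', one_smul] at this
          rw [this]
          congr 1
          rw [div_eq_mul_inv, mul_comm]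
        have h3 : ‖g p - v‖ = l p / (1 - l p) := by
          rw [h2, norm_smul, he, mul_one, Real.norm_eq_abs, abs_of_pos (by positivity)]
        have hpA : p ∉ A := by
          intro hpA
          have := hl0 hpA
          exact hz this
        have hpT : p ∈ T := by
          refine ⟨(not_le.mp hpA).le, ?_⟩
          rw [h3]; exact h2
        have := hl1 hpT
        exact ho this
  · intro x
    have := hl0 (hAend x)
    simp only [Pi.zero_apply] at this
    simp [this]
  · intro x
    have := hl1 (hTend x)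
    simp only [Pi.one_apply] at this
    simp [this]

end geom

/-- clamp to the unit interval -/
noncomputable def cl (u : ℝ) : unitInterval := Set.projIcc (0 : ℝ) 1 zero_le_one u

lemma cl_cont : Continuous cl := continuous_projIcc (h := zero_le_one)

lemma cl_zero {u : ℝ} (h : u ≤ 0) : cl u = 0 := Set.projIcc_of_le_left zero_le_one h

lemma cl_one {u : ℝ} (h : 1 ≤ u) : cl u = 1 := Set.projIcc_of_right_le zero_le_one h

lemma cl_ne_one {u : ℝ} (h : u < 1) : cl u ≠ 1 := by
  intro h1
  have h2 := (Set.projIcc_eq_right (a := (0 : ℝ)) (b := 1) (x := u) zero_lt_one).mp h1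
  linarith

/-- The path of differences. -/
noncomputable def pathv {X : Type*} (g W : X × unitInterval → E3) (x y : X) (u : ℝ) : E3 :=
  (g (y, cl (-u)) - g (x, cl u)) + (W (y, cl (u - 1)) - W (y, 0)) -
    (W (x, cl (-u - 1)) - W (x, 0))

section path

variable {X : Type*} [TopologicalSpace X] (g W : X × unitInterval → E3)

lemma pathv_cont (hg : Continuous g) (hW : Continuous W) :
    Continuous fun q : (X × X) × ℝ => pathv g W q.1.1 q.1.2 q.2 := by
  unfold pathv
  have := cl_cont
  fun_prop

lemma pathv_anti (x y : X) (u : ℝ) : pathv g W y x (-u) = - pathv g W x y u := by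
  unfold pathv
  rw [neg_neg]
  abel

lemma pathv_right (v : E3) (hv : ∀ x, g (x, 1) = v) (h0 : ∀ x, W (x, 0) = g (x, 0) - v)
    (x y : X) {u : ℝ} (hu : 1 ≤ u) : pathv g W x y u = W (y, cl (u - 1)) := by
  unfold pathv
  rw [cl_one hu, cl_zero (show -u ≤ 0 by linarith), cl_zero (show -u - 1 ≤ 0 by linarith), hv, h0]
  abel

lemma pathv_ne (hinj : ∀ p q, g p = g q ↔ (p = q ∨ (p.2 = 1 ∧ q.2 = 1))) (v : E3)
    (hv : ∀ x, g (x, 1) = v) (h0 : ∀ x, W (x, 0) = g (x, 0) - v) (hW : ∀ p, W p ≠ 0)
    {x y : X} (hxy : x ≠ y) (u : ℝ) : pathv g W x y u ≠ 0 := by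
  rcases le_or_gt 1 u with hu | hu
  · rw [pathv_right g W v hv h0 x y hu]
    exact hW _
  · rcases le_or_gt 1 (-u) with hu' | hu'
    · have := pathv_anti g W x y u
      rw [pathv_right g W v hv h0 y x hu'] at this
      intro h
      rw [h, neg_zero] at this
      exact hW _ this
    · unfold pathv
      rw [cl_zero (show u - 1 ≤ 0 by linarith), cl_zero (show -u - 1 ≤ 0 by linarith)]
      simp only [sub_self, add_zero, sub_zero]
      rw [sub_ne_zero]
      intro h
      rw [hinj] at h
      rcases h with h | h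
      · exact hxy (congrArg Prod.fst h).symm
      · exact cl_ne_one hu h.2

end path

/-- The deleted product. -/
abbrev DP (X : Type*) := {q : X × X // q.1 ≠ q.2}

/-- The deleted product theorem. -/
theorem deleted_product {X : Type*} [TopologicalSpace X] [CompactSpace X]
    [TopologicalSpace.MetrizableSpace X] (g : X × unitInterval → E3) (hg : Continuous g)
    (hinj : ∀ p q, g p = g q ↔ (p = q ∨ (p.2 = 1 ∧ q.2 = 1))) :
    (∃ s : Metric.sphere (0 : E3) 1 → X, Continuous s ∧ Function.Surjective s) ∨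
    ∃ F : X × X → ℂ, Continuous F ∧ (∀ x y, F (x, y) = 0 ↔ x = y) ∧
      ∀ x y, F (y, x) = - F (x, y) := by
  classical
  letI := TopologicalSpace.metrizableSpaceMetric X
  rcases isEmpty_or_nonempty X with hX | ⟨⟨x₀⟩⟩
  · right
    exact ⟨fun _ => 0, continuous_const, fun x => (IsEmpty.false x).elim,
      fun x => (IsEmpty.false x).elim⟩
  have hX : Nonempty X := ⟨x₀⟩
  obtain ⟨v, hv'⟩ : ∃ v, g (x₀, 1) = v := ⟨_, rfl⟩
  have hv : ∀ x, g (x, 1) = v := by
    intro x
    rw [← hv', hinj]
    right; exact ⟨rfl, rfl⟩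
  obtain ⟨r, hr, hr0⟩ := exists_radius g hg hinj v hv
  by_cases hall : ∀ e : E3, ‖e‖ = 1 → ∃ p, g p = v + r • e
  · left
    exact image_of_sphere g hg hinj v hv hr hr0 hall
  right
  push Not at hall
  obtain ⟨e, he, hmiss⟩ := hall
  obtain ⟨W, hWc, hWne, hW0, hW1⟩ := exists_field g hg v hv hr hr0 e he hmiss
  -- the isometry
  obtain ⟨R, hR⟩ : ∃ R : E3 ≃ₗᵢ[ℝ] E3, R e = ez :=
    ⟨Submodule.reflection (ℝ ∙ (e - ez))ᗮ, Submodule.reflection_sub (by rw [he, norm_ez])⟩
  let τ : DP X → DP X := fun z => ⟨(z.1.2, z.1.1), z.2.symm⟩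
  have hτ : Continuous τ := by
    apply Continuous.subtype_mk
    fun_prop
  let Ψ₀ : DP X × ℝ → E3 := fun p => pathv g W p.1.1.1 p.1.1.2 p.2
  have hΨ₀ : Continuous Ψ₀ :=
    (pathv_cont g W hg hWc).comp
      (f := fun p : DP X × ℝ => ((p.1.1, p.2) : (X × X) × ℝ)) (by fun_prop)
  have hΨ₀ne : ∀ p, Ψ₀ p ≠ 0 := fun p => pathv_ne g W hinj v hv hW0 hWne p.1.2 p.2
  have hΨ₀anti : ∀ z u, Ψ₀ (τ z, -u) = - Ψ₀ (z, u) := fun z u => pathv_anti g W _ _ u
  let Ψ : DP X × ℝ → E3 := fun p => R (‖Ψ₀ p‖⁻¹ • Ψ₀ p)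
  have hΨ : Continuous Ψ := by
    apply R.continuous.comp
    exact Continuous.fun_smul (hΨ₀.norm.inv₀ (fun p => norm_ne_zero_iff.mpr (hΨ₀ne p))) hΨ₀
  have hn : ∀ p, ‖Ψ p‖ = 1 := by
    intro p
    simp only [Ψ]
    rw [R.norm_map, norm_smul, norm_inv, norm_norm,
      inv_mul_cancel₀ (norm_ne_zero_iff.mpr (hΨ₀ne p))]
  have hanti : ∀ z u, Ψ (τ z, -u) = - Ψ (z, u) := by
    intro z u
    simp only [Ψ]
    rw [hΨ₀anti, norm_neg, smul_neg, map_neg]
  have hRr : ∀ z u, 2 ≤ u → Ψ (z, u) = - ez := by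
    intro z u hu
    have h1 : Ψ₀ (z, u) = -e := by
      simp only [Ψ₀]
      rw [pathv_right g W v hv hW0 _ _ (by linarith), cl_one (by linarith), hW1]
    simp only [Ψ]
    rw [h1, norm_neg, he, inv_one, one_smul, map_neg, hR]
  have hLl : ∀ z u, u ≤ -2 → Ψ (z, u) = ez := by
    intro z u hu
    have h1 := hanti (τ z) (-u)
    have h2 : τ (τ z) = z := rfl
    rw [h2, neg_neg, hRr (τ z) (-u) (by linarith), neg_neg] at h1
    exact h1
  obtain ⟨F, hFc, hF0, hFa⟩ := key τ hτ (fun z => rfl) Ψ hΨ hn hLl hRr hanti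
  let F' : X × X → ℂ := fun q =>
    if h : q.1 ≠ q.2 then ((dist q.1 q.2 : ℝ) / (‖F ⟨q, h⟩‖ : ℝ) : ℝ) * F ⟨q, h⟩ else 0
  have hF'norm : ∀ q, ‖F' q‖ = dist q.1 q.2 := by
    intro q
    by_cases h : q.1 ≠ q.2
    · simp only [F', dif_pos h]
      rw [norm_mul, Complex.norm_real, norm_div, norm_norm,
        div_mul_cancel₀ _ (norm_ne_zero_iff.mpr (hF0 _)), Real.norm_eq_abs,
        abs_of_nonneg dist_nonneg]
    · simp only [F', dif_neg h]
      push Not at h
      rw [norm_zero, h, dist_self]
  refine ⟨F', ?_, ?_, ?_⟩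
  · rw [continuous_iff_continuousAt]
    intro q
    by_cases h : q.1 ≠ q.2
    · have hopen : IsOpen {q : X × X | q.1 ≠ q.2} := isOpen_ne_fun continuous_fst continuous_snd
      have hemb : IsOpenEmbedding (Subtype.val : DP X → X × X) := hopen.isOpenEmbedding_subtypeVal
      have h1 : ContinuousAt (F' ∘ (Subtype.val : DP X → X × X)) ⟨q, h⟩ := by
        have : F' ∘ (Subtype.val : DP X → X × X) =
            fun z => (((dist z.1.1 z.1.2 : ℝ) / (‖F z‖ : ℝ) : ℝ) : ℂ) * F z := by
          funext z
          simp only [F', Function.comp]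
          rw [dif_pos z.2]
        rw [this]
        apply Continuous.continuousAt
        apply Continuous.mul _ hFc
        apply Complex.continuous_ofReal.comp
        apply Continuous.div
        · fun_prop
        · exact hFc.norm
        · exact fun z => norm_ne_zero_iff.mpr (hF0 z)
      exact (hemb.continuousAt_iff (g := F') (x := ⟨q, h⟩)).mp h1
    · push Not at h
      have h0 : F' q = 0 := by
        have := hF'norm q
        rw [h, dist_self, norm_eq_zero] at this
        exact this
      have : Tendsto (fun p : X × X => ‖F' p - F' q‖) (𝓝 q) (𝓝 0) := by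
        have h2 : (fun p : X × X => ‖F' p - F' q‖) = fun p => dist p.1 p.2 := by
          funext p
          rw [h0, sub_zero, hF'norm]
        rw [h2]
        have h3 : Continuous fun p : X × X => dist p.1 p.2 := by fun_prop
        have := h3.tendsto q
        rwa [h, dist_self] at this
      exact tendsto_iff_norm_sub_tendsto_zero.mpr this
  · intro x y
    rw [← norm_eq_zero, hF'norm]
    exact dist_eq_zero
  · intro x y
    by_cases h : x ≠ y
    · simp only [F']
      rw [dif_pos h, dif_pos h.symm]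
      have := hFa ⟨(x, y), h⟩
      have h2 : τ ⟨(x, y), h⟩ = ⟨(y, x), h.symm⟩ := rfl
      rw [h2] at this
      rw [this, norm_neg, dist_comm y x]
      ring
    · push Not at h
      subst h
      simp [F']

end Pool.Agent.Helper188_Cone
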