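import Pool.Agent.Helper188_Cone.Grid

/-! Eilenberg's theorem: nonvanishing functions on plane compacta are, up to an exponential,
products of powers of linear functions. -/

namespace Pool.Agent.Helper188_Cone

open Set Topology Filter Complex

lemma log_aux {x y z : ℂ} (hz : z ≠ 0) (hx : 0 < (x / z).re) (hy : 0 < (y / z).re) :
    Complex.log (y / x) + Complex.log (z / y) - Complex.log (z / x) = 0 := by
  have h1 : y / x = (y / z) / (x / z) := by rw [div_div_div_cancel_right₀ hz]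
  have h2 : z / y = (y / z)⁻¹ := by rw [inv_div]
  have h3 : z / x = (x / z)⁻¹ := by rw [inv_div]
  rw [h1, h2, h3, log_div_re hx hy, log_inv_re hx, log_inv_re hy]
  ring

lemma re_pos_of_near {x y : ℂ} (h : ‖y - x‖ < ‖x‖) : 0 < (y / x).re := by
  have hx : x ≠ 0 := by
    rintro rfl
    rw [norm_zero] at h
    exact absurd h (not_lt.mpr (norm_nonneg _))
  have h1 : ‖y / x - 1‖ < 1 := by
    have : y / x - 1 = (y - x) / x := by field_simp
    rw [this, norm_div, div_lt_one (norm_pos_iff.mpr hx)]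
    exact h
  have h2 := Complex.abs_re_le_norm (y / x - 1)
  have h3 := abs_lt.mp (lt_of_le_of_lt h2 h1)
  simp only [Complex.sub_re, Complex.one_re] at h3
  linarith [h3.1]

lemma norm_le_of_coord {x : ℂ} {a b : ℝ} (h1 : |x.re| ≤ a) (h2 : |x.im| ≤ b) : ‖x‖ ≤ a + b :=
  le_trans (Complex.norm_le_abs_re_add_abs_im x) (add_le_add h1 h2)

lemma norm_vtx_step_h (m n : ℕ) : ‖vtx (m + 1) n - vtx m n‖ ≤ 1 := by
  have : vtx (m + 1) n - vtx m n = 1 := by
    apply Complex.ext <;> simp [vtx]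
  rw [this]; simp

lemma norm_vtx_step_v (m n : ℕ) : ‖vtx m (n + 1) - vtx m n‖ ≤ 1 := by
  have : vtx m (n + 1) - vtx m n = Complex.I := by
    apply Complex.ext <;> simp [vtx]
  rw [this]; simp

lemma norm_ctr_vtx (m n : ℕ) : ‖ctr m n - vtx m n‖ ≤ 1 := by
  have : ctr m n - vtx m n = ⟨1/2, 1/2⟩ := by
    apply Complex.ext <;> simp [vtx, ctr]
  rw [this]
  have := norm_le_of_coord (x := ⟨1/2, 1/2⟩) (a := 1/2) (b := 1/2) (by norm_num [abs_of_pos])
    (by norm_num [abs_of_pos])
  linarith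

theorem scaled_eilenberg (K : Set ℂ) (Φ : ℂ → ℂ) (hΦ : ContinuousOn Φ K) (M : ℕ)
    (hKre : ∀ z ∈ K, 2 ≤ z.re ∧ z.re ≤ (M : ℝ) - 3) (hKim : ∀ z ∈ K, 2 ≤ z.im ∧ z.im ≤ (M : ℝ) - 3)
    (H1 : ∀ z ∈ K, ∀ z', ‖z' - z‖ ≤ 10 → 0 < (Φ z' / Φ z).re) :
    ∃ (w : ℕ × ℕ → ℤ) (h : ℂ → ℂ) (s : Finset (ℕ × ℕ)),
      (∀ c ∈ s, ∀ z ∈ K, z ≠ ctr c.1 c.2) ∧ ContinuousOn h K ∧
      ∀ z ∈ K, Φ z = (∏ c ∈ s, (z - ctr c.1 c.2) ^ (w c)) * Complex.exp (h z) := by
  classical
  have hΦ0 : ∀ z ∈ K, Φ z ≠ 0 := by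
    intro z hz h
    have := H1 z hz z (by simp)
    rw [h] at this
    simp at this
  let ψ : ℕ → ℕ → ℂ := fun m n => if Φ (vtx m n) = 0 then 1 else Φ (vtx m n)
  have hψ0 : ∀ m n, ψ m n ≠ 0 := by
    intro m n
    simp only [ψ]
    split_ifs with h
    · exact one_ne_zero
    · exact h
  have hψ : ∀ z ∈ K, ∀ m n, ‖vtx m n - z‖ ≤ 10 → 0 < (ψ m n / Φ z).re := by
    intro z hz m n h
    have h1 := H1 z hz _ h
    have h2 : Φ (vtx m n) ≠ 0 := by
      intro h0
      rw [h0] at h1
      simp at h1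
    simp only [ψ, if_neg h2]
    exact h1
  obtain ⟨w, H, hw, hHh, hHv⟩ := discrete_eilenberg ψ hψ0 M
  have hcurl : ∀ z ∈ K, ∀ m n, ‖vtx m n - z‖ ≤ 8 → w m n = 0 := by
    intro z hz m n h
    apply hw
    have d1 := norm_vtx_step_h m n
    have d2 := norm_vtx_step_v m n
    have d3 := norm_vtx_step_v (m + 1) n
    have t1 : ‖vtx (m + 1) n - z‖ ≤ 9 := by
      calc ‖vtx (m + 1) n - z‖ = ‖(vtx (m + 1) n - vtx m n) + (vtx m n - z)‖ := by congr 1; ring
        _ ≤ _ := norm_add_le _ _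
        _ ≤ 9 := by linarith
    have t2 : ‖vtx m (n + 1) - z‖ ≤ 9 := by
      calc ‖vtx m (n + 1) - z‖ = ‖(vtx m (n + 1) - vtx m n) + (vtx m n - z)‖ := by congr 1; ring
        _ ≤ _ := norm_add_le _ _
        _ ≤ 9 := by linarith
    have t3 : ‖vtx (m + 1) (n + 1) - z‖ ≤ 10 := by
      calc ‖vtx (m + 1) (n + 1) - z‖ =
            ‖(vtx (m + 1) (n + 1) - vtx (m + 1) n) + (vtx (m + 1) n - z)‖ := by congr 1; ring
        _ ≤ _ := norm_add_le _ _
        _ ≤ 10 := by linarith
    have cv : ∀ x : ℂ, (Φ z)⁻¹ * x = x / Φ z := fun x => by rw [div_eq_mul_inv, mul_comm]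
    apply curl_half (Φ z)⁻¹ (inv_ne_zero (hΦ0 z hz)) <;> rw [cv]
    · exact hψ z hz _ _ (by linarith)
    · exact hψ z hz _ _ (by linarith)
    · exact hψ z hz _ _ (by linarith)
    · exact hψ z hz _ _ t3
  have hfar : ∀ z ∈ K, ∀ k l, w k l ≠ 0 → 7 < ‖z - ctr k l‖ := by
    intro z hz k l hkl
    have h1 : 8 < ‖vtx k l - z‖ := by
      by_contra h
      exact hkl (hcurl z hz k l (not_lt.mp h))
    have h2 := norm_ctr_vtx k l
    have h3 : ‖vtx k l - z‖ ≤ ‖ctr k l - vtx k l‖ + ‖z - ctr k l‖ := by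
      calc ‖vtx k l - z‖ = ‖-((ctr k l - vtx k l) + (z - ctr k l))‖ := by congr 1; ring
        _ = ‖(ctr k l - vtx k l) + (z - ctr k l)‖ := norm_neg _
        _ ≤ _ := norm_add_le _ _
    linarith
  -- the relative position of vertices close to z
  have hrel : ∀ z ∈ K, ∀ k l, w k l ≠ 0 → ∀ m n, ‖vtx m n - z‖ ≤ 3 →
      0 < (rel k l m n / (z - ctr k l)).re := by
    intro z hz k l hkl m n hmn
    apply re_pos_of_near
    have h1 := hfar z hz k l hkl
    have : rel k l m n - (z - ctr k l) = vtx m n - z := by unfold rel; ring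
    rw [this]
    linarith
  have hrel' : ∀ z ∈ K, ∀ k l, w k l ≠ 0 → ∀ m n, ‖vtx m n - z‖ ≤ 3 →
      0 < ((z - ctr k l) / rel k l m n).re := by
    intro z hz k l hkl m n hmn
    have := inv_re_pos (hrel z hz k l hkl m n hmn)
    rwa [inv_div] at this
  have hψ' : ∀ z ∈ K, ∀ m n, ‖vtx m n - z‖ ≤ 10 → 0 < (Φ z / ψ m n).re := by
    intro z hz m n hmn
    have := inv_re_pos (hψ z hz m n hmn)
    rwa [inv_div] at this
  let T : ℂ → ℕ → ℕ → ℂ := fun z m n => H m n + Complex.log (Φ z / ψ m n) -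
    ∑ k ∈ Finset.range M, ∑ l ∈ Finset.range M,
      (w k l : ℂ) * Complex.log ((z - ctr k l) / rel k l m n)
  -- horizontal consistency
  have hTh : ∀ z ∈ K, ∀ m n, m < M → n ≤ M → ‖vtx m n - z‖ ≤ 3 → ‖vtx (m + 1) n - z‖ ≤ 3 →
      T z (m + 1) n = T z m n := by
    intro z hz m n hm hn h1 h2
    have e1 := hHh m n hm hn
    have e2 := log_aux (hΦ0 z hz) (hψ z hz m n (by linarith)) (hψ z hz (m + 1) n (by linarith))
    have e3 : ∑ k ∈ Finset.range M, ∑ l ∈ Finset.range M, (w k l : ℂ) * dh (rel k l) m n +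
        ∑ k ∈ Finset.range M, ∑ l ∈ Finset.range M,
          (w k l : ℂ) * Complex.log ((z - ctr k l) / rel k l (m + 1) n) -
        ∑ k ∈ Finset.range M, ∑ l ∈ Finset.range M,
          (w k l : ℂ) * Complex.log ((z - ctr k l) / rel k l m n) = 0 := by
      rw [← Finset.sum_add_distrib, ← Finset.sum_sub_distrib]
      apply Finset.sum_eq_zero
      intro k _
      rw [← Finset.sum_add_distrib, ← Finset.sum_sub_distrib]
      apply Finset.sum_eq_zero
      intro l _
      by_cases hkl : w k l = 0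
      · simp [hkl]
      · have hne : z - ctr k l ≠ 0 := by
          intro h0
          have := hfar z hz k l hkl
          rw [h0, norm_zero] at this
          linarith
        have := log_aux hne (hrel z hz k l hkl m n h1) (hrel z hz k l hkl (m + 1) n h2)
        unfold dh
        linear_combination (w k l : ℂ) * this
    simp only [T]
    unfold dh at e1 e3
    linear_combination e1 + e2 - e3
  have hTv : ∀ z ∈ K, ∀ m n, ‖vtx m n - z‖ ≤ 3 → ‖vtx m (n + 1) - z‖ ≤ 3 →
      T z m (n + 1) = T z m n := by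
    intro z hz m n h1 h2
    have e1 := hHv m n
    have e2 := log_aux (hΦ0 z hz) (hψ z hz m n (by linarith)) (hψ z hz m (n + 1) (by linarith))
    have e3 : ∑ k ∈ Finset.range M, ∑ l ∈ Finset.range M, (w k l : ℂ) * dv (rel k l) m n +
        ∑ k ∈ Finset.range M, ∑ l ∈ Finset.range M,
          (w k l : ℂ) * Complex.log ((z - ctr k l) / rel k l m (n + 1)) -
        ∑ k ∈ Finset.range M, ∑ l ∈ Finset.range M,
          (w k l : ℂ) * Complex.log ((z - ctr k l) / rel k l m n) = 0 := by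
      rw [← Finset.sum_add_distrib, ← Finset.sum_sub_distrib]
      apply Finset.sum_eq_zero
      intro k _
      rw [← Finset.sum_add_distrib, ← Finset.sum_sub_distrib]
      apply Finset.sum_eq_zero
      intro l _
      by_cases hkl : w k l = 0
      · simp [hkl]
      · have hne : z - ctr k l ≠ 0 := by
          intro h0
          have := hfar z hz k l hkl
          rw [h0, norm_zero] at this
          linarith
        have := log_aux hne (hrel z hz k l hkl m n h1) (hrel z hz k l hkl m (n + 1) h2)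
        unfold dv
        linear_combination (w k l : ℂ) * this
    simp only [T]
    unfold dv at e1 e3
    linear_combination e1 + e2 - e3
  -- closeness of vertices
  have hnear : ∀ (z : ℂ) (m n : ℕ), |(m : ℝ) - z.re| ≤ 3 / 2 → |(n : ℝ) - z.im| ≤ 3 / 2 →
      ‖vtx m n - z‖ ≤ 3 := by
    intro z m n h1 h2
    have := norm_le_of_coord (x := vtx m n - z) (a := 3 / 2) (b := 3 / 2)
      (by simpa [vtx] using h1) (by simpa [vtx] using h2)
    linarith
  have hbd : ∀ z ∈ K, ∀ m : ℕ, |(m : ℝ) - z.re| ≤ 3 / 2 → m < M := by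
    intro z hz m h
    have := (abs_le.mp h).2
    have h2 := (hKre z hz).2
    have : (m : ℝ) < M := by linarith
    exact_mod_cast this
  have hbd' : ∀ z ∈ K, ∀ m : ℕ, |(m : ℝ) - z.im| ≤ 3 / 2 → m < M := by
    intro z hz m h
    have := (abs_le.mp h).2
    have h2 := (hKim z hz).2
    have : (m : ℝ) < M := by linarith
    exact_mod_cast this
  have hTh2 : ∀ z ∈ K, ∀ m m' n : ℕ, |(m : ℝ) - z.re| ≤ 3 / 2 → |(m' : ℝ) - z.re| ≤ 3 / 2 →
      |(n : ℝ) - z.im| ≤ 3 / 2 → (m' ≤ m + 1 ∧ m ≤ m' + 1) → T z m' n = T z m n := by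
    intro z hz m m' n h1 h2 h3 h4
    have : m' = m ∨ m' = m + 1 ∨ m = m' + 1 := by omega
    rcases this with rfl | rfl | rfl
    · rfl
    · exact hTh z hz m n (hbd z hz m h1) (hbd' z hz n h3).le (hnear z m n h1 h3)
        (hnear z (m + 1) n h2 h3)
    · exact (hTh z hz m' n (hbd z hz m' h2) (hbd' z hz n h3).le (hnear z m' n h2 h3)
        (hnear z (m' + 1) n h1 h3)).symm
  have hTv2 : ∀ z ∈ K, ∀ m n n' : ℕ, |(m : ℝ) - z.re| ≤ 3 / 2 → |(n : ℝ) - z.im| ≤ 3 / 2 →
      |(n' : ℝ) - z.im| ≤ 3 / 2 → (n' ≤ n + 1 ∧ n ≤ n' + 1) → T z m n' = T z m n := by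
    intro z hz m n n' h1 h2 h3 h4
    have : n' = n ∨ n' = n + 1 ∨ n = n' + 1 := by omega
    rcases this with rfl | rfl | rfl
    · rfl
    · exact hTv z hz m n (hnear z m n h1 h2) (hnear z m (n + 1) h1 h3)
    · exact (hTv z hz m n' (hnear z m n' h1 h3) (hnear z m (n' + 1) h1 h2)).symm
  -- the local logarithm
  let h₀ : ℂ → ℂ := fun z => T z ⌊z.re⌋₊ ⌊z.im⌋₊
  have hfl : ∀ z ∈ K, |((⌊z.re⌋₊ : ℕ) : ℝ) - z.re| ≤ 1 ∧ |((⌊z.im⌋₊ : ℕ) : ℝ) - z.im| ≤ 1 := by
    intro z hz
    have a1 := Nat.floor_le (show 0 ≤ z.re by linarith [(hKre z hz).1])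
    have a2 := Nat.lt_floor_add_one z.re
    have b1 := Nat.floor_le (show 0 ≤ z.im by linarith [(hKim z hz).1])
    have b2 := Nat.lt_floor_add_one z.im
    constructor <;> rw [abs_le] <;> constructor <;> linarith
  have hcont : ContinuousOn h₀ K := by
    intro z₀ hz₀
    set m := ⌊z₀.re⌋₊ with hm
    set n := ⌊z₀.im⌋₊ with hn
    obtain ⟨f1, f2⟩ := hfl z₀ hz₀
    have hev : h₀ =ᶠ[𝓝[K] z₀] fun z => T z m n := by
      have h1 : ∀ᶠ z in 𝓝[K] z₀, ‖z - z₀‖ < 1 / 4 := by
        apply mem_nhdsWithin_of_mem_nhds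
        have : Metric.ball z₀ (1 / 4) ∈ 𝓝 z₀ := Metric.ball_mem_nhds _ (by norm_num)
        filter_upwards [this] with z hz
        rwa [Metric.mem_ball, dist_eq_norm] at hz
      filter_upwards [h1, self_mem_nhdsWithin] with z hz hzK
      have r1 := abs_le.mp (le_trans (Complex.abs_re_le_norm (z - z₀)) hz.le)
      have r2 := abs_le.mp (le_trans (Complex.abs_im_le_norm (z - z₀)) hz.le)
      simp only [Complex.sub_re, Complex.sub_im] at r1 r2
      obtain ⟨g1, g2⟩ := hfl z hzK
      have a1 : |(m : ℝ) - z.re| ≤ 3 / 2 := by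
        rw [abs_le] at f1 ⊢
        constructor <;> linarith [f1.1, f1.2, r1.1, r1.2]
      have a2 : |(n : ℝ) - z.im| ≤ 3 / 2 := by
        rw [abs_le] at f2 ⊢
        constructor <;> linarith [f2.1, f2.2, r2.1, r2.2]
      have p1 : 0 ≤ z.re := by linarith [(hKre z hzK).1]
      have p2 : 0 ≤ z.im := by linarith [(hKim z hzK).1]
      have q1 : 0 ≤ z₀.re := by linarith [(hKre z₀ hz₀).1]
      have q2 : 0 ≤ z₀.im := by linarith [(hKim z₀ hz₀).1]
      have c1 : ⌊z.re⌋₊ ≤ m + 1 := by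
        have := Nat.floor_le p1
        have h5 := Nat.lt_floor_add_one z₀.re
        have : ((⌊z.re⌋₊ : ℕ) : ℝ) < (m : ℝ) + 2 := by rw [hm]; linarith [r1.2]
        have : ⌊z.re⌋₊ < m + 2 := by exact_mod_cast this
        omega
      have c2 : m ≤ ⌊z.re⌋₊ + 1 := by
        have := Nat.floor_le q1
        have h5 := Nat.lt_floor_add_one z.re
        have : (m : ℝ) < ((⌊z.re⌋₊ : ℕ) : ℝ) + 2 := by rw [hm]; linarith [r1.1]
        have : m < ⌊z.re⌋₊ + 2 := by exact_mod_cast this
        omega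
      have c3 : ⌊z.im⌋₊ ≤ n + 1 := by
        have := Nat.floor_le p2
        have h5 := Nat.lt_floor_add_one z₀.im
        have : ((⌊z.im⌋₊ : ℕ) : ℝ) < (n : ℝ) + 2 := by rw [hn]; linarith [r2.2]
        have : ⌊z.im⌋₊ < n + 2 := by exact_mod_cast this
        omega
      have c4 : n ≤ ⌊z.im⌋₊ + 1 := by
        have := Nat.floor_le q2
        have h5 := Nat.lt_floor_add_one z.im
        have : (n : ℝ) < ((⌊z.im⌋₊ : ℕ) : ℝ) + 2 := by rw [hn]; linarith [r2.1]
        have : n < ⌊z.im⌋₊ + 2 := by exact_mod_cast this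
        omega
      have g1' : |((⌊z.re⌋₊ : ℕ) : ℝ) - z.re| ≤ 3 / 2 := by linarith
      have g2' : |((⌊z.im⌋₊ : ℕ) : ℝ) - z.im| ≤ 3 / 2 := by linarith
      show T z ⌊z.re⌋₊ ⌊z.im⌋₊ = T z m n
      rw [hTh2 z hzK m ⌊z.re⌋₊ ⌊z.im⌋₊ a1 g1' g2' ⟨c1, c2⟩,
        hTv2 z hzK m n ⌊z.im⌋₊ a1 a2 g2' ⟨c3, c4⟩]
    have hz0n : ‖vtx m n - z₀‖ ≤ 3 := hnear z₀ m n (by linarith) (by linarith)
    refine ContinuousWithinAt.congr_of_eventuallyEq ?_ hev rfl
    apply ContinuousWithinAt.sub
    · apply ContinuousWithinAt.add continuousWithinAt_const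
      apply ContinuousWithinAt.clog
      · exact (hΦ z₀ hz₀).div_const _
      · exact Or.inl (hψ' z₀ hz₀ m n (by linarith))
    · apply tendsto_finsetSum
      intro k _
      apply tendsto_finsetSum
      intro l _
      by_cases hkl : w k l = 0
      · simp only [hkl, Int.cast_zero, zero_mul]
        exact tendsto_const_nhds
      · apply ContinuousWithinAt.mul continuousWithinAt_const
        apply ContinuousWithinAt.clog
        · exact (continuousWithinAt_id.sub continuousWithinAt_const).div_const _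
        · exact Or.inl (hrel' z₀ hz₀ k l hkl m n hz0n)
  -- the multiplicative constant
  let E : ℕ → ℕ → ℂ := fun m n => Complex.exp (H m n) * (ψ m n)⁻¹ *
    ∏ k ∈ Finset.range M, ∏ l ∈ Finset.range M, (rel k l m n) ^ (w k l)
  have hexp : ∀ F : ℕ → ℕ → ℂ, Complex.exp (∑ k ∈ Finset.range M, ∑ l ∈ Finset.range M,
      (w k l : ℂ) * F k l) =
      ∏ k ∈ Finset.range M, ∏ l ∈ Finset.range M, (Complex.exp (F k l)) ^ (w k l) := by
    intro F
    rw [Complex.exp_sum]
    apply Finset.prod_congr rfl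
    intro k _
    rw [Complex.exp_sum]
    apply Finset.prod_congr rfl
    intro l _
    rw [← Complex.exp_int_mul]
  have hprodne : ∀ m n, ∏ k ∈ Finset.range M, ∏ l ∈ Finset.range M, (rel k l m n) ^ (w k l) ≠ 0 := by
    intro m n
    apply Finset.prod_ne_zero_iff.mpr
    intro k _
    apply Finset.prod_ne_zero_iff.mpr
    intro l _
    exact zpow_ne_zero _ (rel_ne k l m n)
  have hEh : ∀ m n, m < M → n ≤ M → E (m + 1) n = E m n := by
    intro m n hm hn
    have e1 : H (m + 1) n = H m n + dh ψ m n -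
        ∑ k ∈ Finset.range M, ∑ l ∈ Finset.range M, (w k l : ℂ) * dh (rel k l) m n := by
      have := hHh m n hm hn
      linear_combination this
    have e2 : ∏ k ∈ Finset.range M, ∏ l ∈ Finset.range M,
        (Complex.exp (dh (rel k l) m n)) ^ (w k l) =
        (∏ k ∈ Finset.range M, ∏ l ∈ Finset.range M, (rel k l (m + 1) n) ^ (w k l)) /
        (∏ k ∈ Finset.range M, ∏ l ∈ Finset.range M, (rel k l m n) ^ (w k l)) := by
      rw [← Finset.prod_div_distrib]
      apply Finset.prod_congr rfl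
      intro k _
      rw [← Finset.prod_div_distrib]
      apply Finset.prod_congr rfl
      intro l _
      rw [exp_dh (rel_ne k l), div_zpow]
    simp only [E]
    rw [e1, Complex.exp_sub, Complex.exp_add, exp_dh hψ0, hexp, e2]
    have n1 := hprodne m n
    have n2 := hprodne (m + 1) n
    have n3 := hψ0 m n
    have n4 := hψ0 (m + 1) n
    field_simp
  have hEv : ∀ m n, E m (n + 1) = E m n := by
    intro m n
    have e1 : H m (n + 1) = H m n + dv ψ m n -
        ∑ k ∈ Finset.range M, ∑ l ∈ Finset.range M, (w k l : ℂ) * dv (rel k l) m n := by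
      have := hHv m n
      linear_combination this
    have e2 : ∏ k ∈ Finset.range M, ∏ l ∈ Finset.range M,
        (Complex.exp (dv (rel k l) m n)) ^ (w k l) =
        (∏ k ∈ Finset.range M, ∏ l ∈ Finset.range M, (rel k l m (n + 1)) ^ (w k l)) /
        (∏ k ∈ Finset.range M, ∏ l ∈ Finset.range M, (rel k l m n) ^ (w k l)) := by
      rw [← Finset.prod_div_distrib]
      apply Finset.prod_congr rfl
      intro k _
      rw [← Finset.prod_div_distrib]
      apply Finset.prod_congr rfl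
      intro l _
      rw [exp_dv (rel_ne k l), div_zpow]
    simp only [E]
    rw [e1, Complex.exp_sub, Complex.exp_add, exp_dv hψ0, hexp, e2]
    have n1 := hprodne m n
    have n2 := hprodne m (n + 1)
    have n3 := hψ0 m n
    have n4 := hψ0 m (n + 1)
    field_simp
  have hE0 : ∀ m n, m ≤ M → n ≤ M → E m n = E 0 0 := by
    intro m n hm hn
    have h1 : ∀ m, m ≤ M → E m 0 = E 0 0 := by
      intro m
      induction m with
      | zero => intro _; rfl
      | succ m ih =>
        intro h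
        rw [hEh m 0 (by omega) (by omega), ih (by omega)]
    have h2 : ∀ n, E m n = E m 0 := by
      intro n
      induction n with
      | zero => rfl
      | succ n ih => rw [hEv, ih]
    rw [h2, h1 m hm]
  have hE00 : E 0 0 ≠ 0 := by
    simp only [E]
    exact mul_ne_zero (mul_ne_zero (Complex.exp_ne_zero _) (inv_ne_zero (hψ0 _ _))) (hprodne 0 0)
  refine ⟨fun c => w c.1 c.2, fun z => h₀ z + Complex.log (E 0 0)⁻¹,
    ((Finset.range M) ×ˢ (Finset.range M)).filter (fun c => w c.1 c.2 ≠ 0), ?_, ?_, ?_⟩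
  · intro c hc z hz h
    rw [Finset.mem_filter] at hc
    have := hfar z hz c.1 c.2 hc.2
    rw [h, sub_self, norm_zero] at this
    linarith
  · exact hcont.add continuousOn_const
  · intro z hz
    set m := ⌊z.re⌋₊ with hm
    set n := ⌊z.im⌋₊ with hn
    obtain ⟨f1, f2⟩ := hfl z hz
    have hmn : ‖vtx m n - z‖ ≤ 3 := hnear z m n (by linarith) (by linarith)
    have hmM : m < M := hbd z hz m (by linarith)
    have hnM : n < M := hbd' z hz n (by linarith)
    have e1 : ∏ c ∈ ((Finset.range M) ×ˢ (Finset.range M)).filter (fun c => w c.1 c.2 ≠ 0),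
        (z - ctr c.1 c.2) ^ (w c.1 c.2) =
        ∏ k ∈ Finset.range M, ∏ l ∈ Finset.range M, (z - ctr k l) ^ (w k l) := by
      rw [← Finset.prod_product', Finset.prod_filter]
      apply Finset.prod_congr rfl
      intro c _
      by_cases h : w c.1 c.2 = 0
      · simp [h]
      · simp [h]
    rw [e1]
    have e2 : Complex.exp (∑ k ∈ Finset.range M, ∑ l ∈ Finset.range M,
        (w k l : ℂ) * Complex.log ((z - ctr k l) / rel k l m n)) =
        (∏ k ∈ Finset.range M, ∏ l ∈ Finset.range M, (z - ctr k l) ^ (w k l)) /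
        (∏ k ∈ Finset.range M, ∏ l ∈ Finset.range M, (rel k l m n) ^ (w k l)) := by
      rw [hexp, ← Finset.prod_div_distrib]
      apply Finset.prod_congr rfl
      intro k _
      rw [← Finset.prod_div_distrib]
      apply Finset.prod_congr rfl
      intro l _
      by_cases hkl : w k l = 0
      · simp [hkl]
      · have hne : z - ctr k l ≠ 0 := by
          intro h0
          have := hfar z hz k l hkl
          rw [h0, norm_zero] at this
          linarith
        rw [Complex.exp_log (div_ne_zero hne (rel_ne _ _ _ _)), div_zpow]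
    have hprodne2 : ∏ k ∈ Finset.range M, ∏ l ∈ Finset.range M, (z - ctr k l) ^ (w k l) ≠ 0 := by
      apply Finset.prod_ne_zero_iff.mpr
      intro k _
      apply Finset.prod_ne_zero_iff.mpr
      intro l _
      by_cases hkl : w k l = 0
      · simp [hkl]
      · apply zpow_ne_zero
        intro h0
        have := hfar z hz k l hkl
        rw [h0, norm_zero] at this
        linarith
    have e3 : Complex.exp (h₀ z) = Complex.exp (H m n) * (Φ z / ψ m n) /
        ((∏ k ∈ Finset.range M, ∏ l ∈ Finset.range M, (z - ctr k l) ^ (w k l)) /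
        (∏ k ∈ Finset.range M, ∏ l ∈ Finset.range M, (rel k l m n) ^ (w k l))) := by
      show Complex.exp (T z m n) = _
      simp only [T]
      rw [Complex.exp_sub, Complex.exp_add, Complex.exp_log (div_ne_zero (hΦ0 z hz) (hψ0 _ _)), e2]
    have e4 := hE0 m n hmM.le hnM.le
    show Φ z = _ * Complex.exp (h₀ z + Complex.log (E 0 0)⁻¹)
    rw [Complex.exp_add, Complex.exp_log (inv_ne_zero hE00), e3, ← e4]
    simp only [E]
    have n1 := hprodne m n
    have n3 := hψ0 m n
    have n5 := Complex.exp_ne_zero (H m n)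
    field_simp

end Pool.Agent.Helper188_Cone
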