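import Pool.Agent.Helper188_Cone.Eilenberg

/-! Eilenberg's theorem, unscaled. -/

namespace Pool.Agent.Helper188_Cone

open Set Topology Filter Complex

lemma uniform_near (K : Set ℂ) (hK : IsCompact K) (Φ : ℂ → ℂ) (hΦ : Continuous Φ)
    (h0 : ∀ z ∈ K, Φ z ≠ 0) : ∃ δ > 0, ∀ z ∈ K, ∀ z', ‖z' - z‖ ≤ δ → 0 < (Φ z' / Φ z).re := by
  have h1 : ∀ z ∈ K, ∀ᶠ q : ℂ × ℂ in 𝓝 (0, z), 0 < (Φ (q.2 + q.1) / Φ q.2).re := by
    intro z hz
    have hc : ContinuousAt (fun q : ℂ × ℂ => (Φ (q.2 + q.1) / Φ q.2).re) (0, z) := by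
      apply Complex.continuous_re.continuousAt.comp
      apply ContinuousAt.div
      · exact (hΦ.comp (by fun_prop : Continuous fun q : ℂ × ℂ => q.2 + q.1)).continuousAt
      · exact (hΦ.comp continuous_snd).continuousAt
      · exact h0 z hz
    have hv : 0 < (Φ (z + 0) / Φ z).re := by
      rw [add_zero, div_self (h0 z hz)]; simp
    exact hc.eventually (lt_mem_nhds hv)
  have h2 := hK.eventually_forall_of_forall_eventually
    (P := fun w z : ℂ => 0 < (Φ (z + w) / Φ z).re) h1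
  rw [Metric.eventually_nhds_iff] at h2
  obtain ⟨ε, hε, h3⟩ := h2
  refine ⟨ε / 2, by positivity, fun z hz z' hzz' => ?_⟩
  have := h3 (y := z' - z) (by rw [dist_zero_right]; linarith) z hz
  simpa using this

/-- Eilenberg's theorem. -/
theorem eilenberg (K : Set ℂ) (hK : IsCompact K) (φ : ℂ → ℂ) (hφ : ContinuousOn φ K)
    (h0 : ∀ z ∈ K, φ z ≠ 0) :
    ∃ (s : Finset (ℕ × ℕ)) (a : ℕ × ℕ → ℂ) (w : ℕ × ℕ → ℤ) (h : ℂ → ℂ),
      (∀ c ∈ s, a c ∉ K) ∧ ContinuousOn h K ∧
      ∀ z ∈ K, φ z = (∏ c ∈ s, (z - a c) ^ (w c)) * Complex.exp (h z) := by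
  obtain ⟨Φ, hΦ⟩ := ContinuousMap.exists_restrict_eq hK.isClosed ⟨K.domRestrict φ, hφ.domRestrict⟩
  have hΦφ : ∀ z ∈ K, Φ z = φ z := fun z hz => congrFun (congrArg DFunLike.coe hΦ) ⟨z, hz⟩
  obtain ⟨δ, hδ, hnear⟩ := uniform_near K hK Φ Φ.continuous (fun z hz => by
    rw [hΦφ z hz]; exact h0 z hz)
  obtain ⟨R, hR⟩ := hK.isBounded.exists_norm_le
  set η := δ / 10 with hη
  have hηpos : 0 < η := by positivity
  obtain ⟨A, hA⟩ := exists_nat_ge (R / η + 2)
  set o : ℂ := ⟨(A : ℝ), (A : ℝ)⟩ with ho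
  -- the inverse scaling
  let u : ℂ → ℂ := fun z => (η : ℂ) * (z - o)
  have hη0 : (η : ℂ) ≠ 0 := by exact_mod_cast hηpos.ne'
  have hucont : Continuous u := by fun_prop
  let s' : ℂ → ℂ := fun z => z / η + o
  have hus : ∀ z, u (s' z) = z := by
    intro z; simp only [u, s']; field_simp; ring
  have hs'cont : Continuous s' := by fun_prop
  let K' : Set ℂ := u ⁻¹' K
  have hcoord : ∀ z ∈ K', |z.re - A| ≤ R / η ∧ |z.im - A| ≤ R / η := by
    intro z hz
    have h1 := hR (u z) hz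
    have h2 : ‖u z‖ = η * ‖z - o‖ := by
      simp only [u]
      rw [norm_mul, Complex.norm_real, Real.norm_eq_abs, abs_of_pos hηpos]
    rw [h2] at h1
    have h3 : ‖z - o‖ ≤ R / η := by
      rw [le_div_iff₀ hηpos]; linarith
    have h4 := Complex.abs_re_le_norm (z - o)
    have h5 := Complex.abs_im_le_norm (z - o)
    simp only [Complex.sub_re, Complex.sub_im, ho] at h4 h5
    exact ⟨le_trans h4 h3, le_trans h5 h3⟩
  obtain ⟨w, h, s, hs1, hs2, hs3⟩ := scaled_eilenberg K' (fun z => Φ (u z))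
    (Φ.continuous.comp hucont).continuousOn (2 * A + 1)
    (by
      intro z hz
      have := (hcoord z hz).1
      rw [abs_le] at this
      push_cast
      constructor <;> linarith [this.1, this.2])
    (by
      intro z hz
      have := (hcoord z hz).2
      rw [abs_le] at this
      push_cast
      constructor <;> linarith [this.1, this.2])
    (by
      intro z hz z' hzz'
      apply hnear (u z) hz (u z')
      have : u z' - u z = η * (z' - z) := by simp only [u]; ring
      rw [this, norm_mul, Complex.norm_real, Real.norm_eq_abs, abs_of_pos hηpos]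
      calc η * ‖z' - z‖ ≤ η * 10 := by gcongr
        _ = δ := by rw [hη]; ring)
  refine ⟨s, fun c => u (ctr c.1 c.2), w,
    fun z => h (s' z) + ∑ c ∈ s, (w c : ℂ) * Complex.log ((η : ℂ)⁻¹), ?_, ?_, ?_⟩
  · intro c hc hmem
    exact hs1 c hc (ctr c.1 c.2) hmem rfl
  · apply ContinuousOn.add
    · apply hs2.comp hs'cont.continuousOn
      intro z hz
      show u (s' z) ∈ K
      rw [hus]; exact hz
    · exact continuousOn_const
  · intro z hz
    have hz' : s' z ∈ K' := by
      show u (s' z) ∈ K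
      rw [hus]; exact hz
    have e1 := hs3 (s' z) hz'
    simp only [hus] at e1
    rw [← hΦφ z hz, e1, Complex.exp_add, Complex.exp_sum]
    have e2 : ∏ c ∈ s, (s' z - ctr c.1 c.2) ^ w c =
        (∏ c ∈ s, (z - u (ctr c.1 c.2)) ^ w c) *
        ∏ c ∈ s, Complex.exp ((w c : ℂ) * Complex.log ((η : ℂ)⁻¹)) := by
      rw [← Finset.prod_mul_distrib]
      apply Finset.prod_congr rfl
      intro c _
      rw [Complex.exp_int_mul, Complex.exp_log (inv_ne_zero hη0), ← mul_zpow]
      congr 1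
      simp only [s', u]
      field_simp
      ring
    rw [e2]
    ring

end Pool.Agent.Helper188_Cone
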