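import Pool.Agent.Helper188_Cone.Jordan

/-! The two dimensional Poincare-Miranda theorem and fine chains in a separating set. -/

namespace Pool.Agent.Helper188_Cone

open Set Topology Filter Complex

/-- clamp a real number to `[0, L]` -/
noncomputable def clp (L : ℝ) (s : ℝ) : ℝ := max 0 (min L s)

lemma clp_cont (L : ℝ) : Continuous (clp L) := by unfold clp; fun_prop

lemma clp_mem {L : ℝ} (hL : 0 < L) (s : ℝ) : 0 ≤ clp L s ∧ clp L s ≤ L := by
  unfold clp
  exact ⟨le_max_left _ _, max_le hL.le (min_le_left _ _)⟩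

lemma clp_neg {L : ℝ} (hL : 0 < L) {s : ℝ} (h : s < 0) : clp L s = 0 := by
  unfold clp
  rw [min_eq_right (by linarith), max_eq_left h.le]

lemma clp_big {L : ℝ} (hL : 0 < L) {s : ℝ} (h : L < s) : clp L s = L := by
  unfold clp
  rw [min_eq_left h.le, max_eq_right hL.le]

lemma clp_in {L : ℝ} {s : ℝ} (h0 : 0 ≤ s) (h1 : s ≤ L) : clp L s = s := by
  unfold clp
  rw [min_eq_right h1, max_eq_right h0]

theorem poincare_miranda {L : ℝ} (hL : 0 < L) (u v : ℝ × ℝ → ℝ) (hu : Continuous u)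
    (hv : Continuous v) (hb : ∀ s, 0 ≤ s → s ≤ L → 0 < u (s, 0))
    (ht : ∀ s, 0 ≤ s → s ≤ L → u (s, 1) < 0) (hl : ∀ t, 0 ≤ t → t ≤ 1 → v (0, t) < 0)
    (hr : ∀ t, 0 ≤ t → t ≤ 1 → 0 < v (L, t)) :
    ∃ s t, 0 ≤ s ∧ s ≤ L ∧ 0 ≤ t ∧ t ≤ 1 ∧ u (s, t) = 0 ∧ v (s, t) = 0 := by
  by_contra hcon
  push Not at hcon
  have c1 := clp_cont L
  have c2 := clp_cont 1
  let G : ℂ → ℂ := fun z =>
    ((v (clp L z.re, clp 1 z.im) + (z.re - clp L z.re) : ℝ) : ℂ) +
      ((u (clp L z.re, clp 1 z.im) - (z.im - clp 1 z.im) : ℝ) : ℂ) * Complex.I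
  have hG : Continuous G := by
    simp only [G]
    fun_prop
  have hGre : ∀ z, (G z).re = v (clp L z.re, clp 1 z.im) + (z.re - clp L z.re) := by
    intro z; simp [G]
  have hGim : ∀ z, (G z).im = u (clp L z.re, clp 1 z.im) - (z.im - clp 1 z.im) := by
    intro z; simp [G]
  have hG0 : ∀ z, G z ≠ 0 := by
    intro z h0
    have hre := congrArg Complex.re h0
    have him := congrArg Complex.im h0
    rw [hGre, Complex.zero_re] at hre
    rw [hGim, Complex.zero_im] at him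
    obtain ⟨a1, a2⟩ := clp_mem hL z.re
    obtain ⟨b1, b2⟩ := clp_mem one_pos z.im
    rcases lt_or_ge z.re 0 with h1 | h1
    · rw [clp_neg hL h1] at hre
      have := hl _ b1 b2
      linarith
    rcases lt_or_ge L z.re with h2 | h2
    · rw [clp_big hL h2] at hre
      have := hr _ b1 b2
      linarith
    rcases lt_or_ge z.im 0 with h3 | h3
    · rw [clp_neg one_pos h3] at him
      have := hb _ a1 a2
      linarith
    rcases lt_or_ge 1 z.im with h4 | h4
    · rw [clp_big one_pos h4] at him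
      have := ht _ a1 a2
      linarith
    rw [clp_in h1 h2, clp_in h3 h4] at hre him
    exact hcon z.re z.im h1 h2 h3 h4 (by linarith) (by linarith)
  have hlog := hasLog_plane G hG hG0
  -- bound
  obtain ⟨C, hC⟩ : ∃ C : ℝ, ∀ z, ‖G z - (starRingEnd ℂ) z‖ ≤ C := by
    have hcpt : IsCompact ((Icc (0 : ℝ) L) ×ˢ (Icc (0 : ℝ) 1)) := isCompact_Icc.prod isCompact_Icc
    let g' : ℝ × ℝ → ℂ := fun p => ((v p - p.1 : ℝ) : ℂ) + ((u p + p.2 : ℝ) : ℂ) * Complex.I
    have hg' : Continuous g' := by simp only [g']; fun_prop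
    obtain ⟨C, hC⟩ := (hcpt.image hg').isBounded.exists_norm_le
    refine ⟨C, fun z => ?_⟩
    have h1 : G z - (starRingEnd ℂ) z = g' (clp L z.re, clp 1 z.im) := by
      apply Complex.ext
      · rw [Complex.sub_re, hGre, Complex.conj_re]
        simp [g']
        ring
      · rw [Complex.sub_im, hGim, Complex.conj_im]
        simp [g']
        ring
    rw [h1]
    apply hC
    refine ⟨(clp L z.re, clp 1 z.im), ⟨?_, ?_⟩, rfl⟩
    · exact clp_mem hL z.re
    · exact clp_mem one_pos z.im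
  have hC0 : 0 ≤ C := le_trans (norm_nonneg _) (hC 0)
  set R : ℝ := C + 1 with hR
  have hRpos : 0 < R := by linarith
  have hconj : ∀ z : Circle, (starRingEnd ℂ) (z : ℂ) = ((z : ℂ))⁻¹ := by
    intro z
    rw [← Circle.coe_inv, Circle.coe_inv_eq_conj]
  have h1 : HasLog (fun z : Circle => G ((R : ℂ) * z)) := hlog.comp (by fun_prop)
  have h2 : HasLog (fun z : Circle => G ((R : ℂ) * z) / ((R : ℂ) * ((z : ℂ))⁻¹)) := by
    apply HasLog.of_re_pos
    · apply Continuous.div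
      · fun_prop
      · apply Continuous.mul continuous_const
        exact Continuous.inv₀ (by fun_prop) (fun z => Circle.coe_ne_zero z)
      · intro z
        apply mul_ne_zero
        · exact_mod_cast hRpos.ne'
        · exact inv_ne_zero (Circle.coe_ne_zero z)
    · intro z
      apply re_pos_of_near
      have h3 := hC ((R : ℂ) * z)
      rw [map_mul, Complex.conj_ofReal, hconj] at h3
      have h4 : ‖(R : ℂ) * ((z : ℂ))⁻¹‖ = R := by
        rw [norm_mul, norm_inv, Circle.norm_coe, inv_one, mul_one, Complex.norm_real,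
          Real.norm_eq_abs, abs_of_pos hRpos]
      rw [h4]
      linarith
  have h3 : HasLog (fun z : Circle => ((z : ℂ)) ^ (-1 : ℤ)) := by
    refine ((h1.mul h2.inv).mul (HasLog.const (c := (R : ℂ)⁻¹) ?_)).congr (fun z => ?_)
    · exact inv_ne_zero (by exact_mod_cast hRpos.ne')
    · have n1 := hG0 ((R : ℂ) * z)
      have n2 : (R : ℂ) ≠ 0 := by exact_mod_cast hRpos.ne'
      have n3 := Circle.coe_ne_zero z
      rw [zpow_neg_one]
      generalize G ((R : ℂ) * z) = g at *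
      field_simp
  have := degree_zero' (-1) h3
  omega

/-- A sequence from a reflexive transitive closure. -/
lemma exists_seq_of_rtg {α : Type*} {R : α → α → Prop} {a b : α} (h : Relation.ReflTransGen R a b) :
    ∃ (n : ℕ) (w : ℕ → α), w 0 = a ∧ w n = b ∧ ∀ i < n, R (w i) (w (i + 1)) := by
  induction h with
  | refl => exact ⟨0, fun _ => a, rfl, rfl, fun i hi => absurd hi (Nat.not_lt_zero i)⟩
  | @tail b c hab hbc ih =>
    obtain ⟨n, w, h0, hn, hs⟩ := ih
    refine ⟨n + 1, fun i => if i ≤ n then w i else c, ?_, ?_, ?_⟩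
    · simp [h0]
    · simp
    · intro i hi
      rcases Nat.lt_or_ge i n with h | h
      · show R (if i ≤ n then w i else c) (if i + 1 ≤ n then w (i + 1) else c)
        rw [if_pos h.le, if_pos (by omega)]
        exact hs i h
      · have : i = n := by omega
        subst this
        show R (if i ≤ i then w i else c) (if i + 1 ≤ i then w (i + 1) else c)
        rw [if_pos le_rfl, if_neg (by omega), hn]
        exact hbc

/-- Fine chains in the zero set. -/
theorem exists_chain {L : ℝ} (hL : 0 < L) (u : ℝ × ℝ → ℝ) (hu : Continuous u)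
    (hb : ∀ s, 0 ≤ s → s ≤ L → 0 < u (s, 0)) (ht : ∀ s, 0 ≤ s → s ≤ L → u (s, 1) < 0)
    (ε : ℝ) (hε : 0 < ε) :
    ∃ (n : ℕ) (z : ℕ → ℝ × ℝ), (z 0).1 = 0 ∧ (z n).1 = L ∧
      (∀ i ≤ n, 0 ≤ (z i).1 ∧ (z i).1 ≤ L ∧ 0 ≤ (z i).2 ∧ (z i).2 ≤ 1 ∧ u (z i) = 0) ∧
      ∀ i < n, dist (z i) (z (i + 1)) < ε := by
  classical
  let Rect : Set (ℝ × ℝ) := (Icc (0 : ℝ) L) ×ˢ (Icc (0 : ℝ) 1)
  have hRect : IsClosed Rect := isClosed_Icc.prod isClosed_Icc
  let Z : Set (ℝ × ℝ) := Rect ∩ {z | u z = 0}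
  have hZ : IsClosed Z := hRect.inter (isClosed_eq hu continuous_const)
  let R : ℝ × ℝ → ℝ × ℝ → Prop := fun z z' => z' ∈ Z ∧ dist z z' < ε
  let Reach : ℝ × ℝ → Prop := fun z => ∃ z₀ ∈ Z, z₀.1 = 0 ∧ Relation.ReflTransGen R z₀ z
  by_cases hex : ∃ z ∈ Z, z.1 = L ∧ Reach z
  · obtain ⟨z, hz, hzL, z₀, hz₀, hz₀0, hch⟩ := hex
    obtain ⟨n, w, h0, hn, hs⟩ := exists_seq_of_rtg hch
    have hwZ : ∀ i ≤ n, w i ∈ Z := by
      intro i hi
      rcases Nat.eq_zero_or_pos i with h | h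
      · rw [h, h0]; exact hz₀
      · have := (hs (i - 1) (by omega)).1
        rwa [show i - 1 + 1 = i by omega] at this
    refine ⟨n, w, by rw [h0, hz₀0], by rw [hn, hzL], ?_, ?_⟩
    · intro i hi
      obtain ⟨⟨h1, h2⟩, h3⟩ := hwZ i hi
      exact ⟨h1.1, h1.2, h2.1, h2.2, h3⟩
    · intro i hi
      exact (hs i hi).2
  exfalso
  push Not at hex
  let EL : Set (ℝ × ℝ) := {z | z ∈ Z ∧ Reach z}
  let ER : Set (ℝ × ℝ) := {z | z ∈ Z ∧ ¬ Reach z}
  have hext : ∀ z ∈ Z, ∀ z', Reach z' → dist z' z < ε → Reach z := by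
    rintro z hz z' ⟨z₀, hz₀, h0, hch⟩ hd
    exact ⟨z₀, hz₀, h0, hch.tail ⟨hz, hd⟩⟩
  have hEL : IsClosed EL := by
    rw [← isSeqClosed_iff_isClosed]
    intro x z hx hxz
    have hz : z ∈ Z := hZ.mem_of_tendsto hxz (Eventually.of_forall (fun n => (hx n).1))
    refine ⟨hz, ?_⟩
    obtain ⟨n, hn⟩ := (Metric.tendsto_atTop.mp hxz ε hε)
    exact hext z hz (x n) (hx n).2 (hn n le_rfl)
  have hER : IsClosed ER := by
    rw [← isSeqClosed_iff_isClosed]
    intro x z hx hxz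
    have hz : z ∈ Z := hZ.mem_of_tendsto hxz (Eventually.of_forall (fun n => (hx n).1))
    refine ⟨hz, fun hre => ?_⟩
    obtain ⟨n, hn⟩ := (Metric.tendsto_atTop.mp hxz ε hε)
    exact (hx n).2 (hext (x n) (hx n).1 z hre (by rw [dist_comm]; exact hn n le_rfl))
  let PL : Set (ℝ × ℝ) := EL ∪ (Rect ∩ {z | z.1 = 0})
  let PR : Set (ℝ × ℝ) := ER ∪ (Rect ∩ {z | z.1 = L})
  have hPL : IsClosed PL := hEL.union (hRect.inter (isClosed_eq continuous_fst continuous_const))
  have hPR : IsClosed PR := hER.union (hRect.inter (isClosed_eq continuous_fst continuous_const))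
  have hdisj : Disjoint PL PR := by
    rw [Set.disjoint_left]
    rintro z (h1 | h1) (h2 | h2)
    · exact h2.2 h1.2
    · exact hex z h1.1 h2.2 h1.2
    · exact h2.2 ⟨z, h2.1, h1.2, Relation.ReflTransGen.refl⟩
    · have e1 : z.1 = 0 := h1.2
      have e2 : z.1 = L := h2.2
      rw [e1] at e2
      linarith
  obtain ⟨f, hf0, hf1, -⟩ := exists_continuous_zero_one_of_isClosed hPL hPR hdisj
  obtain ⟨s, t, h1, h2, h3, h4, h5, h6⟩ := poincare_miranda hL u (fun z => 2 * f z - 1) hu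
    (by fun_prop) hb ht
    (by
      intro t ht0 ht1
      have : ((0 : ℝ), t) ∈ PL := Or.inr ⟨⟨⟨le_rfl, hL.le⟩, ⟨ht0, ht1⟩⟩, rfl⟩
      have := hf0 this
      simp only [Pi.zero_apply] at this
      rw [this]; norm_num)
    (by
      intro t ht0 ht1
      have : (L, t) ∈ PR := Or.inr ⟨⟨⟨hL.le, le_rfl⟩, ⟨ht0, ht1⟩⟩, rfl⟩
      have := hf1 this
      simp only [Pi.one_apply] at this
      rw [this]; norm_num)
  have hzZ : (s, t) ∈ Z := ⟨⟨⟨h1, h2⟩, ⟨h3, h4⟩⟩, h5⟩
  by_cases hre : Reach (s, t)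
  · have := hf0 (show (s, t) ∈ PL from Or.inl ⟨hzZ, hre⟩)
    simp only [Pi.zero_apply] at this
    rw [this] at h6
    norm_num at h6
  · have := hf1 (show (s, t) ∈ PR from Or.inl ⟨hzZ, hre⟩)
    simp only [Pi.one_apply] at this
    rw [this] at h6
    norm_num at h6

end Pool.Agent.Helper188_Cone
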