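import Pool.Agent.Helper188_Cone.Walk
import Pool.Agent.Helper188_Cone.Hex

/-! Suspension flows on spaces whose cone embeds have periodic orbits. -/

namespace Pool.Agent.Helper188_Cone

open Set Topology Filter Complex

lemma exists_common_dist {Y : Type*} [TopologicalSpace Y] [CompactSpace Y] (q : Y → ℂ)
    (hq : Continuous q) {ι : Type*} (s : Finset ι) (a : ι → ℂ) (ha : ∀ c ∈ s, a c ∉ range q) :
    ∃ ε > 0, ∀ c ∈ s, ∀ y, ε ≤ ‖q y - a c‖ := by
  classical
  induction s using Finset.induction_on with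
  | empty => exact ⟨1, one_pos, fun c hc => absurd hc (Finset.notMem_empty c)⟩
  | insert b s hb ih =>
    obtain ⟨ε, hε, h1⟩ := ih (fun c hc => ha c (Finset.mem_insert_of_mem hc))
    obtain ⟨ε', hε', h2⟩ := exists_ball_disjoint q hq (ha b (Finset.mem_insert_self b s))
    refine ⟨min ε ε', lt_min hε hε', fun c hc y => ?_⟩
    rcases Finset.mem_insert.mp hc with rfl | hc
    · exact le_trans (min_le_right _ _) (h2 y)
    · exact le_trans (min_le_left _ _) (h1 c hc y)

/-- On a compact metric space a positive lower bound on a closed set of pairs. -/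
lemma exists_lower {Y : Type*} [TopologicalSpace Y] [CompactSpace Y] (S : Set Y) (hS : IsClosed S)
    (F : Y → ℝ) (hF : Continuous F) (hpos : ∀ y ∈ S, 0 < F y) : ∃ ε > 0, ∀ y ∈ S, ε < F y := by
  rcases S.eq_empty_or_nonempty with h | h
  · exact ⟨1, one_pos, fun y hy => by rw [h] at hy; exact absurd hy (Set.notMem_empty y)⟩
  · obtain ⟨y, hy, hmin⟩ := hS.isCompact.exists_isMinOn h hF.continuousOn
    refine ⟨F y / 2, by have := hpos y hy; positivity, fun z hz => ?_⟩
    have h1 : F y ≤ F z := hmin hz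
    have h2 := hpos y hy
    linarith

theorem flow_main {X : Type*} [MetricSpace X] [CompactSpace X] [Nonempty X]
    (φ : Flow ℝ X) (f : C(X, Circle)) (hf : ∀ t x, f (φ t x) = Circle.exp (2 * Real.pi * t) * f x)
    (g : X × unitInterval → E3) (hg : Continuous g)
    (hinj : ∀ p q, g p = g q ↔ (p = q ∨ (p.2 = 1 ∧ q.2 = 1))) :
    ∃ x, ∃ T > 0, φ T x = x := by
  classical
  by_contra hcon
  push Not at hcon
  have hnp : ∀ x, ∀ T : ℝ, T ≠ 0 → φ T x ≠ x := by
    intro x T hT h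
    rcases lt_or_gt_of_ne hT with h1 | h1
    · apply hcon x (-T) (by linarith)
      calc φ (-T) x = φ (-T) (φ T x) := by rw [h]
        _ = φ (-T + T) x := (φ.map_add _ _ _).symm
        _ = x := by rw [neg_add_cancel, φ.map_zero_apply]
    · exact hcon x T h1 h
  have hφc : Continuous (fun p : ℝ × X => φ p.1 p.2) := φ.cont'
  obtain ⟨x₀⟩ := ‹Nonempty X›
  have hXne : Nonempty X := ⟨x₀⟩
  rcases planar_model g hg hinj with hall | ⟨ρ, r, q, hρ, hr0, hr1, hq, hqi⟩
  · -- f has a logarithm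
    obtain ⟨h, hc, hh⟩ := hall (fun x => (f x : ℂ)) (by fun_prop) (fun x => Circle.coe_ne_zero _)
    have hh' : ∀ x, ((f x : Circle) : ℂ) = Complex.exp (h x) := hh
    let D : ℝ → ℂ := fun t => h (φ t x₀) - h x₀ - ((2 * Real.pi * t : ℝ) : ℂ) * Complex.I
    have hD : Continuous D := by
      have h1 : Continuous (fun t : ℝ => φ t x₀) := hφc.comp (by fun_prop : Continuous fun t : ℝ => (t, x₀))
      simp only [D]
      fun_prop
    have hD1 : ∀ t, Complex.exp (D t) = 1 := by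
      intro t
      simp only [D]
      rw [Complex.exp_sub, Complex.exp_sub, ← hh', ← hh', hf t x₀, Circle.coe_mul, Circle.coe_exp]
      have n1 := Circle.coe_ne_zero (f x₀)
      have n2 := Complex.exp_ne_zero (((2 * Real.pi * t : ℝ) : ℂ) * Complex.I)
      field_simp
    obtain ⟨C, hC⟩ := (isCompact_range hc).isBounded.exists_norm_le
    have h2 := const_of_exp_one hD hD1 (C + 1) 0
    have h3 : D 0 = 0 := by simp [D, φ.map_zero_apply]
    rw [h3] at h2
    simp only [D] at h2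
    have h4 : h (φ (C + 1) x₀) - h x₀ = ((2 * Real.pi * (C + 1) : ℝ) : ℂ) * Complex.I :=
      sub_eq_zero.mp h2
    have h5 : ‖h (φ (C + 1) x₀) - h x₀‖ ≤ C + C :=
      le_trans (norm_sub_le _ _) (add_le_add (hC _ ⟨_, rfl⟩) (hC _ ⟨_, rfl⟩))
    have hC0 : 0 ≤ C := le_trans (norm_nonneg _) (hC _ ⟨x₀, rfl⟩)
    rw [h4, norm_mul, Complex.norm_I, mul_one, Complex.norm_real, Real.norm_eq_abs,
      abs_of_pos (by positivity)] at h5
    have := Real.pi_gt_three
    nlinarith
  have hcl : IsClosed {p : X × unitInterval | ρ p = r} := isClosed_eq hρ continuous_const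
  have hcpt : CompactSpace (Lev ρ r) := isCompact_iff_compactSpace.mp hcl.isCompact
  obtain ⟨s, a, w, h, ha, hc, hh⟩ := eilenberg' q hq hqi (fun y => (f y.1.1 : ℂ))
    (by fun_prop) (fun y => Circle.coe_ne_zero _)
  set B : ℝ := ∑ c ∈ s, |(w c : ℝ)| with hB
  have hB0 : 0 ≤ B := Finset.sum_nonneg (fun c _ => abs_nonneg _)
  set T₀ : ℝ := B + 2 with hT₀
  -- uniform aperiodicity
  obtain ⟨c₁, hc₁, hap⟩ : ∃ c₁ > 0, ∀ x : X, ∀ t : ℝ, 1 / 8 ≤ |t| → |t| ≤ 2 * T₀ →
      c₁ < dist (φ t x) x := by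
    let I := Icc (-(2 * T₀)) (2 * T₀)
    let S : Set (I × X) := {p | 1 / 8 ≤ |(p.1 : ℝ)|}
    have hS : IsClosed S := isClosed_le continuous_const (by fun_prop)
    have hFc : Continuous (fun p : I × X => dist (φ (p.1 : ℝ) p.2) p.2) := by
      have h1 : Continuous (fun p : I × X => φ (p.1 : ℝ) p.2) :=
        hφc.comp (by fun_prop : Continuous fun p : I × X => ((p.1 : ℝ), p.2))
      fun_prop
    obtain ⟨ε, hε, h1⟩ := exists_lower S hS _ hFc (by
      intro p hp
      rw [dist_pos]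
      apply hnp
      intro h0
      have : 1 / 8 ≤ |(p.1 : ℝ)| := hp
      rw [h0, abs_zero] at this
      norm_num at this)
    refine ⟨ε, hε, fun x t h2 h3 => ?_⟩
    exact h1 (⟨t, abs_le.mp h3⟩, x) h2
  -- closeness in the plane gives closeness in the cone
  obtain ⟨η, hη, hclose⟩ : ∃ η > 0, ∀ y y' : Lev ρ r, ‖q y - q y'‖ ≤ η →
      dist y.1.1 y'.1.1 < c₁ ∧ ‖h y - h y'‖ < 1 / 4 := by
    let S : Set (Lev ρ r × Lev ρ r) := {p | c₁ ≤ dist p.1.1.1 p.2.1.1} ∪
      {p | 1 / 4 ≤ ‖h p.1 - h p.2‖}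
    have hS : IsClosed S := by
      apply IsClosed.union
      · exact isClosed_le continuous_const (by fun_prop)
      · exact isClosed_le continuous_const (by fun_prop)
    obtain ⟨ε, hε, h1⟩ := exists_lower S hS (fun p => ‖q p.1 - q p.2‖) (by fun_prop) (by
      intro p hp
      rw [norm_pos_iff, sub_ne_zero]
      intro h0
      have h2 := hqi h0
      rcases hp with hp | hp
      · have hp' : c₁ ≤ dist p.1.1.1 p.2.1.1 := hp
        rw [h2, dist_self] at hp'
        linarith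
      · have hp' : 1 / 4 ≤ ‖h p.1 - h p.2‖ := hp
        rw [h2, sub_self, norm_zero] at hp'
        norm_num at hp')
    refine ⟨ε, hε, fun y y' hyy => ?_⟩
    by_contra hne
    rw [not_and_or, not_lt, not_lt] at hne
    have : (y, y') ∈ S := by
      rcases hne with h3 | h3
      · exact Or.inl h3
      · exact Or.inr h3
    exact absurd (h1 (y, y') this) (not_lt.mpr hyy)
  obtain ⟨c₀, hc₀, hdist⟩ := exists_common_dist q hq s a ha
  set μ : ℝ := min (η / 6) (c₀ / (100 * (B + 1))) with hμ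
  have hμpos : 0 < μ := lt_min (by positivity) (by positivity)
  have hμ0 : (μ : ℂ) ≠ 0 := by exact_mod_cast hμpos.ne'
  have hμη : 6 * μ ≤ η := by
    have : μ ≤ η / 6 := min_le_left _ _
    linarith
  have hμc : 100 * (B + 1) ≤ c₀ / μ := by
    have h1 : μ ≤ c₀ / (100 * (B + 1)) := min_le_right _ _
    rw [le_div_iff₀ hμpos]
    rw [le_div_iff₀ (by positivity)] at h1
    linarith
  -- scaled data
  let q' : Lev ρ r → ℂ := fun y => q y / μ
  have hq' : Continuous q' := by fun_prop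
  have hq'norm : ∀ y y', ‖q' y - q' y'‖ = ‖q y - q y'‖ / μ := by
    intro y y'
    simp only [q']
    rw [← sub_div, norm_div, Complex.norm_real, Real.norm_eq_abs, abs_of_pos hμpos]
  let h' : Lev ρ r → ℂ := fun y => h y + ∑ c ∈ s, (w c : ℂ) * Complex.log (μ : ℂ)
  have hh' : ∀ y : Lev ρ r, ((f y.1.1 : Circle) : ℂ) =
      (∏ c ∈ s, (q' y - a c / μ) ^ (w c)) * Complex.exp (h' y) := by
    intro y
    have h1 : ((f y.1.1 : Circle) : ℂ) = _ := hh y
    simp only [q', h']
    rw [h1, Complex.exp_add, Complex.exp_sum]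
    have h2 : ∏ c ∈ s, (q y - a c) ^ (w c) = (∏ c ∈ s, (q y / μ - a c / μ) ^ (w c)) *
        ∏ c ∈ s, Complex.exp ((w c : ℂ) * Complex.log (μ : ℂ)) := by
      rw [← Finset.prod_mul_distrib]
      apply Finset.prod_congr rfl
      intro c _
      rw [Complex.exp_int_mul, Complex.exp_log hμ0, ← mul_zpow]
      congr 1
      field_simp
    rw [h2]
    ring
  obtain ⟨R, hR⟩ : ∃ R : ℝ, ∀ y, ‖q' y‖ ≤ R := by
    obtain ⟨R, hR⟩ := (isCompact_range hq').isBounded.exists_norm_le
    exact ⟨R, fun y => hR _ ⟨y, rfl⟩⟩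
  -- number of lattice points
  obtain ⟨M, hM⟩ := exists_nat_ge (R + 2)
  let F : Finset (ℤ × ℤ) := Finset.Icc (-(M : ℤ)) M ×ˢ Finset.Icc (-(M : ℤ)) M
  let cell : ℂ → ℤ × ℤ := fun z => (⌊z.re⌋, ⌊z.im⌋)
  have hcell : ∀ y, cell (q' y) ∈ F := by
    intro y
    have h1 := abs_le.mp (le_trans (Complex.abs_re_le_norm (q' y)) (hR y))
    have h2 := abs_le.mp (le_trans (Complex.abs_im_le_norm (q' y)) (hR y))
    have key : ∀ x : ℝ, -R ≤ x → x ≤ R → ⌊x⌋ ∈ Finset.Icc (-(M : ℤ)) M := by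
      intro x hx1 hx2
      rw [Finset.mem_Icc]
      have a1 := Int.floor_le x
      have a2 := Int.lt_floor_add_one x
      constructor
      · have : (-(M : ℝ)) ≤ ⌊x⌋ := by linarith
        exact_mod_cast this
      · have : (⌊x⌋ : ℝ) ≤ M := by linarith
        exact_mod_cast this
    exact Finset.mem_product.mpr ⟨key _ h1.1 h1.2, key _ h2.1 h2.2⟩
  set N := F.card with hN
  set L : ℝ := 3 * T₀ * (N + 1) with hL
  have hT₀pos : 2 ≤ T₀ := by rw [hT₀]; linarith
  have hLpos : 0 < L := by positivity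
  -- the strip
  let ℓ : ℝ × ℝ → X × unitInterval := fun z => (φ z.1 x₀, cl z.2)
  have hℓ : Continuous ℓ := by
    have h1 : Continuous (fun z : ℝ × ℝ => φ z.1 x₀) :=
      hφc.comp (by fun_prop : Continuous fun z : ℝ × ℝ => (z.1, x₀))
    exact h1.prodMk (cl_cont.comp continuous_snd)
  let u : ℝ × ℝ → ℝ := fun z => ρ (ℓ z) - r
  have hu : Continuous u := by fun_prop
  let Z : Set (ℝ × ℝ) := ((Icc (0 : ℝ) L) ×ˢ (Icc (0 : ℝ) 1)) ∩ {z | u z = 0}
  have hZcpt : IsCompact Z := (isCompact_Icc.prod isCompact_Icc).inter_right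
    (isClosed_eq hu continuous_const)
  have hZc : CompactSpace Z := isCompact_iff_compactSpace.mp hZcpt
  let yy : Z → Lev ρ r := fun z => ⟨ℓ z.1, by
    have : u z.1 = 0 := z.2.2
    simp only [u] at this
    linarith⟩
  have hyy : Continuous yy := by
    apply Continuous.subtype_mk
    fun_prop
  have huc : UniformContinuous (fun z : Z => (q' (yy z), h (yy z))) :=
    CompactSpace.uniformContinuous_of_continuous (by fun_prop)
  obtain ⟨ε, hε, huc'⟩ := Metric.uniformContinuous_iff.mp huc (1 / 4) (by norm_num)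
  obtain ⟨n, z, hz0, hzn, hzm, hzd⟩ := exists_chain hLpos u hu
    (by
      intro t _ _
      simp only [u, ℓ]
      rw [cl_zero le_rfl]
      have := hr0 (φ t x₀)
      linarith)
    (by
      intro t _ _
      simp only [u, ℓ]
      rw [cl_one le_rfl]
      have := hr1 (φ t x₀)
      linarith)
    (min ε (1 / 10)) (lt_min hε (by norm_num))
  have hzZ : ∀ i ≤ n, z i ∈ Z := by
    intro i hi
    obtain ⟨h1, h2, h3, h4, h5⟩ := hzm i hi
    exact ⟨⟨⟨h1, h2⟩, ⟨h3, h4⟩⟩, h5⟩
  let zz : ℕ → Z := fun i => if hi : i ≤ n then ⟨z i, hzZ i hi⟩ else ⟨z 0, hzZ 0 (Nat.zero_le n)⟩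
  have hzz : ∀ i, i ≤ n → (zz i).1 = z i := by
    intro i hi; simp only [zz, dif_pos hi]
  have hdd : ∀ i < n, dist (zz i) (zz (i + 1)) < min ε (1 / 10) := by
    intro i hi
    rw [Subtype.dist_eq, hzz i hi.le, hzz (i + 1) (by omega)]
    exact hzd i hi
  let σ : ℕ → ℝ := fun i => (zz i).1.1
  let p : ℕ → ℂ := fun i => q' (yy (zz i))
  let hη' : ℕ → ℂ := fun i => h' (yy (zz i))
  have hxi : ∀ i, (yy (zz i)).1.1 = φ (σ i) x₀ := fun i => rfl
  -- steps
  have hsteps : ∀ i < n, ‖p (i + 1) - p i‖ < 1 / 4 ∧ ‖h (yy (zz (i + 1))) - h (yy (zz i))‖ < 1 / 4 := by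
    intro i hi
    have h1 := huc' (lt_of_lt_of_le (hdd i hi) (min_le_left _ _))
    rw [Prod.dist_eq, max_lt_iff, dist_comm, dist_eq_norm, dist_comm, dist_eq_norm] at h1
    exact h1
  have hσstep : ∀ i < n, |σ (i + 1) - σ i| < 1 / 10 := by
    intro i hi
    have h1 := lt_of_lt_of_le (hdd i hi) (min_le_right _ _)
    rw [Subtype.dist_eq, Prod.dist_eq, max_lt_iff] at h1
    have h2 := h1.1
    rw [dist_comm, Real.dist_eq] at h2
    exact h2
  -- discrete intermediate values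
  have hivt : ∀ τ : ℝ, 0 ≤ τ → τ ≤ L → ∃ i ≤ n, |σ i - τ| < 1 / 10 := by
    intro τ h0 h1
    have hex : ∃ i, i ≤ n ∧ τ ≤ σ i := ⟨n, le_rfl, by
      simp only [σ]; rw [hzz n le_rfl, hzn]; exact h1⟩
    obtain ⟨h2, h3⟩ := Nat.find_spec hex
    refine ⟨Nat.find hex, h2, ?_⟩
    rcases Nat.eq_zero_or_pos (Nat.find hex) with h4 | h4
    · rw [h4] at h3 ⊢
      have h5 : σ 0 = 0 := by simp only [σ]; rw [hzz 0 (Nat.zero_le n), hz0]
      rw [h5] at h3 ⊢
      have : τ = 0 := le_antisymm h3 h0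
      rw [this]; norm_num
    · have h5 := Nat.find_min hex (m := Nat.find hex - 1) (by omega)
      rw [not_and, not_le] at h5
      have h6 := h5 (by omega)
      have h7 := hσstep (Nat.find hex - 1) (by omega)
      rw [show Nat.find hex - 1 + 1 = Nat.find hex by omega] at h7
      have h8 := abs_lt.mp h7
      rw [abs_lt]
      constructor <;> linarith [h8.1, h8.2]
  -- pigeonhole
  obtain ⟨i, j, hij, hjn, hcellij, hσij⟩ : ∃ i j, i < j ∧ j ≤ n ∧
      cell (p i) = cell (p j) ∧ 1 / 8 ≤ |σ i - σ j| := by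
    have h1 : ∀ k : Fin (N + 1), ∃ i ≤ n, |σ i - 3 * T₀ * (k : ℕ)| < 1 / 10 := by
      intro k
      apply hivt
      · positivity
      · rw [hL]
        apply mul_le_mul_of_nonneg_left _ (by positivity)
        have : ((k : ℕ) : ℝ) ≤ N := by exact_mod_cast Nat.lt_succ_iff.mp k.2
        linarith
    choose idx hidx hidx' using h1
    have hmaps : ∀ k ∈ (Finset.univ : Finset (Fin (N + 1))), cell (p (idx k)) ∈ F :=
      fun k _ => hcell _
    obtain ⟨k, -, l, -, hkl, hcc⟩ := Finset.exists_ne_map_eq_of_card_lt_of_maps_to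
      (s := (Finset.univ : Finset (Fin (N + 1)))) (t := F) (by simp [hN]) hmaps
    have hbig : 1 / 8 ≤ |σ (idx k) - σ (idx l)| := by
      have e1 : (1 : ℝ) ≤ |((k : ℕ) : ℝ) - ((l : ℕ) : ℝ)| := by
        have : ((k : ℕ) : ℤ) ≠ ((l : ℕ) : ℤ) := by
          intro h; apply hkl; apply Fin.ext; exact_mod_cast h
        have h2 : 1 ≤ |((k : ℕ) : ℤ) - ((l : ℕ) : ℤ)| := Int.one_le_abs (sub_ne_zero.mpr this)
        have h3 : ((1 : ℤ) : ℝ) ≤ ((|((k : ℕ) : ℤ) - ((l : ℕ) : ℤ)| : ℤ) : ℝ) := by exact_mod_cast h2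
        push_cast at h3
        exact h3
      have e2 := hidx' k
      have e3 := hidx' l
      have e4 : 3 * T₀ * |((k : ℕ) : ℝ) - ((l : ℕ) : ℝ)| ≤ |σ (idx k) - σ (idx l)| +
          (|σ (idx k) - 3 * T₀ * (k : ℕ)| + |σ (idx l) - 3 * T₀ * (l : ℕ)|) := by
        have e5 : 3 * T₀ * (((k : ℕ) : ℝ) - ((l : ℕ) : ℝ)) = (σ (idx k) - σ (idx l)) -
            ((σ (idx k) - 3 * T₀ * (k : ℕ)) - (σ (idx l) - 3 * T₀ * (l : ℕ))) := by ring
        calc 3 * T₀ * |((k : ℕ) : ℝ) - ((l : ℕ) : ℝ)| =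
              |3 * T₀ * (((k : ℕ) : ℝ) - ((l : ℕ) : ℝ))| := by
                rw [abs_mul, abs_of_pos (show 0 < 3 * T₀ by positivity)]
          _ ≤ |σ (idx k) - σ (idx l)| +
              |(σ (idx k) - 3 * T₀ * (k : ℕ)) - (σ (idx l) - 3 * T₀ * (l : ℕ))| := by
                rw [e5]; exact abs_sub _ _
          _ ≤ _ := by gcongr; exact abs_sub _ _
      nlinarith
    rcases lt_trichotomy (idx k) (idx l) with h2 | h2 | h2
    · exact ⟨idx k, idx l, h2, hidx l, hcc, hbig⟩
    · exfalso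
      rw [h2, sub_self, abs_zero] at hbig
      norm_num at hbig
    · exact ⟨idx l, idx k, h2, hidx k, hcc.symm, by rw [abs_sub_comm]; exact hbig⟩
  -- conclusion
  refine no_long_chain s (fun c => a c / μ) w n p σ hη' B hB ?_ ?_ hσstep ?_
    ((f x₀ : Circle) : ℂ) (Circle.coe_ne_zero _) ?_ ?_ ⟨i, j, hij, hjn, ?_, hσij⟩
  · intro i _ c hc
    have h1 := hdist c hc (yy (zz i))
    have h2 : p i - a c / μ = (q (yy (zz i)) - a c) / μ := by
      simp only [p, q']; ring
    rw [h2, norm_div, Complex.norm_real, Real.norm_eq_abs, abs_of_pos hμpos]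
    refine le_trans hμc ?_
    gcongr
  · intro i hi
    have := (hsteps i hi).1
    linarith
  · intro i hi
    have h1 := (hsteps i hi).2
    have h2 : hη' (i + 1) - hη' i = h (yy (zz (i + 1))) - h (yy (zz i)) := by
      simp only [hη', h']; ring
    rw [h2]
    exact h1
  · intro i _
    have h1 := hh' (yy (zz i))
    rw [hxi i, hf (σ i) x₀, Circle.coe_mul, Circle.coe_exp] at h1
    push_cast at h1
    exact h1
  · intro i _ j _ hpp
    have h1 : ‖q (yy (zz i)) - q (yy (zz j))‖ ≤ η := by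
      have h2 := hq'norm (yy (zz i)) (yy (zz j))
      have h3 : ‖q (yy (zz i)) - q (yy (zz j))‖ / μ ≤ 6 := by rw [← h2]; exact hpp
      rw [div_le_iff₀ hμpos] at h3
      linarith
    obtain ⟨h2, h3⟩ := hclose _ _ h1
    constructor
    · have h4 : hη' i - hη' j = h (yy (zz i)) - h (yy (zz j)) := by
        simp only [hη', h']; ring
      rw [h4]
      exact h3.le
    · by_contra hne
      rw [not_or, not_lt, not_lt] at hne
      have h4 := hap (φ (σ j) x₀) (σ i - σ j) hne.1 hne.2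
      rw [← φ.map_add, sub_add_cancel] at h4
      rw [hxi i, hxi j] at h2
      linarith
  · have e1 : (2 * i + 1) / 2 = i := by omega
    have e2 : 2 * i / 2 = i := by omega
    have e3 : (2 * j + 1) / 2 = j := by omega
    have e4 : 2 * j / 2 = j := by omega
    unfold lw
    rw [e1, e2, e3, e4]
    exact hcellij

end Pool.Agent.Helper188_Cone
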