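import Mathlib

/-! Subgroups of free abelian groups are free. -/

namespace Pool.Agent.Helper188_Cone

theorem free_sub {B : Type*} (N : Submodule ℤ (B →₀ ℤ)) : Module.Free ℤ N := by
  classical
  obtain ⟨_, hwf⟩ := exists_wellFoundedLT B
  -- elements supported below b
  let Nb : B → Submodule ℤ (B →₀ ℤ) := fun b =>
    { carrier := {m | m ∈ N ∧ ∀ c, b < c → m c = 0}
      add_mem' := by
        rintro x y ⟨hx, hx'⟩ ⟨hy, hy'⟩
        exact ⟨N.add_mem hx hy, fun c hc => by rw [Finsupp.add_apply, hx' c hc, hy' c hc, add_zero]⟩
      zero_mem' := ⟨N.zero_mem, fun c _ => rfl⟩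
      smul_mem' := by
        rintro k x ⟨hx, hx'⟩
        exact ⟨N.smul_mem k hx, fun c hc => by rw [Finsupp.smul_apply, hx' c hc, smul_zero]⟩ }
  let Ib : B → Submodule ℤ ℤ := fun b => (Nb b).map (Finsupp.lapply b)
  let n : B → ℤ := fun b => Submodule.IsPrincipal.generator (Ib b)
  have hn : ∀ b, n b ∈ Ib b := fun b => Submodule.IsPrincipal.generator_mem _
  have hdiv : ∀ b, ∀ m ∈ Nb b, n b ∣ m b := by
    intro b m hm
    have : m b ∈ Ib b := ⟨m, hm, rfl⟩
    rw [← Submodule.IsPrincipal.span_singleton_generator (Ib b), Submodule.mem_span_singleton] at this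
    obtain ⟨k, hk⟩ := this
    exact ⟨k, by rw [← hk, smul_eq_mul, mul_comm]⟩
  choose e he hen using fun b => hn b
  have hen' : ∀ b, e b b = n b := hen
  let J := {b : B // n b ≠ 0}
  let v : J → N := fun b => ⟨e b.1, (he b.1).1⟩
  have hli : LinearIndependent ℤ v := by
    rw [linearIndependent_iff']
    intro s c hsum i hi
    by_contra hne
    set t := s.filter (fun j => c j ≠ 0) with ht
    have htne : t.Nonempty := ⟨i, Finset.mem_filter.mpr ⟨hi, hne⟩⟩
    obtain ⟨b, hbt, hbmax⟩ := t.exists_max_image (fun j => j.1) htne
    have h1 : (∑ j ∈ s, c j • v j : N).1 b.1 = 0 := by rw [hsum]; rfl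
    have h2 : (∑ j ∈ s, c j • v j : N).1 b.1 = c b * n b.1 := by
      rw [Submodule.coe_sum, Finsupp.finsetSum_apply]
      rw [Finset.sum_eq_single b]
      · show (c b • e b.1) b.1 = _
        rw [Finsupp.smul_apply, hen', smul_eq_mul]
      · intro j hj hjb
        show (c j • e j.1) b.1 = 0
        rw [Finsupp.smul_apply]
        by_cases hcj : c j = 0
        · rw [hcj, zero_smul]
        · have hjt : j ∈ t := Finset.mem_filter.mpr ⟨hj, hcj⟩
          have hlt : j.1 < b.1 := lt_of_le_of_ne (hbmax j hjt) (fun h => hjb (Subtype.ext h))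
          rw [(he j.1).2 b.1 hlt, smul_zero]
      · intro h
        exact absurd (Finset.mem_filter.mp hbt).1 h
    rw [h2] at h1
    rcases mul_eq_zero.mp h1 with h3 | h3
    · exact (Finset.mem_filter.mp hbt).2 h3
    · exact b.2 h3
  have hspan : ∀ b : B, ∀ m : N, (∀ c, b < c → m.1 c = 0) → m ∈ Submodule.span ℤ (Set.range v) := by
    intro b
    induction b using WellFoundedLT.induction with
    | ind b ih =>
      have case0 : ∀ m : N, (∀ c, b < c → m.1 c = 0) → m.1 b = 0 →
          m ∈ Submodule.span ℤ (Set.range v) := by
        intro m hm hmb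
        by_cases hm0 : m = 0
        · rw [hm0]; exact Submodule.zero_mem _
        · have hsupp : m.1.support.Nonempty := by
            rw [Finsupp.support_nonempty_iff]
            intro h
            exact hm0 (Subtype.ext h)
          obtain ⟨b', hb', hmax⟩ := m.1.support.exists_max_image id hsupp
          have hlt : b' < b := by
            rcases lt_trichotomy b' b with h | h | h
            · exact h
            · exact absurd (h ▸ hmb) (Finsupp.mem_support_iff.mp hb')
            · exact absurd (hm b' h) (Finsupp.mem_support_iff.mp hb')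
          apply ih b' hlt m
          intro c hc
          by_contra hne
          exact absurd (hmax c (Finsupp.mem_support_iff.mpr hne)) (not_le.mpr hc)
      intro m hm
      obtain ⟨k, hk⟩ := hdiv b m.1 ⟨m.2, hm⟩
      by_cases hnb : n b = 0
      · exact case0 m hm (by rw [hk, hnb, zero_mul])
      · have h1 : m - k • v ⟨b, hnb⟩ ∈ Submodule.span ℤ (Set.range v) := by
          apply case0
          · intro c hc
            show (m.1 - k • e b) c = 0
            rw [Finsupp.sub_apply, Finsupp.smul_apply, hm c hc, (he b).2 c hc, smul_zero, sub_zero]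
          · show (m.1 - k • e b) b = 0
            rw [Finsupp.sub_apply, Finsupp.smul_apply, hen', hk, smul_eq_mul]
            ring
        have h2 : k • v ⟨b, hnb⟩ ∈ Submodule.span ℤ (Set.range v) :=
          Submodule.smul_mem _ _ (Submodule.subset_span ⟨_, rfl⟩)
        have := Submodule.add_mem _ h1 h2
        rwa [sub_add_cancel] at this
  have htop : ⊤ ≤ Submodule.span ℤ (Set.range v) := by
    intro m _
    by_cases hm0 : m = 0
    · rw [hm0]; exact Submodule.zero_mem _
    · have hsupp : m.1.support.Nonempty := by
        rw [Finsupp.support_nonempty_iff]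
        intro h
        exact hm0 (Subtype.ext h)
      obtain ⟨b', hb', hmax⟩ := m.1.support.exists_max_image id hsupp
      apply hspan b' m
      intro c hc
      by_contra hne
      exact absurd (hmax c (Finsupp.mem_support_iff.mpr hne)) (not_le.mpr hc)
  exact Module.Free.of_basis (Module.Basis.mk hli htop)

theorem free_of_injective {B M : Type*} [AddCommGroup M] (T : M →+ (B →₀ ℤ))
    (hT : Function.Injective T) : Module.Free ℤ M := by
  have h1 := free_sub (LinearMap.range T.toIntLinearMap)
  exact Module.Free.of_equiv (LinearEquiv.ofInjective T.toIntLinearMap hT).symm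

/-- A commutative group mapping to a free abelian group: the quotient by the kernel is free. -/
theorem free_quotient {B G : Type*} [CommGroup G] (T : G →* Multiplicative (B →₀ ℤ))
    (N : Subgroup G) (hN : ∀ f, f ∈ N ↔ T f = 1) : Module.Free ℤ (Additive (G ⧸ N)) := by
  have hker : N = T.ker := by
    ext f; rw [hN]; rfl
  subst hker
  let T' : Additive (G ⧸ T.ker) →+ (B →₀ ℤ) := MonoidHom.toAdditiveLeft (QuotientGroup.kerLift T)
  apply free_of_injective T'
  intro x y h
  exact QuotientGroup.kerLift_injective T h

end Pool.Agent.Helper188_Cone
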