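import Mathlib

/-! Discrete logarithmic one-cochains on the square grid. -/

namespace Pool.Agent.Helper188_Cone

open Set Topology Filter Complex

lemma log_mul_re {x y : ℂ} (hx : 0 < x.re) (hy : 0 < y.re) :
    Complex.log (x * y) = Complex.log x + Complex.log y := by
  have hx0 : x ≠ 0 := by rintro rfl; simp at hx
  have hy0 : y ≠ 0 := by rintro rfl; simp at hy
  rw [Complex.log_mul_eq_add_log_iff hx0 hy0]
  have h1 := abs_lt.mp (Complex.abs_arg_lt_pi_div_two_iff.mpr (Or.inl hx))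
  have h2 := abs_lt.mp (Complex.abs_arg_lt_pi_div_two_iff.mpr (Or.inl hy))
  constructor
  · linarith [h1.1, h2.1]
  · linarith [h1.2, h2.2]

lemma log_inv_re {x : ℂ} (hx : 0 < x.re) : Complex.log x⁻¹ = - Complex.log x := by
  apply Complex.log_inv
  have h1 := abs_lt.mp (Complex.abs_arg_lt_pi_div_two_iff.mpr (Or.inl hx))
  intro h
  have := Real.pi_pos
  linarith [h1.2]

lemma inv_re_pos {x : ℂ} (hx : 0 < x.re) : 0 < (x⁻¹).re := by
  have hx0 : x ≠ 0 := by rintro rfl; simp at hx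
  rw [Complex.inv_re]
  exact div_pos hx (Complex.normSq_pos.mpr hx0)

lemma log_div_re {x y : ℂ} (hx : 0 < x.re) (hy : 0 < y.re) :
    Complex.log (y / x) = Complex.log y - Complex.log x := by
  rw [div_eq_mul_inv, log_mul_re hy (inv_re_pos hx), log_inv_re hx]
  ring

/-- horizontal increment -/
noncomputable def dh (ψ : ℕ → ℕ → ℂ) (m n : ℕ) : ℂ := Complex.log (ψ (m + 1) n / ψ m n)

/-- vertical increment -/
noncomputable def dv (ψ : ℕ → ℕ → ℂ) (m n : ℕ) : ℂ := Complex.log (ψ m (n + 1) / ψ m n)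

/-- the sum of increments around a square -/
noncomputable def curl (ψ : ℕ → ℕ → ℂ) (m n : ℕ) : ℂ :=
  dh ψ m n + dv ψ (m + 1) n - dh ψ m (n + 1) - dv ψ m n

lemma exp_dh {ψ : ℕ → ℕ → ℂ} (h0 : ∀ m n, ψ m n ≠ 0) (m n : ℕ) :
    Complex.exp (dh ψ m n) = ψ (m + 1) n / ψ m n :=
  Complex.exp_log (div_ne_zero (h0 _ _) (h0 _ _))

lemma exp_dv {ψ : ℕ → ℕ → ℂ} (h0 : ∀ m n, ψ m n ≠ 0) (m n : ℕ) :
    Complex.exp (dv ψ m n) = ψ m (n + 1) / ψ m n :=
  Complex.exp_log (div_ne_zero (h0 _ _) (h0 _ _))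

lemma curl_int {ψ : ℕ → ℕ → ℂ} (h0 : ∀ m n, ψ m n ≠ 0) (m n : ℕ) :
    ∃ w : ℤ, curl ψ m n = w * (2 * Real.pi * Complex.I) := by
  rw [← Complex.exp_eq_one_iff]
  unfold curl
  rw [Complex.exp_sub, Complex.exp_sub, Complex.exp_add, exp_dh h0, exp_dv h0, exp_dh h0, exp_dv h0]
  have h1 := h0 m n
  have h2 := h0 (m + 1) n
  have h3 := h0 m (n + 1)
  have h4 := h0 (m + 1) (n + 1)
  field_simp

/-- If the four corners lie in a common open half plane then the curl vanishes. -/
lemma curl_half {ψ : ℕ → ℕ → ℂ} {m n : ℕ} (u : ℂ) (hu : u ≠ 0)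
    (h1 : 0 < (u * ψ m n).re) (h2 : 0 < (u * ψ (m + 1) n).re)
    (h3 : 0 < (u * ψ m (n + 1)).re) (h4 : 0 < (u * ψ (m + 1) (n + 1)).re) :
    curl ψ m n = 0 := by
  have key : ∀ x y : ℂ, 0 < (u * x).re → 0 < (u * y).re →
      Complex.log (y / x) = Complex.log (u * y) - Complex.log (u * x) := by
    intro x y hx hy
    rw [← log_div_re hx hy, mul_div_mul_left _ _ hu]
  unfold curl dh dv
  rw [key _ _ h1 h2, key _ _ h2 h4, key _ _ h3 h4, key _ _ h1 h3]
  ring

/-- vertex of the grid -/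
noncomputable def vtx (m n : ℕ) : ℂ := ⟨(m : ℝ), (n : ℝ)⟩

/-- centre of a square -/
noncomputable def ctr (k l : ℕ) : ℂ := ⟨(k : ℝ) + 1 / 2, (l : ℝ) + 1 / 2⟩

/-- vertex relative to a centre -/
noncomputable def rel (k l m n : ℕ) : ℂ := vtx m n - ctr k l

lemma rel_re (k l m n : ℕ) : (rel k l m n).re = (m : ℝ) - k - 1 / 2 := by
  simp [rel, vtx, ctr]; ring

lemma rel_im (k l m n : ℕ) : (rel k l m n).im = (n : ℝ) - l - 1 / 2 := by
  simp [rel, vtx, ctr]; ring

lemma rel_ne (k l m n : ℕ) : rel k l m n ≠ 0 := by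
  intro h
  have h1 := rel_re k l m n
  rw [h] at h1
  simp only [Complex.zero_re] at h1
  have h2 : (2 * (m : ℝ)) = 2 * k + 1 := by linarith
  have h3 : 2 * m = 2 * k + 1 := by exact_mod_cast h2
  omega

lemma curl_rel_ne (k l m n : ℕ) (h : ¬ (m = k ∧ n = l)) : curl (rel k l) m n = 0 := by
  rcases lt_trichotomy m k with hm | hm | hm
  · have : (m : ℝ) + 1 ≤ k := by exact_mod_cast hm
    apply curl_half (-1) (by norm_num) <;>
    · simp only [neg_one_mul, Complex.neg_re, rel_re]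
      push_cast
      linarith
  · rcases lt_trichotomy n l with hn | hn | hn
    · have : (n : ℝ) + 1 ≤ l := by exact_mod_cast hn
      apply curl_half (Complex.I) (Complex.I_ne_zero) <;>
      · simp only [Complex.I_mul_re, rel_im]
        push_cast
        linarith
    · exact absurd ⟨hm, hn⟩ h
    · have : (l : ℝ) + 1 ≤ n := by exact_mod_cast hn
      apply curl_half (-Complex.I) (neg_ne_zero.mpr Complex.I_ne_zero) <;>
      · rw [neg_mul, Complex.neg_re, Complex.I_mul_re, rel_im]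
        push_cast
        linarith
  · have : (k : ℝ) + 1 ≤ m := by exact_mod_cast hm
    apply curl_half 1 (by norm_num) <;>
    · simp only [one_mul, rel_re]
      push_cast
      linarith

lemma curl_rel_self (k l : ℕ) : curl (rel k l) k l = 2 * Real.pi * Complex.I := by
  have e00 : rel k l k l = ⟨-(1/2), -(1/2)⟩ := by
    apply Complex.ext
    · rw [rel_re]; simp
    · rw [rel_im]; simp
  have e10 : rel k l (k+1) l = ⟨1/2, -(1/2)⟩ := by
    apply Complex.ext
    · rw [rel_re]; push_cast; ring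
    · rw [rel_im]; simp
  have e01 : rel k l k (l+1) = ⟨-(1/2), 1/2⟩ := by
    apply Complex.ext
    · rw [rel_re]; simp
    · rw [rel_im]; push_cast; ring
  have e11 : rel k l (k+1) (l+1) = ⟨1/2, 1/2⟩ := by
    apply Complex.ext
    · rw [rel_re]; push_cast; ring
    · rw [rel_im]; push_cast; ring
  have n00 := rel_ne k l k l
  have n10 := rel_ne k l (k+1) l
  have n01 := rel_ne k l k (l+1)
  have r1 : rel k l (k+1) l / rel k l k l = Complex.I := by
    rw [div_eq_iff n00, e00, e10]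
    apply Complex.ext <;> simp
  have r2 : rel k l (k+1) (l+1) / rel k l (k+1) l = Complex.I := by
    rw [div_eq_iff n10, e11, e10]
    apply Complex.ext <;> simp
  have r3 : rel k l (k+1) (l+1) / rel k l k (l+1) = -Complex.I := by
    rw [div_eq_iff n01, e11, e01]
    apply Complex.ext <;> simp
  have r4 : rel k l k (l+1) / rel k l k l = -Complex.I := by
    rw [div_eq_iff n00, e01, e00]
    apply Complex.ext <;> simp
  unfold curl dh dv
  rw [r1, r2, r3, r4, Complex.log_I, Complex.log_neg_I]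
  ring

/-- Potential of a closed cochain. -/
noncomputable def pot (f g : ℕ → ℕ → ℂ) (m n : ℕ) : ℂ :=
  ∑ i ∈ Finset.range m, f i 0 + ∑ j ∈ Finset.range n, g m j

lemma pot_v (f g : ℕ → ℕ → ℂ) (m n : ℕ) : pot f g m (n + 1) - pot f g m n = g m n := by
  unfold pot
  rw [Finset.sum_range_succ]
  ring

lemma pot_h (f g : ℕ → ℕ → ℂ) (M : ℕ)
    (hc : ∀ m < M, ∀ n < M, f m n + g (m + 1) n - f m (n + 1) - g m n = 0)
    (m n : ℕ) (hm : m < M) (hn : n ≤ M) : pot f g (m + 1) n - pot f g m n = f m n := by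
  unfold pot
  rw [Finset.sum_range_succ]
  have h1 : ∑ j ∈ Finset.range n, g (m + 1) j - ∑ j ∈ Finset.range n, g m j = f m n - f m 0 := by
    rw [← Finset.sum_sub_distrib]
    have : ∀ j ∈ Finset.range n, g (m + 1) j - g m j = f m (j + 1) - f m j := by
      intro j hj
      have := hc m hm j (lt_of_lt_of_le (Finset.mem_range.mp hj) hn)
      linear_combination this
    rw [Finset.sum_congr rfl this, Finset.sum_range_sub]
  linear_combination h1

/-- The discrete form of Eilenberg's theorem. -/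
theorem discrete_eilenberg (ψ : ℕ → ℕ → ℂ) (h0 : ∀ m n, ψ m n ≠ 0) (M : ℕ) :
    ∃ (w : ℕ → ℕ → ℤ) (H : ℕ → ℕ → ℂ),
      (∀ m n, curl ψ m n = 0 → w m n = 0) ∧
      (∀ m n, m < M → n ≤ M → H (m + 1) n - H m n = dh ψ m n -
        ∑ k ∈ Finset.range M, ∑ l ∈ Finset.range M, (w k l : ℂ) * dh (rel k l) m n) ∧
      (∀ m n, H m (n + 1) - H m n = dv ψ m n -
        ∑ k ∈ Finset.range M, ∑ l ∈ Finset.range M, (w k l : ℂ) * dv (rel k l) m n) := by
  choose w hw using curl_int h0
  have h2pi : (2 * Real.pi * Complex.I : ℂ) ≠ 0 := by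
    simp [Real.pi_ne_zero, Complex.I_ne_zero]
  let f : ℕ → ℕ → ℂ := fun m n => dh ψ m n -
        ∑ k ∈ Finset.range M, ∑ l ∈ Finset.range M, (w k l : ℂ) * dh (rel k l) m n
  let g : ℕ → ℕ → ℂ := fun m n => dv ψ m n -
        ∑ k ∈ Finset.range M, ∑ l ∈ Finset.range M, (w k l : ℂ) * dv (rel k l) m n
  have hc : ∀ m < M, ∀ n < M, f m n + g (m + 1) n - f m (n + 1) - g m n = 0 := by
    intro m hm n hn
    have h1 : f m n + g (m + 1) n - f m (n + 1) - g m n = curl ψ m n -
        ∑ k ∈ Finset.range M, ∑ l ∈ Finset.range M, (w k l : ℂ) * curl (rel k l) m n := by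
      simp only [f, g, curl, mul_sub, mul_add, Finset.sum_sub_distrib, Finset.sum_add_distrib]
      ring
    rw [h1]
    have h2 : ∑ k ∈ Finset.range M, ∑ l ∈ Finset.range M, (w k l : ℂ) * curl (rel k l) m n =
        (w m n : ℂ) * (2 * Real.pi * Complex.I) := by
      rw [Finset.sum_eq_single m]
      · rw [Finset.sum_eq_single n]
        · rw [curl_rel_self]
        · intro l _ hl
          rw [curl_rel_ne m l m n (by tauto), mul_zero]
        · intro h; exact absurd (Finset.mem_range.mpr hn) h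
      · intro k _ hk
        apply Finset.sum_eq_zero
        intro l _
        rw [curl_rel_ne k l m n (by tauto), mul_zero]
      · intro h; exact absurd (Finset.mem_range.mpr hm) h
    rw [h2, hw, sub_self]
  refine ⟨w, pot f g, ?_, ?_, ?_⟩
  · intro m n h
    rw [hw] at h
    have := (mul_eq_zero.mp h).resolve_right h2pi
    exact_mod_cast this
  · intro m n hm hn
    exact pot_h f g M hc m n hm hn
  · intro m n
    exact pot_v f g m n

end Pool.Agent.Helper188_Cone
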