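import Pool.Agent.Helper188_Cone.Model

/-! The index homomorphism of a plane compactum. -/

namespace Pool.Agent.Helper188_Cone

open Set Topology Filter Complex

set_option linter.unusedSectionVars false

section index

variable {Y : Type*} [TopologicalSpace Y] [CompactSpace Y] (q : Y → ℂ)

open Classical in
/-- pick `n` if the point lies in the set -/
noncomputable def pick (ω : Set ℂ) (z : ℂ) (n : ℤ) : ℤ := if z ∈ ω then n else 0

lemma pick_neg (ω : Set ℂ) (z : ℂ) (n : ℤ) : pick ω z (-n) = - pick ω z n := by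
  unfold pick; split_ifs <;> simp

/-- A representation of a nonvanishing function by a divisor. -/
def Rep (φ : Y → ℂ) {ι : Type*} (s : Finset ι) (a : ι → ℂ) (w : ι → ℤ) : Prop :=
  (∀ c ∈ s, a c ∉ range q) ∧ ∃ h : Y → ℂ, Continuous h ∧
    ∀ y, φ y = (∏ c ∈ s, (q y - a c) ^ (w c)) * Complex.exp (h y)

variable {q}

open Classical in
lemma rep_log {ι : Type*} [DecidableEq ι] (hq : Continuous q) (hinj : Function.Injective q)
    {φ : Y → ℂ} {s : Finset ι} {a : ι → ℂ} {w : ι → ℤ} (hr : Rep q φ s a w) (hlog : HasLog φ)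
    {a₀ : ℂ} (ha₀ : a₀ ∉ range q)
    (hb : Bornology.IsBounded (connectedComponentIn (range q)ᶜ a₀)) :
    ∑ c ∈ s, pick (connectedComponentIn (range q)ᶜ a₀) (a c) (w c) = 0 := by
  obtain ⟨h1, h, hc, hh⟩ := hr
  have h2 : HasLog (fun y => ∏ c ∈ s, (q y - a c) ^ (w c)) := by
    have h3 : HasLog (fun y => Complex.exp (h y)) := ⟨h, hc, fun _ => rfl⟩
    refine (hlog.mul h3.inv).congr (fun y => ?_)
    rw [hh y]
    have := Complex.exp_ne_zero (h y)
    field_simp
  have := borsuk_index q hq hinj s a w h1 h2 ha₀ hb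
  rw [Finset.sum_filter] at this
  unfold pick
  exact this

lemma Rep.mul {ι ι' : Type*} {φ φ' : Y → ℂ} {s : Finset ι} {a : ι → ℂ} {w : ι → ℤ}
    {s' : Finset ι'} {a' : ι' → ℂ} {w' : ι' → ℤ} (h : Rep q φ s a w) (h' : Rep q φ' s' a' w') :
    Rep q (fun y => φ y * φ' y) (s.disjSum s') (Sum.elim a a') (Sum.elim w w') := by
  obtain ⟨h1, k, kc, hk⟩ := h
  obtain ⟨h1', k', kc', hk'⟩ := h'
  refine ⟨?_, fun y => k y + k' y, by fun_prop, fun y => ?_⟩
  · intro c hc
    rw [Finset.mem_disjSum] at hc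
    rcases hc with ⟨b, hb, rfl⟩ | ⟨b, hb, rfl⟩
    · exact h1 b hb
    · exact h1' b hb
  · show φ y * φ' y = _
    rw [hk, hk', Finset.prod_disjSum, Complex.exp_add]
    simp only [Sum.elim_inl, Sum.elim_inr]
    ring

lemma Rep.inv {ι : Type*} {φ : Y → ℂ} {s : Finset ι} {a : ι → ℂ} {w : ι → ℤ}
    (h : Rep q φ s a w) : Rep q (fun y => (φ y)⁻¹) s a (fun c => - w c) := by
  obtain ⟨h1, k, kc, hk⟩ := h
  refine ⟨h1, fun y => - k y, by fun_prop, fun y => ?_⟩
  show (φ y)⁻¹ = _
  rw [hk, Complex.exp_neg, mul_inv, ← Finset.prod_inv_distrib]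
  congr 1
  apply Finset.prod_congr rfl
  intro c _
  rw [zpow_neg]

open Classical in
lemma rep_add {ι : Type*} [DecidableEq ι] (hq : Continuous q) (hinj : Function.Injective q)
    {φ₁ φ₂ φ₃ : Y → ℂ} {s₁ s₂ s₃ : Finset ι} {a₁ a₂ a₃ : ι → ℂ} {w₁ w₂ w₃ : ι → ℤ}
    (h₁ : Rep q φ₁ s₁ a₁ w₁) (h₂ : Rep q φ₂ s₂ a₂ w₂) (h₃ : Rep q φ₃ s₃ a₃ w₃)
    (hφ : ∀ y, φ₃ y = φ₁ y * φ₂ y) (h0 : ∀ y, φ₃ y ≠ 0)
    {a₀ : ℂ} (ha₀ : a₀ ∉ range q)
    (hb : Bornology.IsBounded (connectedComponentIn (range q)ᶜ a₀)) :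
    ∑ c ∈ s₃, pick (connectedComponentIn (range q)ᶜ a₀) (a₃ c) (w₃ c) =
      ∑ c ∈ s₁, pick (connectedComponentIn (range q)ᶜ a₀) (a₁ c) (w₁ c) +
      ∑ c ∈ s₂, pick (connectedComponentIn (range q)ᶜ a₀) (a₂ c) (w₂ c) := by
  have h4 := (h₁.mul h₂).mul h₃.inv
  have h5 : HasLog (fun y => φ₁ y * φ₂ y * (φ₃ y)⁻¹) := by
    refine (HasLog.const (Y := Y) one_ne_zero).congr (fun y => ?_)
    rw [← hφ, mul_inv_cancel₀ (h0 y)]
  have h6 := rep_log hq hinj h4 h5 ha₀ hb
  rw [Finset.sum_disjSum, Finset.sum_disjSum] at h6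
  simp only [Sum.elim_inl, Sum.elim_inr] at h6
  simp only [pick_neg, Finset.sum_neg_distrib] at h6
  linarith

open Classical in
/-- A representation all of whose bounded indices vanish represents an exponential. -/
lemma hasLog_of_rep {ι : Type*} (hq : Continuous q)
    {φ : Y → ℂ} {s : Finset ι} {a : ι → ℂ} {w : ι → ℤ} (hr : Rep q φ s a w)
    (hz : ∀ a₀ ∉ range q, Bornology.IsBounded (connectedComponentIn (range q)ᶜ a₀) →
      ∑ c ∈ s, pick (connectedComponentIn (range q)ᶜ a₀) (a c) (w c) = 0) :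
    HasLog φ := by
  obtain ⟨h1, k, kc, hk⟩ := hr
  have hexp : HasLog (fun y => Complex.exp (k y)) := ⟨k, kc, fun _ => rfl⟩
  let comp : ι → Set ℂ := fun c => connectedComponentIn (range q)ᶜ (a c)
  let rp : Set ℂ → ℂ := fun ω => if h : ω.Nonempty then h.some else 0
  have hrp : ∀ c ∈ s, rp (comp c) ∈ comp c := by
    intro c hc
    have hne : (comp c).Nonempty := ⟨a c, mem_connectedComponentIn (h1 c hc)⟩
    simp only [rp, dif_pos hne]
    exact hne.some_mem
  have hrp' : ∀ c ∈ s, rp (comp c) ∉ range q := fun c hc =>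
    connectedComponentIn_subset _ _ (hrp c hc)
  have hne : ∀ y, ∀ c ∈ s, q y - a c ≠ 0 := fun y c hc h0 => h1 c hc ⟨y, sub_eq_zero.mp h0⟩
  have hne' : ∀ y, ∀ c ∈ s, q y - rp (comp c) ≠ 0 := fun y c hc h0 =>
    hrp' c hc ⟨y, sub_eq_zero.mp h0⟩
  have hA : HasLog (fun y => ∏ c ∈ s, (((q y - rp (comp c)) / (q y - a c)) ^ (w c))⁻¹) := by
    apply HasLog.prod
    intro c hc
    exact ((hasLog_component q hq (h1 c hc) (hrp c hc)).zpow _).inv
  have hB : HasLog (fun y => ∏ c ∈ s, (q y - rp (comp c)) ^ (w c)) := by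
    have e : ∀ y, ∏ c ∈ s, (q y - rp (comp c)) ^ (w c) =
        ∏ ω ∈ s.image comp, ∏ c ∈ s.filter (fun c => comp c = ω), (q y - rp (comp c)) ^ (w c) := by
      intro y
      rw [Finset.prod_fiberwise_of_maps_to]
      intro c hc
      exact Finset.mem_image_of_mem _ hc
    refine HasLog.congr ?_ e
    apply HasLog.prod
    intro ω hω
    obtain ⟨c₀, hc₀, rfl⟩ := Finset.mem_image.mp hω
    have e2 : ∀ y, ∏ c ∈ s.filter (fun c => comp c = comp c₀), (q y - rp (comp c)) ^ (w c) =
        (q y - rp (comp c₀)) ^ (∑ c ∈ s.filter (fun c => comp c = comp c₀), w c) := by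
      intro y
      rw [← zpow_sum _ _ (hne' y c₀ hc₀)]
      apply Finset.prod_congr rfl
      intro c hc
      rw [(Finset.mem_filter.mp hc).2]
    refine HasLog.congr ?_ e2
    by_cases hbd : Bornology.IsBounded (comp c₀)
    · have e3 : ∑ c ∈ s.filter (fun c => comp c = comp c₀), w c = 0 := by
        have e4 := hz (a c₀) (h1 c₀ hc₀) hbd
        rw [Finset.sum_filter]
        refine Eq.trans ?_ e4
        unfold pick
        apply Finset.sum_congr rfl
        intro c hc
        have e5 : (comp c = comp c₀) ↔ a c ∈ connectedComponentIn (range q)ᶜ (a c₀) := by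
          constructor
          · intro h
            have : a c ∈ comp c := mem_connectedComponentIn (h1 c hc)
            rw [h] at this
            exact this
          · intro h
            exact (connectedComponentIn_eq h).symm
        simp only [e5]
      rw [e3]
      simpa using HasLog.const (Y := Y) one_ne_zero
    · have hbd' : ¬ Bornology.IsBounded (connectedComponentIn (range q)ᶜ (rp (comp c₀))) := by
        have : comp c₀ = connectedComponentIn (range q)ᶜ (rp (comp c₀)) :=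
          connectedComponentIn_eq (hrp c₀ hc₀)
        rw [← this]
        exact hbd
      exact (hasLog_unbounded q hq (hrp' c₀ hc₀) hbd').zpow _
  refine ((hA.mul hB).mul hexp).congr (fun y => ?_)
  rw [hk y]
  congr 1
  rw [← Finset.prod_mul_distrib]
  apply Finset.prod_congr rfl
  intro c hc
  have n1 := zpow_ne_zero (w c) (hne y c hc)
  have n2 := zpow_ne_zero (w c) (hne' y c hc)
  rw [div_zpow]
  field_simp

open Classical in
/-- The divisor class of a representation. -/
noncomputable def divc (q : Y → ℂ) {ι : Type*} (s : Finset ι) (a : ι → ℂ) (w : ι → ℤ) :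
    Set ℂ →₀ ℤ :=
  ∑ c ∈ s, if Bornology.IsBounded (connectedComponentIn (range q)ᶜ (a c)) then
    Finsupp.single (connectedComponentIn (range q)ᶜ (a c)) (w c) else 0

open Classical in
lemma divc_apply {ι : Type*} {s : Finset ι} {a : ι → ℂ} {w : ι → ℤ}
    (hs : ∀ c ∈ s, a c ∉ range q) {a₀ : ℂ}
    (hb : Bornology.IsBounded (connectedComponentIn (range q)ᶜ a₀)) :
    divc q s a w (connectedComponentIn (range q)ᶜ a₀) =
      ∑ c ∈ s, pick (connectedComponentIn (range q)ᶜ a₀) (a c) (w c) := by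
  unfold divc pick
  rw [Finsupp.finsetSum_apply]
  apply Finset.sum_congr rfl
  intro c hc
  by_cases h : a c ∈ connectedComponentIn (range q)ᶜ a₀
  · have h2 : connectedComponentIn (range q)ᶜ (a c) = connectedComponentIn (range q)ᶜ a₀ :=
      (connectedComponentIn_eq h).symm
    rw [if_pos h, h2, if_pos hb, Finsupp.single_eq_same]
  · rw [if_neg h]
    split_ifs with h3
    · rw [Finsupp.single_apply, if_neg]
      intro h4
      apply h
      rw [← h4]
      exact mem_connectedComponentIn (hs c hc)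
    · rfl

open Classical in
lemma divc_apply' {ι : Type*} {s : Finset ι} {a : ι → ℂ} {w : ι → ℤ}
    (hs : ∀ c ∈ s, a c ∉ range q) {ω : Set ℂ}
    (hω : ¬ ∃ a₀, a₀ ∉ range q ∧ Bornology.IsBounded (connectedComponentIn (range q)ᶜ a₀) ∧
      ω = connectedComponentIn (range q)ᶜ a₀) :
    divc q s a w ω = 0 := by
  unfold divc
  rw [Finsupp.finsetSum_apply]
  apply Finset.sum_eq_zero
  intro c hc
  split_ifs with h3
  · rw [Finsupp.single_apply, if_neg]
    intro h4
    exact hω ⟨a c, hs c hc, h3, h4.symm⟩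
  · rfl

end index

end Pool.Agent.Helper188_Cone
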