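import Pool.Agent.Helper188_Cone.Circ

/-! The winding number of a simple closed curve about a point is 0, 1 or -1. -/

namespace Pool.Agent.Helper188_Cone

open Set Topology Filter Complex

/-- Degree of a nonvanishing function on the circle. -/
theorem exists_degree' (φ : Circle → ℂ) (hφ : Continuous φ) (h0 : ∀ z, φ z ≠ 0) :
    ∃ d : ℤ, HasLog (fun z : Circle => φ z * (((z : ℂ) ^ d))⁻¹) := by
  let F : C(Circle, Circle) := ⟨fun z => ⟨φ z / ‖φ z‖, by
    have : ‖φ z / ‖φ z‖‖ = 1 := by
      rw [norm_div, Complex.norm_real, norm_norm, div_self (norm_ne_zero_iff.mpr (h0 z))]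
    exact mem_sphere_zero_iff_norm.mpr this⟩, by
    apply Continuous.subtype_mk
    apply Continuous.div hφ (by fun_prop)
    intro z
    exact_mod_cast norm_ne_zero_iff.mpr (h0 z)⟩
  obtain ⟨d, u, hu⟩ := exists_degree F
  refine ⟨d, fun z => Complex.log (‖φ z‖ : ℝ) + u z * Complex.I, ?_, fun z => ?_⟩
  · apply Continuous.add
    · apply Continuous.clog (by fun_prop)
      intro z
      left
      simpa using h0 z
    · fun_prop
  · have h1 := congrArg (fun z : Circle => (z : ℂ)) (hu z)
    have h2 : ((F z : Circle) : ℂ) = φ z / ‖φ z‖ := rfl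
    simp only [Circle.coe_mul, Circle.coe_zpow, Circle.coe_exp] at h1
    rw [h2] at h1
    have h3 : ((‖φ z‖ : ℝ) : ℂ) ≠ 0 := by exact_mod_cast norm_ne_zero_iff.mpr (h0 z)
    rw [Complex.exp_add, Complex.exp_log h3]
    rw [div_eq_iff h3] at h1
    have := zpow_ne_zero d (Circle.coe_ne_zero z)
    generalize ((‖φ z‖ : ℝ) : ℂ) = n at *
    show φ z * (((z : Circle) : ℂ) ^ d)⁻¹ = _
    rw [h1]
    field_simp

lemma degree_zero' (d : ℤ) (h : HasLog (fun z : Circle => ((z : ℂ) ^ d))) : d = 0 := by
  have h1 : HasLog (fun z : Circle =>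
      (((⟨fun z : Circle => z ^ d, by fun_prop⟩ : C(Circle, Circle)) z : Circle) : ℂ)) := by
    refine h.congr (fun z => ?_)
    show ((z ^ d : Circle) : ℂ) = _
    rw [Circle.coe_zpow]
  rw [hasLog_circle] at h1
  obtain ⟨w, hw⟩ := h1
  exact degree_zero d w w.continuous hw

/-- The winding number of a simple closed curve about a point of its complement. -/
theorem jordan_winding (γ : Circle → ℂ) (hγ : Continuous γ) (hinj : Function.Injective γ) (a : ℂ)
    (ha : a ∉ range γ) :
    ∃ k : ℤ, |k| ≤ 1 ∧ HasLog (fun z : Circle => (γ z - a) * (((z : ℂ) ^ k))⁻¹) := by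
  classical
  have hne : ∀ z, γ z - a ≠ 0 := fun z h => ha ⟨z, sub_eq_zero.mp h⟩
  obtain ⟨k, hk⟩ := exists_degree' (fun z => γ z - a) (by fun_prop) hne
  refine ⟨k, ?_, hk⟩
  obtain ⟨s, b, w, h, hb, hc, hh⟩ := eilenberg' γ hγ hinj (fun z : Circle => (z : ℂ))
    (by fun_prop) (fun z => Circle.coe_ne_zero z)
  have hexp : HasLog (fun z => Complex.exp (h z)) := ⟨h, hc, fun _ => rfl⟩
  by_cases hbd : Bornology.IsBounded (connectedComponentIn (range γ)ᶜ a)
  · let s' : Finset (Option (ℕ × ℕ)) := Finset.insertNone s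
    let a' : Option (ℕ × ℕ) → ℂ := fun o => o.elim a b
    let w' : Option (ℕ × ℕ) → ℤ := fun o => o.elim 1 (fun c => -k * w c)
    have h1 : ∀ c ∈ s', a' c ∉ range γ := by
      intro c hc
      cases c with
      | none => exact ha
      | some c => exact hb c (Finset.some_mem_insertNone.mp hc)
    have h2 : HasLog (fun z => ∏ c ∈ s', (γ z - a' c) ^ (w' c)) := by
      refine (hk.mul (hexp.zpow k)).congr (fun z => ?_)
      rw [Finset.prod_insertNone]
      simp only [a', w', Option.elim_none, Option.elim_some, zpow_one]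
      have e1 : ∏ c ∈ s, (γ z - b c) ^ (-k * w c) = (∏ c ∈ s, (γ z - b c) ^ (w c)) ^ (-k) := by
        rw [← Finset.prod_zpow]
        apply Finset.prod_congr rfl
        intro c _
        rw [← zpow_mul, mul_comm]
      have e2 := hh z
      have e3 : ∏ c ∈ s, (γ z - b c) ^ (w c) = (z : ℂ) * (Complex.exp (h z))⁻¹ := by
        rw [e2]
        have := Complex.exp_ne_zero (h z)
        field_simp
      rw [e1, e3, mul_zpow, inv_zpow', neg_neg, zpow_neg]
      ring
    have h3 : ∑ c ∈ s', pick (connectedComponentIn (range γ)ᶜ a) (a' c) (w' c) = 0 := by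
      unfold pick
      rw [← Finset.sum_filter]
      exact borsuk_index γ hγ hinj s' a' w' h1 h2 ha hbd
    rw [Finset.sum_insertNone] at h3
    simp only [a', w', Option.elim_none, Option.elim_some] at h3
    have h6 : pick (connectedComponentIn (range γ)ᶜ a) a 1 = 1 := by
      unfold pick
      rw [if_pos (mem_connectedComponentIn (show a ∈ (range γ)ᶜ from ha))]
    have h4 : ∑ c ∈ s, pick (connectedComponentIn (range γ)ᶜ a) (b c) (-k * w c) =
        -k * ∑ c ∈ s, pick (connectedComponentIn (range γ)ᶜ a) (b c) (w c) := by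
      rw [Finset.mul_sum]
      apply Finset.sum_congr rfl
      intro c _
      unfold pick
      split_ifs <;> simp
    rw [h4, h6] at h3
    set N := ∑ c ∈ s, pick (connectedComponentIn (range γ)ᶜ a) (b c) (w c)
    have h5 : k * N = 1 := by linarith
    have h8 : IsUnit k := IsUnit.of_mul_eq_one _ h5
    rcases Int.isUnit_iff.mp h8 with h7 | h7 <;> rw [h7] <;> norm_num
  · have h1 := hasLog_unbounded γ hγ ha hbd
    have h2 : HasLog (fun z : Circle => ((z : ℂ) ^ k)) := by
      refine (h1.mul hk.inv).congr (fun z => ?_)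
      have := hne z
      have := zpow_ne_zero k (Circle.coe_ne_zero z)
      field_simp
    rw [degree_zero' k h2]
    norm_num

end Pool.Agent.Helper188_Cone
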