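import Pool.Agent.Helper188_Cone.Proj

/-! From a family of paths of directions to a complex valued function. -/

namespace Pool.Agent.Helper188_Cone

open Set Topology Filter Matrix

lemma prodI_cont {Z : Type*} [TopologicalSpace Z] (f : Z → ℤ → Matrix (Fin 2) (Fin 2) ℂ)
    (hf : ∀ k, Continuous fun z => f z k) (n : ℕ) : Continuous fun z => prodI (f z) n := by
  induction n with
  | zero => simpa [prodI] using hf 0
  | succ n ih =>
    simp only [prodI]
    exact ((hf _).mul ih).mul (hf _)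

/-- The first basis vector used as the north pole. -/
noncomputable def ez : E3 := EuclideanSpace.single 2 1

lemma norm_ez : ‖ez‖ = 1 := by simp [ez]

lemma P_ez : P ez = !![1, 0; 0, 0] := by
  unfold P ez
  ext i j
  fin_cases i <;> fin_cases j <;> simp

lemma P_neg_ez : P (-ez) = !![0, 0; 0, 1] := by
  unfold P ez
  ext i j
  fin_cases i <;> fin_cases j <;> simp

theorem key {Z : Type*} [TopologicalSpace Z] [NormalSpace Z] [ParacompactSpace Z]
    (τ : Z → Z) (hτ : Continuous τ) (hττ : ∀ z, τ (τ z) = z)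
    (Ψ : Z × ℝ → E3) (hΨ : Continuous Ψ) (hn : ∀ p, ‖Ψ p‖ = 1)
    (hL : ∀ z u, u ≤ -2 → Ψ (z, u) = ez) (hR : ∀ z u, 2 ≤ u → Ψ (z, u) = -ez)
    (hanti : ∀ z u, Ψ (τ z, -u) = -Ψ (z, u)) :
    ∃ F : Z → ℂ, Continuous F ∧ (∀ z, F z ≠ 0) ∧ ∀ z, F (τ z) = - F z := by
  classical
  -- the set of good mesh parameters
  let t : Z → Set ℝ := fun z =>
    {N : ℝ | 0 < N ∧ ∀ u h : ℝ, |h| * N ≤ 1 → inner ℝ (Ψ (z, u)) (Ψ (z, u + h)) ≠ (-1 : ℝ)}
  have hup : ∀ z N N', N ∈ t z → N ≤ N' → N' ∈ t z := by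
    intro z N N' h hN
    refine ⟨lt_of_lt_of_le h.1 hN, fun u hh hle => h.2 u hh ?_⟩
    exact le_trans (mul_le_mul_of_nonneg_left hN (abs_nonneg _)) hle
  have hconv : ∀ z, Convex ℝ (t z) := by
    intro z
    have : IsUpperSet (t z) := fun a b hab ha => hup z a b ha hab
    exact this.ordConnected.convex
  have hself : ∀ p, inner ℝ (Ψ p) (Ψ p) = (1 : ℝ) := by
    intro p; rw [real_inner_self_eq_norm_sq, hn]; norm_num
  have hloc : ∀ z : Z, ∃ c : ℝ, ∀ᶠ y in 𝓝 z, c ∈ t y := by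
    intro z₀
    let Pr : Z × ℝ → ℝ → Prop := fun zh u =>
      (-1 : ℝ) < inner ℝ (Ψ (zh.1, u)) (Ψ (zh.1, u + zh.2))
    have hGc : Continuous fun q : (Z × ℝ) × ℝ =>
        inner ℝ (Ψ (q.1.1, q.2)) (Ψ (q.1.1, q.2 + q.1.2)) := by
      apply Continuous.inner
      · exact hΨ.comp (by fun_prop)
      · exact hΨ.comp (by fun_prop)
    have h1 : ∀ u ∈ Icc (-4 : ℝ) 4, ∀ᶠ q : (Z × ℝ) × ℝ in 𝓝 ((z₀, 0), u), Pr q.1 q.2 := by
      intro u _
      have : (-1 : ℝ) < inner ℝ (Ψ (z₀, u)) (Ψ (z₀, u + 0)) := by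
        rw [add_zero, hself]; norm_num
      exact hGc.continuousAt.eventually (lt_mem_nhds this)
    have h2 := isCompact_Icc.eventually_forall_of_forall_eventually h1
    rw [nhds_prod_eq, Filter.eventually_prod_iff] at h2
    obtain ⟨pa, hpa, pb, hpb, h3⟩ := h2
    rw [Metric.eventually_nhds_iff] at hpb
    obtain ⟨δ, hδ, hpb⟩ := hpb
    refine ⟨max 1 (2 / δ), ?_⟩
    filter_upwards [hpa] with z hz
    refine ⟨lt_of_lt_of_le one_pos (le_max_left _ _), fun u h hh => ?_⟩
    have hh1 : |h| ≤ 1 := by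
      have : |h| * 1 ≤ |h| * max 1 (2 / δ) :=
        mul_le_mul_of_nonneg_left (le_max_left _ _) (abs_nonneg _)
      linarith
    have hh2 : |h| < δ := by
      have : |h| * (2 / δ) ≤ |h| * max 1 (2 / δ) :=
        mul_le_mul_of_nonneg_left (le_max_right _ _) (abs_nonneg _)
      have h5 : |h| * (2 / δ) ≤ 1 := le_trans this hh
      have h6 : |h| * 2 ≤ δ := by
        have := mul_le_mul_of_nonneg_right h5 hδ.le
        rw [one_mul] at this
        calc |h| * 2 = |h| * (2 / δ) * δ := by field_simp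
          _ ≤ δ := this
      have := abs_nonneg h
      by_cases h7 : |h| = 0
      · rw [h7]; exact hδ
      · have : 0 < |h| := lt_of_le_of_ne this (Ne.symm h7)
        linarith
    have habs := abs_le.mp hh1
    by_cases hu : u ∈ Icc (-4 : ℝ) 4
    · have := h3 hz (hpb (y := h) (by simpa [Real.dist_eq] using hh2)) u hu
      exact ne_of_gt this
    · rw [mem_Icc, not_and_or, not_le, not_le] at hu
      rcases hu with hu | hu
      · rw [hL z u (by linarith), hL z (u + h) (by linarith [habs.2]), real_inner_self_eq_norm_sq,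
          norm_ez]
        norm_num
      · rw [hR z u (by linarith), hR z (u + h) (by linarith [habs.1]), real_inner_self_eq_norm_sq,
          norm_neg, norm_ez]
        norm_num
  obtain ⟨N, hN⟩ := exists_continuous_forall_mem_convex_of_local_const hconv hloc
  let N' : Z → ℝ := fun z => max (N z) (N (τ z))
  have hN'c : Continuous N' := N.continuous.max (N.continuous.comp hτ)
  have hN'pos : ∀ z, 0 < N' z := fun z => lt_of_lt_of_le (hN z).1 (le_max_left _ _)
  have hN't : ∀ z, N' z ∈ t z := fun z => hup z _ _ (hN z) (le_max_left _ _)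
  have hN'τ : ∀ z, N' (τ z) = N' z := by
    intro z
    simp only [N', hττ]
    exact max_comm _ _
  let δ : Z → ℝ := fun z => (N' z)⁻¹
  have hδc : Continuous δ := hN'c.inv₀ (fun z => (hN'pos z).ne')
  have hδpos : ∀ z, 0 < δ z := fun z => inv_pos.mpr (hN'pos z)
  let w : Z → ℤ → E3 := fun z k => Ψ (z, (k : ℝ) * δ z)
  let A : ℕ → Z → Matrix (Fin 2) (Fin 2) ℂ := fun n z => prodI (fun k => P (w z k)) n
  have hwn : ∀ z k, ‖w z k‖ = 1 := fun z k => hn _
  have hwc : ∀ z k, inner ℝ (w z k) (w z (k + 1)) ≠ (-1 : ℝ) := by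
    intro z k
    have h1 := (hN't z).2 ((k : ℝ) * δ z) (δ z) (by
      rw [abs_of_pos (hδpos z)]
      simp only [δ]
      rw [inv_mul_cancel₀ (hN'pos z).ne'])
    have h2 : ((k + 1 : ℤ) : ℝ) * δ z = (k : ℝ) * δ z + δ z := by push_cast; ring
    simp only [w]
    rw [h2]
    exact h1
  have hAne : ∀ n z, A n z ≠ 0 := fun n z => prodI_ne (w z) (hwn z) (hwc z) n
  have hbig : ∀ z (n : ℕ), 2 * N' z ≤ n → w z (n : ℤ) = -ez ∧ w z (-(n : ℤ)) = ez := by
    intro z n hn
    have h1 : 2 ≤ (n : ℝ) * δ z := by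
      simp only [δ]
      rw [← div_eq_mul_inv, le_div_iff₀ (hN'pos z)]
      exact hn
    constructor
    · apply hR
      push_cast
      exact h1
    · apply hL
      push_cast
      linarith
  have hstep : ∀ z (n : ℕ), 2 * N' z ≤ n → A (n + 1) z = A n z := by
    intro z n hn
    have h1 := hbig z n hn
    have h2 := hbig z (n + 1) (by push_cast; linarith)
    have hl := prodI_left (w z) (hwn z) n
    have hr := prodI_right (w z) (hwn z) n
    simp only [A]
    simp only [prodI]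
    have e1 : w z ((n : ℤ) + 1) = w z (n : ℤ) := by
      rw [h1.1]; have := h2.1; push_cast at this; exact this
    have e2 : w z (-((n : ℤ) + 1)) = w z (-(n : ℤ)) := by
      rw [h1.2]; have := h2.2; push_cast at this
      rw [← this]
    rw [e1, e2, hl, hr]
  have hstab : ∀ z (n m : ℕ), 2 * N' z ≤ n → n ≤ m → A m z = A n z := by
    intro z n m hn hnm
    induction m, hnm using Nat.le_induction with
    | base => rfl
    | succ m hm ih =>
      rw [hstep z m (le_trans hn (by exact_mod_cast hm)), ih]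
  have hceil : ∀ z, 2 * N' z ≤ (⌈2 * N' z⌉₊ : ℝ) := fun z => Nat.le_ceil _
  have hAc : ∀ n, Continuous (A n) := by
    intro n
    apply prodI_cont
    intro k
    apply P_cont.comp
    apply hΨ.comp
    fun_prop
  refine ⟨fun z => A ⌈2 * N' z⌉₊ z 0 1, ?_, ?_, ?_⟩
  · rw [continuous_iff_continuousAt]
    intro z₀
    have h1 : ∀ᶠ z in 𝓝 z₀, 2 * N' z < ((⌈2 * N' z₀⌉₊ + 1 : ℕ) : ℝ) := by
      have : Continuous fun z => 2 * N' z := by fun_prop
      apply this.continuousAt.eventually (gt_mem_nhds _)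
      push_cast
      linarith [hceil z₀]
    have h2 : (fun z => A ⌈2 * N' z⌉₊ z 0 1) =ᶠ[𝓝 z₀] fun z => A (⌈2 * N' z₀⌉₊ + 1) z 0 1 := by
      filter_upwards [h1] with z hz
      have : ⌈2 * N' z⌉₊ ≤ ⌈2 * N' z₀⌉₊ + 1 := Nat.ceil_le.mpr hz.le
      rw [hstab z _ _ (hceil z) this]
    refine ContinuousAt.congr ?_ h2.symm
    exact ((hAc _).matrix_elem 0 1).continuousAt
  · intro z h0
    apply hAne ⌈2 * N' z⌉₊ z
    have hl := prodI_left (w z) (hwn z) ⌈2 * N' z⌉₊
    have hr := prodI_right (w z) (hwn z) ⌈2 * N' z⌉₊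
    have hb := hbig z _ (hceil z)
    rw [hb.2, P_ez] at hl
    rw [hb.1, P_neg_ez] at hr
    change !![1, 0; 0, 0] * A ⌈2 * N' z⌉₊ z = A ⌈2 * N' z⌉₊ z at hl
    change A ⌈2 * N' z⌉₊ z * !![0, 0; 0, 1] = A ⌈2 * N' z⌉₊ z at hr
    change A ⌈2 * N' z⌉₊ z 0 1 = 0 at h0
    generalize A ⌈2 * N' z⌉₊ z = B at *
    have h10 : B 1 0 = 0 := by rw [← hl]; simp [Matrix.mul_apply, Fin.sum_univ_two]
    have h11 : B 1 1 = 0 := by rw [← hl]; simp [Matrix.mul_apply, Fin.sum_univ_two]
    have h00 : B 0 0 = 0 := by rw [← hr]; simp [Matrix.mul_apply, Fin.sum_univ_two]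
    ext i j
    fin_cases i <;> fin_cases j <;> simp [h10, h11, h00, h0]
  · intro z
    have h1 : A ⌈2 * N' (τ z)⌉₊ (τ z) = (A ⌈2 * N' z⌉₊ z).adjugate := by
      rw [hN'τ]
      apply prodI_adj
      intro k
      rw [P_adj]
      congr 1
      simp only [w]
      have : δ (τ z) = δ z := by simp only [δ, hN'τ]
      rw [this]
      have := hanti z (-((k : ℝ) * δ z))
      rw [neg_neg] at this
      rw [this]
      push_cast
      rw [neg_mul]
    show A ⌈2 * N' (τ z)⌉₊ (τ z) 0 1 = - A ⌈2 * N' z⌉₊ z 0 1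
    rw [h1, Matrix.adjugate_fin_two]
    simp

end Pool.Agent.Helper188_Cone
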