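import Pool.Agent.Helper188_Cone.Eilenberg2

/-! Continuous logarithms on plane compacta. -/

namespace Pool.Agent.Helper188_Cone

open Set Topology Filter Complex

set_option linter.unusedSectionVars false

/-- `f` has a continuous logarithm. -/
def HasLog {Y : Type*} [TopologicalSpace Y] (f : Y → ℂ) : Prop :=
  ∃ h : Y → ℂ, Continuous h ∧ ∀ y, f y = Complex.exp (h y)

namespace HasLog

variable {Y : Type*} [TopologicalSpace Y]

lemma ne_zero {f : Y → ℂ} (hf : HasLog f) (y : Y) : f y ≠ 0 := by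
  obtain ⟨h, -, hh⟩ := hf
  rw [hh]; exact Complex.exp_ne_zero _

lemma mul {f g : Y → ℂ} (hf : HasLog f) (hg : HasLog g) : HasLog (fun y => f y * g y) := by
  obtain ⟨h, hc, hh⟩ := hf
  obtain ⟨k, kc, hk⟩ := hg
  exact ⟨fun y => h y + k y, by fun_prop, fun y => by simp only [hh, hk, Complex.exp_add]⟩

lemma zpow {f : Y → ℂ} (hf : HasLog f) (n : ℤ) : HasLog (fun y => f y ^ n) := by
  obtain ⟨h, hc, hh⟩ := hf
  exact ⟨fun y => n * h y, by fun_prop, fun y => by simp only [hh, Complex.exp_int_mul]⟩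

lemma inv {f : Y → ℂ} (hf : HasLog f) : HasLog (fun y => (f y)⁻¹) := by
  have := hf.zpow (-1)
  simpa using this

lemma const {c : ℂ} (hc : c ≠ 0) : HasLog (fun _ : Y => c) :=
  ⟨fun _ => Complex.log c, continuous_const, fun _ => (Complex.exp_log hc).symm⟩

lemma prod {ι : Type*} (s : Finset ι) (f : ι → Y → ℂ) (hf : ∀ i ∈ s, HasLog (f i)) :
    HasLog (fun y => ∏ i ∈ s, f i y) := by
  classical
  induction s using Finset.induction_on with
  | empty => simpa using const (Y := Y) one_ne_zero
  | insert a s ha ih =>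
    have := (hf a (Finset.mem_insert_self a s)).mul
      (ih (fun i hi => hf i (Finset.mem_insert_of_mem hi)))
    simpa [Finset.prod_insert ha] using this

lemma of_re_pos {f : Y → ℂ} (hc : Continuous f) (h : ∀ y, 0 < (f y).re) : HasLog f := by
  refine ⟨fun y => Complex.log (f y), ?_, fun y => ?_⟩
  · exact hc.clog (fun y => Or.inl (h y))
  · rw [Complex.exp_log]
    intro h0
    have := h y
    rw [h0] at this
    simp at this

lemma congr {f g : Y → ℂ} (hf : HasLog f) (h : ∀ y, g y = f y) : HasLog g := by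
  obtain ⟨k, kc, hk⟩ := hf
  exact ⟨k, kc, fun y => by rw [h, hk]⟩

lemma comp {Z : Type*} [TopologicalSpace Z] {f : Y → ℂ} (hf : HasLog f) {g : Z → Y}
    (hg : Continuous g) : HasLog (fun z => f (g z)) := by
  obtain ⟨k, kc, hk⟩ := hf
  exact ⟨fun z => k (g z), kc.comp hg, fun z => hk _⟩

end HasLog

lemma hasLog_plane (f : ℂ → ℂ) (hf : Continuous f) (h0 : ∀ z, f z ≠ 0) : HasLog f := by
  have he : Complex.exp (Complex.log (f 0)) = (⟨f, hf⟩ : C(ℂ, ℂ)) 0 := Complex.exp_log (h0 0)
  obtain ⟨F, ⟨-, hF⟩, -⟩ := Complex.isCoveringMapOn_exp.existsUnique_continuousMap_lifts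
    (⟨f, hf⟩ : C(ℂ, ℂ)) (a₀ := (0 : ℂ)) he (fun a => by simpa using h0 a)
  exact ⟨F, F.continuous, fun x => (congrFun hF x).symm⟩

/-- A continuous function on the line whose exponential is one is constant. -/
lemma const_of_exp_one {S : Type*} [TopologicalSpace S] [PreconnectedSpace S] {D : S → ℂ}
    (hD : Continuous D) (h : ∀ x, Complex.exp (D x) = 1) (x y : S) : D x = D y := by
  have hint : ∀ x, ∃ k : ℤ, D x = k * (2 * Real.pi * Complex.I) := fun x => by
    rw [← Complex.exp_eq_one_iff]; exact h x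
  -- the set of multiples is discrete
  have hdisc : DiscreteTopology (AddSubgroup.zmultiples (2 * Real.pi * Complex.I) : Set ℂ) :=
    NormedSpace.discreteTopology_zmultiples _
  refine isPreconnected_univ.constant_of_mapsTo
    (T := (AddSubgroup.zmultiples (2 * Real.pi * Complex.I) : Set ℂ)) ⟨hdisc⟩ hD.continuousOn ?_
    (mem_univ x) (mem_univ y)
  intro z _
  obtain ⟨k, hk⟩ := hint z
  rw [hk]
  exact ⟨k, by simp⟩

lemma zpow_sum {ι : Type*} (s : Finset ι) (w : ι → ℤ) {x : ℂ} (hx : x ≠ 0) :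
    ∏ c ∈ s, x ^ (w c) = x ^ (∑ c ∈ s, w c) := by
  classical
  induction s using Finset.induction_on with
  | empty => simp
  | insert a s ha ih => rw [Finset.prod_insert ha, Finset.sum_insert ha, ih, zpow_add₀ hx]

section comp

variable {Y : Type*} [TopologicalSpace Y] [CompactSpace Y]

lemma exists_ball_disjoint (q : Y → ℂ) (hq : Continuous q) {a : ℂ} (ha : a ∉ range q) :
    ∃ ε > 0, ∀ y, ε ≤ ‖q y - a‖ := by
  have hcl : IsClosed (range q) := (isCompact_range hq).isClosed
  have : (range q)ᶜ ∈ 𝓝 a := hcl.isOpen_compl.mem_nhds ha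
  obtain ⟨ε, hε, h⟩ := Metric.mem_nhds_iff.mp this
  refine ⟨ε, hε, fun y => ?_⟩
  by_contra hlt
  push Not at hlt
  have : q y ∈ Metric.ball a ε := by rw [Metric.mem_ball, dist_eq_norm]; exact hlt
  exact h this ⟨y, rfl⟩

lemma hasLog_shift (q : Y → ℂ) (hq : Continuous q) {a b : ℂ} {ε : ℝ}
    (ha : ∀ y, ε ≤ ‖q y - a‖) (hab : ‖b - a‖ < ε) : HasLog (fun y => (q y - b) / (q y - a)) := by
  apply HasLog.of_re_pos
  · apply Continuous.div (by fun_prop) (by fun_prop)
    intro y h
    have := ha y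
    rw [h, norm_zero] at this
    have := norm_nonneg (b - a)
    linarith
  · intro y
    apply re_pos_of_near
    have : q y - b - (q y - a) = -(b - a) := by ring
    rw [this, norm_neg]
    exact lt_of_lt_of_le hab (ha y)

lemma hasLog_component (q : Y → ℂ) (hq : Continuous q) {a b : ℂ} (ha : a ∉ range q)
    (hb : b ∈ connectedComponentIn (range q)ᶜ a) : HasLog (fun y => (q y - b) / (q y - a)) := by
  have hcl : IsClosed (range q) := (isCompact_range hq).isClosed
  let U : Set ℂ := {b | b ∉ range q ∧ HasLog (fun y => (q y - b) / (q y - a))}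
  let V : Set ℂ := {b | b ∉ range q ∧ ¬ HasLog (fun y => (q y - b) / (q y - a))}
  have key : ∀ b₀ ∉ range q, ∃ ε > 0, ∀ b, ‖b - b₀‖ < ε → b ∉ range q ∧
      (HasLog (fun y => (q y - b) / (q y - a)) ↔ HasLog (fun y => (q y - b₀) / (q y - a))) := by
    intro b₀ hb₀
    obtain ⟨ε, hε, h⟩ := exists_ball_disjoint q hq hb₀
    refine ⟨ε, hε, fun b hb => ⟨?_, ?_⟩⟩
    · rintro ⟨y, rfl⟩
      exact absurd (h y) (not_le.mpr hb)
    · have h1 := hasLog_shift q hq h hb
      have hne : ∀ y, q y - b₀ ≠ 0 := fun y h0 => by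
        have := h y
        rw [h0, norm_zero] at this
        linarith
      have hne' : ∀ y, q y - b ≠ 0 := fun y h0 => by
        have := h1.ne_zero y
        apply this
        simp [h0]
      constructor
      · intro h2
        refine (h2.mul h1.inv).congr (fun y => ?_)
        have := hne y
        have := hne' y
        field_simp
      · intro h2
        refine (h2.mul h1).congr (fun y => ?_)
        have := hne y
        have := hne' y
        field_simp
  have hU : IsOpen U := by
    rw [Metric.isOpen_iff]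
    intro b₀ hb₀
    obtain ⟨ε, hε, h⟩ := key b₀ hb₀.1
    refine ⟨ε, hε, fun b hb => ?_⟩
    rw [Metric.mem_ball, dist_eq_norm] at hb
    exact ⟨(h b hb).1, (h b hb).2.mpr hb₀.2⟩
  have hV : IsOpen V := by
    rw [Metric.isOpen_iff]
    intro b₀ hb₀
    obtain ⟨ε, hε, h⟩ := key b₀ hb₀.1
    refine ⟨ε, hε, fun b hb => ?_⟩
    rw [Metric.mem_ball, dist_eq_norm] at hb
    exact ⟨(h b hb).1, fun h2 => hb₀.2 ((h b hb).2.mp h2)⟩
  have hsub : connectedComponentIn (range q)ᶜ a ⊆ U := by
    apply isPreconnected_connectedComponentIn.subset_left_of_subset_union hU hV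
    · rw [Set.disjoint_left]
      intro b h1 h2
      exact h2.2 h1.2
    · intro b hb
      have : b ∉ range q := connectedComponentIn_subset _ _ hb
      by_cases h : HasLog (fun y => (q y - b) / (q y - a))
      · exact Or.inl ⟨this, h⟩
      · exact Or.inr ⟨this, h⟩
    · refine ⟨a, mem_connectedComponentIn ha, ha, ?_⟩
      obtain ⟨ε, hε, h⟩ := exists_ball_disjoint q hq ha
      exact hasLog_shift q hq h (by simpa using hε)
  exact (hsub hb).2

lemma hasLog_far (q : Y → ℂ) (hq : Continuous q) {b : ℂ} {R : ℝ} (hR : ∀ y, ‖q y‖ ≤ R)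
    (hb : R < ‖b‖) : HasLog (fun y => q y - b) := by
  have hb0 : b ≠ 0 ∨ IsEmpty Y := by
    rcases isEmpty_or_nonempty Y with h | ⟨⟨y⟩⟩
    · exact Or.inr h
    · left
      rintro rfl
      rw [norm_zero] at hb
      have := hR y
      have := norm_nonneg (q y)
      linarith
  rcases hb0 with hb0 | hY
  · have h1 : HasLog (fun y => (q y - b) / (-b)) := by
      apply HasLog.of_re_pos (by fun_prop)
      intro y
      apply re_pos_of_near
      have : q y - b - -b = q y := by ring
      rw [this, norm_neg]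
      exact lt_of_le_of_lt (hR y) hb
    refine (h1.mul (HasLog.const (neg_ne_zero.mpr hb0))).congr (fun y => ?_)
    field_simp
  · exact ⟨fun _ => 0, continuous_const, fun y => (IsEmpty.false y).elim⟩

lemma hasLog_unbounded (q : Y → ℂ) (hq : Continuous q) {a : ℂ} (ha : a ∉ range q)
    (hb : ¬ Bornology.IsBounded (connectedComponentIn (range q)ᶜ a)) :
    HasLog (fun y => q y - a) := by
  obtain ⟨R, hR⟩ := (isCompact_range hq).isBounded.exists_norm_le
  have : ∃ b ∈ connectedComponentIn (range q)ᶜ a, R < ‖b‖ := by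
    by_contra h
    push Not at h
    exact hb (isBounded_iff_forall_norm_le.mpr ⟨R, h⟩)
  obtain ⟨b, hb1, hb2⟩ := this
  have h1 := hasLog_component q hq ha hb1
  have h2 := hasLog_far q hq (fun y => hR _ ⟨y, rfl⟩) hb2
  have hne : ∀ y, q y - a ≠ 0 := fun y h0 => ha ⟨y, sub_eq_zero.mp h0⟩
  have hne' := h2.ne_zero
  refine (h2.mul h1.inv).congr (fun y => ?_)
  have := hne y
  have := hne' y
  field_simp

/-- Borsuk: the index on every bounded complementary component is determined. -/
theorem borsuk_index (q : Y → ℂ) (hq : Continuous q) (hinj : Function.Injective q)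
    {ι : Type*} [DecidableEq ι] (s : Finset ι) (a : ι → ℂ) (w : ι → ℤ)
    (ha : ∀ c ∈ s, a c ∉ range q) (hlog : HasLog (fun y => ∏ c ∈ s, (q y - a c) ^ (w c)))
    {a₀ : ℂ} (ha₀ : a₀ ∉ range q)
    (hb : Bornology.IsBounded (connectedComponentIn (range q)ᶜ a₀))
    [DecidablePred fun c => a c ∈ connectedComponentIn (range q)ᶜ a₀] :
    ∑ c ∈ s.filter (fun c => a c ∈ connectedComponentIn (range q)ᶜ a₀), w c = 0 := by
  classical
  set ω := connectedComponentIn (range q)ᶜ a₀ with hω
  have hKcl : IsClosed (range q) := (isCompact_range hq).isClosed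
  have hωopen : IsOpen ω := hKcl.isOpen_compl.connectedComponentIn
  have hωK : ω ⊆ (range q)ᶜ := connectedComponentIn_subset _ _
  have ha₀ω : a₀ ∈ ω := mem_connectedComponentIn ha₀
  set N := ∑ c ∈ s.filter (fun c => a c ∈ ω), w c with hN
  have hne : ∀ y, ∀ c ∈ s, q y - a c ≠ 0 := fun y c hc h0 => ha c hc ⟨y, sub_eq_zero.mp h0⟩
  have hne₀ : ∀ y, q y - a₀ ≠ 0 := fun y h0 => ha₀ ⟨y, sub_eq_zero.mp h0⟩
  -- step 1
  have hg : HasLog (fun y => (q y - a₀) ^ N *
      ∏ c ∈ s.filter (fun c => a c ∉ ω), (q y - a c) ^ (w c)) := by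
    have h1 : HasLog (fun y => ∏ c ∈ s.filter (fun c => a c ∈ ω),
        (((q y - a c) / (q y - a₀)) ^ (w c))⁻¹) := by
      apply HasLog.prod
      intro c hc
      exact ((hasLog_component q hq ha₀ (Finset.mem_filter.mp hc).2).zpow (w c)).inv
    refine (hlog.mul h1).congr (fun y => ?_)
    rw [← Finset.prod_filter_mul_prod_filter_not s (fun c => a c ∈ ω)
      (fun c => (q y - a c) ^ (w c))]
    have h2 : (q y - a₀) ^ N = (∏ c ∈ s.filter (fun c => a c ∈ ω), (q y - a c) ^ (w c)) *
        ∏ c ∈ s.filter (fun c => a c ∈ ω), (((q y - a c) / (q y - a₀)) ^ (w c))⁻¹ := by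
      rw [← Finset.prod_mul_distrib, hN, ← zpow_sum _ _ (hne₀ y)]
      apply Finset.prod_congr rfl
      intro c hc
      have := hne y c (Finset.mem_filter.mp hc).1
      rw [div_zpow, inv_div, mul_div_cancel₀]
      exact zpow_ne_zero _ this
    rw [h2]
    ring
  -- step 2: extension of the logarithm
  obtain ⟨h, hc, hh⟩ := hg
  have hemb : IsClosedEmbedding q := hq.isClosedEmbedding hinj
  obtain ⟨h', hh'⟩ := ContinuousMap.exists_extension hemb ⟨h, hc⟩
  have hh'' : ∀ y, h' (q y) = h y := fun y => congrFun (congrArg DFunLike.coe hh') y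
  -- step 3: glue
  have hcl : closure ω ⊆ ω ∪ range q := by
    intro z hz
    by_cases hzK : z ∈ range q
    · exact Or.inr hzK
    · left
      have hop : IsOpen (connectedComponentIn (range q)ᶜ z) :=
        hKcl.isOpen_compl.connectedComponentIn
      have hzz : z ∈ connectedComponentIn (range q)ᶜ z := mem_connectedComponentIn hzK
      obtain ⟨u, hu1, hu2⟩ := mem_closure_iff.mp hz _ hop hzz
      have e1 := connectedComponentIn_eq hu1
      have e2 := connectedComponentIn_eq (hω ▸ hu2)
      rw [hω, e2, ← e1]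
      exact hzz
  have hfr : frontier ω ⊆ range q := by
    intro z hz
    rcases hcl hz.1 with h1 | h1
    · exact absurd (by rwa [hωopen.interior_eq]) hz.2
    · exact h1
  let A : ℂ → ℂ := fun z => Complex.exp (h' z) *
    (∏ c ∈ s.filter (fun c => a c ∉ ω), (z - a c) ^ (w c))⁻¹
  let B : ℂ → ℂ := fun z => (z - a₀) ^ N
  let Θ : ℂ → ℂ := ω.piecewise A B
  have hprodne : ∀ z ∈ ω ∪ range q, ∀ c ∈ s.filter (fun c => a c ∉ ω), z - a c ≠ 0 := by
    intro z hz c hc h0
    rw [sub_eq_zero] at h0
    rw [Finset.mem_filter] at hc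
    rcases hz with hz | hz
    · exact hc.2 (h0 ▸ hz)
    · exact ha c hc.1 (h0 ▸ hz)
  have hAcont : ContinuousOn A (closure ω) := by
    apply ContinuousOn.mul
    · exact (Complex.continuous_exp.comp h'.continuous).continuousOn
    · apply ContinuousOn.inv₀
      · apply continuousOn_finsetProd
        intro c hc
        apply ContinuousOn.zpow₀ (by fun_prop)
        intro z hz
        exact Or.inl (hprodne z (hcl hz) c hc)
      · intro z hz
        apply Finset.prod_ne_zero_iff.mpr
        intro c hc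
        exact zpow_ne_zero _ (hprodne z (hcl hz) c hc)
  have hBcont : ContinuousOn B (closure ωᶜ) := by
    rw [hωopen.isClosed_compl.closure_eq]
    apply ContinuousOn.zpow₀ (by fun_prop)
    intro z hz
    left
    intro h0
    rw [sub_eq_zero] at h0
    exact hz (h0 ▸ ha₀ω)
  have hAB : ∀ z ∈ frontier ω, A z = B z := by
    intro z hz
    obtain ⟨y, rfl⟩ := hfr hz
    simp only [A, B]
    rw [hh'' y, ← hh y]
    have : ∏ c ∈ s.filter (fun c => a c ∉ ω), (q y - a c) ^ (w c) ≠ 0 := by
      apply Finset.prod_ne_zero_iff.mpr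
      intro c hc
      exact zpow_ne_zero _ (hprodne (q y) (Or.inr ⟨y, rfl⟩) c hc)
    field_simp
  have hΘc : Continuous Θ := continuous_piecewise hAB hAcont hBcont
  have hΘ0 : ∀ z, Θ z ≠ 0 := by
    intro z
    by_cases hz : z ∈ ω
    · simp only [Θ, Set.piecewise_eq_of_mem _ _ _ hz]
      apply mul_ne_zero (Complex.exp_ne_zero _)
      apply inv_ne_zero
      apply Finset.prod_ne_zero_iff.mpr
      intro c hc
      exact zpow_ne_zero _ (hprodne z (Or.inl hz) c hc)
    · simp only [Θ, Set.piecewise_eq_of_notMem _ _ _ hz]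
      apply zpow_ne_zero
      intro h0
      rw [sub_eq_zero] at h0
      exact hz (h0 ▸ ha₀ω)
  obtain ⟨H, hHc, hH⟩ := hasLog_plane Θ hΘc hΘ0
  obtain ⟨R, hR⟩ := hb.exists_norm_le
  -- a large circle
  set ρ : ℝ := |R| + ‖a₀‖ + 1 with hρ
  have hρpos : 0 < ρ := by positivity
  let zc : ℝ → ℂ := fun t => a₀ + ρ * Complex.exp (t * Complex.I)
  have hzc : ∀ t, zc t ∉ ω := by
    intro t ht
    have h1 := hR _ ht
    have h2 : ‖(ρ : ℂ) * Complex.exp (t * Complex.I)‖ = ρ := by
      rw [norm_mul, Complex.norm_exp_ofReal_mul_I, mul_one, Complex.norm_real, Real.norm_eq_abs,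
        abs_of_pos hρpos]
    have h3 : ‖(ρ : ℂ) * Complex.exp (t * Complex.I)‖ ≤ ‖zc t‖ + ‖a₀‖ := by
      have : (ρ : ℂ) * Complex.exp (t * Complex.I) = zc t - a₀ := by simp only [zc]; ring
      rw [this]
      exact norm_sub_le _ _
    have h4 := le_abs_self R
    rw [h2, hρ] at h3
    linarith
  let D : ℝ → ℂ := fun t => H (zc t) - N * (Real.log ρ + t * Complex.I)
  have hDc : Continuous D := by
    simp only [D, zc]
    fun_prop
  have hD1 : ∀ t, Complex.exp (D t) = 1 := by
    intro t
    simp only [D]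
    rw [Complex.exp_sub, ← hH, Complex.exp_int_mul, Complex.exp_add]
    simp only [Θ, Set.piecewise_eq_of_notMem _ _ _ (hzc t), B, zc]
    rw [← Complex.ofReal_exp, Real.exp_log hρpos, add_sub_cancel_left, div_self]
    apply zpow_ne_zero
    exact mul_ne_zero (by exact_mod_cast hρpos.ne') (Complex.exp_ne_zero _)
  have hDeq := const_of_exp_one hDc hD1 0 (2 * Real.pi)
  have hzeq : zc (2 * Real.pi) = zc 0 := by
    simp only [zc]
    push_cast
    rw [Complex.exp_two_pi_mul_I]
    simp
  simp only [D] at hDeq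
  rw [hzeq] at hDeq
  have h5 : (N : ℂ) * (2 * Real.pi * Complex.I) = 0 := by
    push_cast at hDeq
    linear_combination hDeq
  have h6 : (2 * Real.pi * Complex.I : ℂ) ≠ 0 := by
    simp [Real.pi_ne_zero, Complex.I_ne_zero]
  have h7 : N = 0 := by exact_mod_cast (mul_eq_zero.mp h5).resolve_right h6
  rw [hN] at h7
  convert h7

end comp

end Pool.Agent.Helper188_Cone
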