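import Pool.Agent.Helper188_Cone.Polygon

/-! Loop erasure: closed lattice walks all of whose proper closed subwalks have zero winding. -/

namespace Pool.Agent.Helper188_Cone

open Set Topology Filter Complex

/-- weighted increment of the logarithm of a divisor along a lattice edge -/
noncomputable def incr {ι : Type*} (s : Finset ι) (a : ι → ℂ) (w : ι → ℤ) (p q : ℤ × ℤ) : ℂ :=
  ∑ c ∈ s, (w c : ℂ) * Complex.log ((pt q - a c) / (pt p - a c))

theorem loop_erase {ι : Type*} (s : Finset ι) (a : ι → ℂ) (w : ι → ℤ) (n : ℕ) :
    ∀ v : ℕ → ℤ × ℤ, v n = v 0 → (∀ i < n, v (i + 1) = v i ∨ adj (v i) (v (i + 1))) →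
      (∀ i ≤ n, ∀ c ∈ s, 1 < ‖pt (v i) - a c‖) →
      (∀ k l, k < l → l ≤ n → ¬ (k = 0 ∧ l = n) → v k = v l →
        ∑ i ∈ Finset.Ico k l, incr s a w (v i) (v (i + 1)) = 0) →
      ∃ K : ℤ, |K| ≤ ∑ c ∈ s, |w c| ∧
        ∑ i ∈ Finset.range n, incr s a w (v i) (v (i + 1)) = K * (2 * Real.pi * Complex.I) := by
  induction n using Nat.strong_induction_on with
  | _ n ih =>
    intro v hcl hstep hfar hzero
    by_cases hex : ∃ k l, k < l ∧ l ≤ n ∧ ¬ (k = 0 ∧ l = n) ∧ v k = v l
    · obtain ⟨k, l, hkl, hln, hne, hv⟩ := hex
      set f : ℕ → ℂ := fun i => incr s a w (v i) (v (i + 1)) with hf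
      have hf0 : ∑ i ∈ Finset.Ico k l, f i = 0 := hzero k l hkl hln hne hv
      set d := l - k with hd
      have hdpos : 0 < d := by omega
      let σ : ℕ → ℕ := fun i => if i ≤ k then i else i + d
      have hσ1 : ∀ i, i ≤ k → σ i = i := fun i hi => if_pos hi
      have hσ2 : ∀ i, k < i → σ i = i + d := fun i hi => if_neg (by omega)
      let v' : ℕ → ℤ × ℤ := fun i => v (σ i)
      let f' : ℕ → ℂ := fun i => incr s a w (v' i) (v' (i + 1))
      set n' := n - d with hn'
      have hn'lt : n' < n := by omega
      -- partial sums
      have hsum1 : ∀ j, ∑ i ∈ Finset.range j, f' i = ∑ i ∈ Finset.range (σ j), f i := by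
        intro j
        induction j with
        | zero => rw [hσ1 0 (by omega)]; simp
        | succ j ihj =>
          rw [Finset.sum_range_succ, ihj]
          rcases Nat.lt_trichotomy j k with h | h | h
          · rw [hσ1 j h.le, hσ1 (j + 1) (by omega), Finset.sum_range_succ]
            congr 1
            simp only [f', f, v']
            rw [hσ1 j h.le, hσ1 (j + 1) (by omega)]
          · subst h
            rw [hσ1 j le_rfl, hσ2 (j + 1) (by omega)]
            have e1 : j + 1 + d = l + 1 := by omega
            rw [e1, Finset.sum_range_succ, ← Finset.sum_range_add_sum_Ico _ hkl.le, hf0, add_zero]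
            congr 1
            simp only [f', f, v']
            rw [hσ1 j le_rfl, hσ2 (j + 1) (by omega), e1, hv]
          · rw [hσ2 j h, hσ2 (j + 1) (by omega), show j + 1 + d = (j + d) + 1 by omega,
              Finset.sum_range_succ]
            congr 1
            simp only [f', f, v']
            rw [hσ2 j h, hσ2 (j + 1) (by omega), show j + 1 + d = (j + d) + 1 by omega]
      have hσmono : ∀ i j, i < j → σ i < σ j := by
        intro i j hij
        simp only [σ]
        split_ifs <;> omega
      have hsum2 : ∀ i j, i ≤ j → ∑ t ∈ Finset.Ico i j, f' t = ∑ t ∈ Finset.Ico (σ i) (σ j), f t := by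
        intro i j hij
        have h1 : σ i ≤ σ j := by
          rcases hij.eq_or_lt with h | h
          · rw [h]
          · exact (hσmono i j h).le
        rw [Finset.sum_Ico_eq_sub _ hij, Finset.sum_Ico_eq_sub _ h1, hsum1, hsum1]
      have hσn : ∀ i ≤ n', σ i ≤ n := by
        intro i hi
        simp only [σ]
        split_ifs <;> omega
      have hv'n : v' n' = v n := by
        simp only [v']
        rcases Nat.lt_or_ge k n' with h | h
        · rw [hσ2 n' h]; congr 1; omega
        · have hnl : l = n := by omega
          have : n' = k := by omega
          rw [hσ1 n' h, this, hv, hnl]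
      have hv'0 : v' 0 = v 0 := by simp only [v']; rw [hσ1 0 (by omega)]
      obtain ⟨K, hK, hKs⟩ := ih n' hn'lt v' (by rw [hv'n, hv'0, hcl]) (by
          intro i hi
          simp only [v']
          rcases Nat.lt_trichotomy i k with h | h | h
          · rw [hσ1 i h.le, hσ1 (i + 1) (by omega)]
            exact hstep i (by omega)
          · subst h
            rw [hσ1 i le_rfl, hσ2 (i + 1) (by omega), hv, show i + 1 + d = l + 1 by omega]
            exact hstep l (by omega)
          · rw [hσ2 i h, hσ2 (i + 1) (by omega), show i + 1 + d = (i + d) + 1 by omega]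
            exact hstep (i + d) (by omega)) (by
          intro i hi c hc
          exact hfar (σ i) (hσn i hi) c hc) (by
          intro i j hij hj hnij hvij
          have := hsum2 i j hij.le
          simp only [f'] at this
          rw [this]
          apply hzero (σ i) (σ j) (hσmono i j hij) (hσn j hj) _ hvij
          rintro ⟨h1, h2⟩
          apply hnij
          constructor
          · simp only [σ] at h1
            split_ifs at h1 <;> omega
          · simp only [σ] at h2
            split_ifs at h2 <;> omega)
      refine ⟨K, hK, ?_⟩
      rw [← hKs]
      have h3 := hsum1 n'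
      simp only [f'] at h3
      rw [h3]
      rcases Nat.lt_or_ge k n' with h | h
      · rw [hσ2 n' h]
        congr 2; omega
      · have hnl : l = n := by omega
        have hnk : n' = k := by omega
        rw [hσ1 n' h, hnk, ← hnl, ← Finset.sum_range_add_sum_Ico _ hkl.le, hf0, add_zero]
    · push Not at hex
      have hinj : ∀ i < n, ∀ j < n, v i = v j → i = j := by
        intro i hi j hj h
        rcases Nat.lt_trichotomy i j with h1 | h1 | h1
        · exact absurd h (hex i j h1 hj.le (by omega))
        · exact h1
        · exact absurd h.symm (hex j i h1 hi.le (by omega))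
      rcases Nat.lt_or_ge n 3 with hn3 | hn3
      · refine ⟨0, by simpa using Finset.sum_nonneg (fun c _ => abs_nonneg (w c)), ?_⟩
        rw [Int.cast_zero, zero_mul]
        have hc0 : n = 0 ∨ n = 1 ∨ n = 2 := by omega
        rcases hc0 with rfl | rfl | rfl
        · simp
        · rw [Finset.sum_range_one, show (0 + 1) = 1 from rfl, hcl]
          unfold incr
          apply Finset.sum_eq_zero
          intro c hc
          have := hfar 0 (by omega) c hc
          rw [div_self, Complex.log_one, mul_zero]
          intro h0
          rw [h0, norm_zero] at this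
          linarith
        · rw [Finset.sum_range_succ, Finset.sum_range_one, show (1 + 1) = 2 from rfl,
            show (0 + 1) = 1 from rfl, hcl]
          unfold incr
          rw [← Finset.sum_add_distrib]
          apply Finset.sum_eq_zero
          intro c hc
          have h1 : 0 < ((pt (v 1) - a c) / (pt (v 0) - a c)).re := by
            apply re_pos_of_near
            have h2 := hfar 0 (by omega) c hc
            have h3 : ‖pt (v 1) - pt (v 0)‖ ≤ 1 := by
              rcases hstep 0 (by omega) with h | h
              · rw [show (0 + 1) = 1 from rfl] at h; rw [h]; simp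
              · exact adj_norm h
            have : pt (v 1) - a c - (pt (v 0) - a c) = pt (v 1) - pt (v 0) := by ring
            rw [this]
            linarith
          have h2 := log_inv_re h1
          rw [inv_div] at h2
          rw [h2]
          ring
      · have hadj : ∀ i < n, adj (v i) (v (i + 1)) := by
          intro i hi
          rcases hstep i hi with h | h
          · exfalso
            exact (hex i (i + 1) (by omega) (by omega) (by omega)) h.symm
          · exact h
        have hw := fun c (hc : c ∈ s) => lattice_winding v n hn3 hcl hadj hinj (a c)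
          (fun i hi => hfar i hi c hc)
        choose! k hk hks using hw
        refine ⟨∑ c ∈ s, w c * k c, ?_, ?_⟩
        · refine le_trans (Finset.abs_sum_le_sum_abs _ _) ?_
          apply Finset.sum_le_sum
          intro c hc
          rw [abs_mul]
          calc |w c| * |k c| ≤ |w c| * 1 := mul_le_mul_of_nonneg_left (hk c hc) (abs_nonneg _)
            _ = |w c| := mul_one _
        · unfold incr
          rw [Finset.sum_comm]
          push_cast
          rw [Finset.sum_mul]
          apply Finset.sum_congr rfl
          intro c hc
          rw [← Finset.mul_sum, hks c hc]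
          ring

end Pool.Agent.Helper188_Cone
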