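import Pool.Agent.Helper188_Cone.Logs
import Pool.Agent.Helper188_Cone.Deleted
import Pool.Agent.H370R3.SphereTools

/-! The planar model of the small sphere around the vertex of the cone. -/

namespace Pool.Agent.Helper188_Cone

open Set Topology Filter Complex

set_option linter.unusedSectionVars false

/-- Eilenberg's theorem for an injective map of a compact space to the plane. -/
theorem eilenberg' {Y : Type*} [TopologicalSpace Y] [CompactSpace Y] (q : Y → ℂ)
    (hq : Continuous q) (hinj : Function.Injective q) (φ : Y → ℂ) (hφ : Continuous φ)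
    (h0 : ∀ y, φ y ≠ 0) :
    ∃ (s : Finset (ℕ × ℕ)) (a : ℕ × ℕ → ℂ) (w : ℕ × ℕ → ℤ) (h : Y → ℂ),
      (∀ c ∈ s, a c ∉ range q) ∧ Continuous h ∧
      ∀ y, φ y = (∏ c ∈ s, (q y - a c) ^ (w c)) * Complex.exp (h y) := by
  have hemb : IsClosedEmbedding q := hq.isClosedEmbedding hinj
  obtain ⟨Φ, hΦ⟩ := ContinuousMap.exists_extension hemb ⟨φ, hφ⟩
  have hΦ' : ∀ y, Φ (q y) = φ y := fun y => congrFun (congrArg DFunLike.coe hΦ) y
  obtain ⟨s, a, w, h, h1, h2, h3⟩ := eilenberg (range q) (isCompact_range hq) Φ
    Φ.continuous.continuousOn (by rintro _ ⟨y, rfl⟩; rw [hΦ']; exact h0 y)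
  refine ⟨s, a, w, fun y => h (q y), h1, ?_, ?_⟩
  · exact h2.comp_continuous hq (fun y => ⟨y, rfl⟩)
  · intro y
    rw [← hΦ' y]
    exact h3 (q y) ⟨y, rfl⟩

/-- Having a logarithm is invariant under homotopy. -/
theorem hasLog_homotopy {X : Type*} [TopologicalSpace X] [CompactSpace X]
    (F : X × unitInterval → ℂ) (hF : Continuous F) (h0 : ∀ p, F p ≠ 0)
    (h1 : HasLog (fun x => F (x, 1))) : HasLog (fun x => F (x, 0)) := by
  let Pd : unitInterval → Prop := fun t => HasLog (fun x => F (x, t))
  have hloc : IsLocallyConstant Pd := by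
    rw [IsLocallyConstant.iff_eventually_eq]
    intro t₀
    have h2 : ∀ x ∈ (univ : Set X), ∀ᶠ z : unitInterval × X in 𝓝 (t₀, x),
        0 < (F (z.2, z.1) / F (z.2, t₀)).re := by
      intro x _
      have hc : Continuous fun z : unitInterval × X => (F (z.2, z.1) / F (z.2, t₀)).re := by
        apply Complex.continuous_re.comp
        apply Continuous.div
        · fun_prop
        · fun_prop
        · intro z; exact h0 _
      apply hc.continuousAt.eventually (lt_mem_nhds _)
      show 0 < (F (x, t₀) / F (x, t₀)).re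
      rw [div_self (h0 _)]; simp
    have h3 := isCompact_univ.eventually_forall_of_forall_eventually
      (P := fun (t : unitInterval) (x : X) => 0 < (F (x, t) / F (x, t₀)).re) h2
    filter_upwards [h3] with t ht
    have h4 : HasLog (fun x => F (x, t) / F (x, t₀)) := by
      apply HasLog.of_re_pos
      · apply Continuous.div
        · fun_prop
        · fun_prop
        · intro z; exact h0 _
      · intro x; exact ht x (mem_univ x)
    apply propext
    constructor
    · intro h5
      refine (h5.mul h4.inv).congr (fun x => ?_)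
      have := h0 (x, t)
      have := h0 (x, t₀)
      field_simp
    · intro h5
      refine (h5.mul h4).congr (fun x => ?_)
      have := h0 (x, t)
      have := h0 (x, t₀)
      field_simp
  have := hloc.apply_eq_of_isPreconnected isPreconnected_univ (mem_univ (0 : unitInterval))
    (mem_univ 1)
  show Pd 0
  rw [this]
  exact h1

/-- Gluing: a map whose pull-back to the level set has a logarithm has a logarithm. -/
theorem hasLog_of_level {X : Type*} [TopologicalSpace X] [CompactSpace X] [T2Space X]
    (ρ : X × unitInterval → ℝ) (hρ : Continuous ρ) {r : ℝ} (hr0 : ∀ x, r < ρ (x, 0))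
    (hr1 : ∀ x, ρ (x, 1) < r) (f : X → ℂ) (hf : Continuous f) (hf0 : ∀ x, f x ≠ 0)
    (hlog : HasLog (fun p : {p : X × unitInterval // ρ p = r} => f p.1.1)) : HasLog f := by
  obtain ⟨h, hc, hh⟩ := hlog
  have hcl : IsClosed {p : X × unitInterval | ρ p = r} := isClosed_eq hρ continuous_const
  obtain ⟨h', hh'⟩ := ContinuousMap.exists_extension
    (hcl.isClosedEmbedding_subtypeVal) (⟨h, hc⟩ : C({p : X × unitInterval // ρ p = r}, ℂ))
  have hh'' : ∀ y : {p : X × unitInterval // ρ p = r}, h' y.1 = h y :=
    fun y => congrFun (congrArg DFunLike.coe hh') y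
  have hcl2 : IsClosed {p : X × unitInterval | p.2 = 1} :=
    isClosed_eq continuous_snd continuous_const
  have hdisj : Disjoint {p : X × unitInterval | p.2 = 1} {p : X × unitInterval | ρ p = r} := by
    rw [Set.disjoint_left]
    rintro ⟨x, t⟩ h1 h2
    simp only [Set.mem_ofPred_eq] at h1 h2
    subst h1
    exact absurd h2 (hr1 x).ne
  obtain ⟨l, hl0, hl1, -⟩ := exists_continuous_zero_one_of_isClosed hcl2 hcl hdisj
  let F : X × unitInterval → ℂ := fun p => if r ≤ ρ p then f p.1 else Complex.exp (l p * h' p)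
  have hFc : Continuous F := by
    apply Continuous.if_le
    · fun_prop
    · fun_prop
    · exact continuous_const
    · exact hρ
    · intro p hp
      have h1 := hl1 (show p ∈ {p : X × unitInterval | ρ p = r} from hp.symm)
      simp only [Pi.one_apply] at h1
      rw [h1, Complex.ofReal_one, one_mul, hh'' ⟨p, hp.symm⟩]
      exact hh ⟨p, hp.symm⟩
  have hF0 : ∀ p, F p ≠ 0 := by
    intro p
    simp only [F]
    split_ifs
    · exact hf0 _
    · exact Complex.exp_ne_zero _
  have hF1 : HasLog (fun x => F (x, 1)) := by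
    refine (HasLog.const (Y := X) one_ne_zero).congr (fun x => ?_)
    simp only [F, if_neg (not_le.mpr (hr1 x))]
    have h1 := hl0 (show (x, (1 : unitInterval)) ∈ {p : X × unitInterval | p.2 = 1} from rfl)
    simp only [Pi.zero_apply] at h1
    rw [h1]; simp
  refine (hasLog_homotopy F hFc hF0 hF1).congr (fun x => ?_)
  simp only [F, if_pos (hr0 x).le]

/-- The level set. -/
abbrev Lev {X : Type*} (ρ : X × unitInterval → ℝ) (r : ℝ) := {p : X × unitInterval // ρ p = r}

/-- The planar model. -/
theorem planar_model {X : Type*} [TopologicalSpace X] [CompactSpace X]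
    [T2Space X] [Nonempty X] (g : X × unitInterval → E3) (hg : Continuous g)
    (hinj : ∀ p q, g p = g q ↔ (p = q ∨ (p.2 = 1 ∧ q.2 = 1))) :
    (∀ f : X → ℂ, Continuous f → (∀ x, f x ≠ 0) → HasLog f) ∨
    ∃ (ρ : X × unitInterval → ℝ) (r : ℝ) (q : {p : X × unitInterval // ρ p = r} → ℂ),
      Continuous ρ ∧ (∀ x, r < ρ (x, 0)) ∧ (∀ x, ρ (x, 1) < r) ∧ Continuous q ∧
      Function.Injective q := by
  classical
  obtain ⟨x₀⟩ := ‹Nonempty X›
  have hX : Nonempty X := ⟨x₀⟩
  obtain ⟨v, hv'⟩ : ∃ v, g (x₀, 1) = v := ⟨_, rfl⟩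
  have hv : ∀ x, g (x, 1) = v := by
    intro x
    rw [← hv', hinj]
    right; exact ⟨rfl, rfl⟩
  obtain ⟨r, hr, hr0⟩ := exists_radius g hg hinj v hv
  let ρ : X × unitInterval → ℝ := fun p => ‖g p - v‖
  have hρ : Continuous ρ := by fun_prop
  have hr1 : ∀ x, ρ (x, 1) < r := by
    intro x
    simp only [ρ]
    rw [hv]; simpa using hr
  have hκ1 : ∀ p : Lev ρ r, p.1.2 ≠ 1 := by
    intro p h1
    have h2 := hr1 p.1.1
    rw [← h1] at h2
    exact h2.ne p.2
  let G : Lev ρ r → Metric.sphere (0 : E3) 1 := fun p => ⟨r⁻¹ • (g p.1 - v), by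
    have : ‖g p.1 - v‖ = r := p.2
    rw [mem_sphere_zero_iff_norm, norm_smul, this, Real.norm_eq_abs, abs_of_pos (inv_pos.mpr hr),
      inv_mul_cancel₀ hr.ne']⟩
  have hGc : Continuous G := by
    apply Continuous.subtype_mk
    fun_prop
  have hGi : Function.Injective G := by
    intro p q h
    have h1 : r⁻¹ • (g p.1 - v) = r⁻¹ • (g q.1 - v) := congrArg Subtype.val h
    have h2 : g p.1 - v = g q.1 - v := smul_right_injective E3 (inv_ne_zero hr.ne') h1
    have h3 : g p.1 = g q.1 := sub_left_injective h2
    rw [hinj] at h3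
    rcases h3 with h3 | h3
    · exact Subtype.ext h3
    · exact absurd h3.1 (hκ1 p)
  by_cases hall : Function.Surjective G
  · left
    intro f hf hf0
    have hcl : IsClosed {p : X × unitInterval | ρ p = r} := isClosed_eq hρ continuous_const
    have : CompactSpace (Lev ρ r) := isCompact_iff_compactSpace.mp hcl.isCompact
    let H : Lev ρ r ≃ₜ Metric.sphere (0 : E3) 1 :=
      Continuous.homeoOfEquivCompactToT2 (f := Equiv.ofBijective G ⟨hGi, hall⟩) hGc
    apply hasLog_of_level ρ hρ hr0 hr1 f hf hf0
    obtain ⟨θ, hθ, hθ'⟩ := Pool.Agent.H370R3.SphereTools.lift_sphere (n := 2) le_rfl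
      (fun e => f (H.symm e).1.1) (by fun_prop) (fun e => hf0 _)
    refine ⟨fun p => Complex.log (‖f p.1.1‖ : ℝ) + θ (H p) * Complex.I, ?_, ?_⟩
    · apply Continuous.add
      · apply Continuous.clog
        · fun_prop
        · intro p
          left
          simpa using hf0 p.1.1
      · fun_prop
    · intro p
      have := hθ' (H p)
      simp only [Homeomorph.symm_apply_apply] at this
      rw [Complex.exp_add, Complex.exp_log]
      · exact this
      · simpa using hf0 p.1.1
  · right
    unfold Function.Surjective at hall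
    push Not at hall
    obtain ⟨e, he⟩ := hall
    obtain ⟨h1, h2, h3, h4, h5⟩ := Pool.Agent.H370R3.SphereTools.stereo_facts (n := 2) e
    refine ⟨ρ, r, fun p => Complex.orthonormalBasisOneI.repr.symm (stereographic' 2 e (G p)), hρ,
      hr0, hr1, ?_, ?_⟩
    · apply (LinearIsometryEquiv.continuous _).comp
      exact h5.comp_continuous hGc (fun p => he p)
    · intro p p' hpp
      have e1 := (LinearIsometryEquiv.injective _) hpp
      apply hGi
      rw [← h2 (G p) (he p), ← h2 (G p') (he p'), e1]

end Pool.Agent.Helper188_Cone
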