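import Pool.Agent.Helper188_Cone.Jordan

/-! Simple closed lattice polygons. -/

namespace Pool.Agent.Helper188_Cone

open Set Topology Filter Complex

/-- lattice point as a complex number -/
noncomputable def pt (p : ℤ × ℤ) : ℂ := ⟨(p.1 : ℝ), (p.2 : ℝ)⟩

@[simp] lemma pt_re (p : ℤ × ℤ) : (pt p).re = p.1 := rfl
@[simp] lemma pt_im (p : ℤ × ℤ) : (pt p).im = p.2 := rfl

/-- lattice neighbours -/
def adj (p q : ℤ × ℤ) : Prop :=
  (p.1 = q.1 ∧ (q.2 = p.2 + 1 ∨ q.2 = p.2 - 1)) ∨ (p.2 = q.2 ∧ (q.1 = p.1 + 1 ∨ q.1 = p.1 - 1))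

lemma adj_norm {p q : ℤ × ℤ} (h : adj p q) : ‖pt q - pt p‖ ≤ 1 := by
  rcases h with ⟨h1, h2 | h2⟩ | ⟨h1, h2 | h2⟩
  · have : pt q - pt p = Complex.I := by
      apply Complex.ext <;> simp [h1, h2]
    rw [this]; simp
  · have : pt q - pt p = -Complex.I := by
      apply Complex.ext <;> simp [h1, h2]
    rw [this]; simp
  · have : pt q - pt p = 1 := by
      apply Complex.ext <;> simp [h1, h2]
    rw [this]; simp
  · have : pt q - pt p = -1 := by
      apply Complex.ext <;> simp [h1, h2]
    rw [this]; simp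

/-- tent function -/
noncomputable def tent (s : ℝ) : ℝ := max 0 (1 - |s|)

lemma tent_cont : Continuous tent := by unfold tent; fun_prop

lemma tent_zero {s : ℝ} (h : 1 ≤ |s|) : tent s = 0 := by
  unfold tent; exact max_eq_left (by linarith)

/-- the polygon with vertices `v 0, …, v m` -/
noncomputable def poly (v : ℕ → ℤ × ℤ) (m : ℕ) (t : ℝ) : ℂ :=
  ∑ i ∈ Finset.range (m + 1), (tent (t - i) : ℂ) * pt (v i)

lemma poly_cont (v : ℕ → ℤ × ℤ) (m : ℕ) : Continuous (poly v m) := by
  unfold poly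
  have := tent_cont
  fun_prop

lemma poly_on (v : ℕ → ℤ × ℤ) (m : ℕ) {k : ℕ} (hk : k < m) {s : ℝ} (h0 : 0 ≤ s) (h1 : s ≤ 1) :
    poly v m (k + s) = pt (v k) + s * (pt (v (k + 1)) - pt (v k)) := by
  unfold poly
  have h2 : ∑ i ∈ Finset.range (m + 1), (tent ((k + s) - i) : ℂ) * pt (v i) =
      ∑ i ∈ ({k, k + 1} : Finset ℕ), (tent ((k + s) - i) : ℂ) * pt (v i) := by
    symm
    apply Finset.sum_subset
    · intro i hi
      simp only [Finset.mem_insert, Finset.mem_singleton] at hi
      rw [Finset.mem_range]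
      omega
    · intro i _ hi
      simp only [Finset.mem_insert, Finset.mem_singleton, not_or] at hi
      rw [tent_zero, Complex.ofReal_zero, zero_mul]
      rcases lt_or_gt_of_ne hi.1 with h | h
      · have : (i : ℝ) + 1 ≤ k := by exact_mod_cast h
        rw [abs_of_nonneg (by linarith)]
        linarith
      · have h3 : k + 2 ≤ i := by omega
        have : (k : ℝ) + 2 ≤ i := by exact_mod_cast h3
        rw [abs_of_nonpos (by linarith)]
        linarith
  rw [h2, Finset.sum_pair (by omega)]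
  have h3 : tent ((k + s) - (k : ℕ)) = 1 - s := by
    unfold tent
    rw [show (k : ℝ) + s - k = s by ring, abs_of_nonneg h0, max_eq_right (by linarith)]
  have h4 : tent ((k + s) - ((k + 1 : ℕ) : ℝ)) = s := by
    unfold tent
    rw [show (k : ℝ) + s - ((k + 1 : ℕ) : ℝ) = -(1 - s) by push_cast; ring, abs_neg,
      abs_of_nonneg (by linarith), max_eq_right (by linarith)]
    ring
  rw [h3, h4]
  push_cast
  ring

lemma poly_nat (v : ℕ → ℤ × ℤ) (m : ℕ) {k : ℕ} (hk : k ≤ m) (hm : 0 < m) :
    poly v m k = pt (v k) := by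
  rcases Nat.lt_or_ge k m with h | h
  · have := poly_on v m h (s := 0) le_rfl zero_le_one
    simpa using this
  · have hkm : k = (m - 1) + 1 := by omega
    have := poly_on v m (k := m - 1) (by omega) (s := 1) zero_le_one le_rfl
    rw [hkm]
    push_cast at this ⊢
    rw [this]
    ring

lemma int_seg {a c e e' : ℤ} (he : e = 1 ∨ e = -1) (he' : e' = 1 ∨ e' = -1) {s s' : ℝ}
    (h0 : 0 < s) (h1 : s < 1) (h0' : 0 < s') (h1' : s' < 1)
    (h : (a : ℝ) + s * e = c + s' * e') : (a = c ∧ e = e' ∧ s = s') ∨ (a = c + e' ∧ a + e = c) := by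
  rcases he with rfl | rfl <;> rcases he' with rfl | rfl
  · left
    have h2 : (a : ℝ) - c < 1 := by push_cast at h; linarith
    have h3 : (-1 : ℝ) < a - c := by push_cast at h; linarith
    have h4 : a - c < 1 := by exact_mod_cast h2
    have h5 : -1 < a - c := by exact_mod_cast h3
    have : a = c := by omega
    subst this
    push_cast at h
    exact ⟨rfl, rfl, by linarith⟩
  · right
    have h2 : (a : ℝ) - c < 0 := by push_cast at h; linarith
    have h3 : (-2 : ℝ) < a - c := by push_cast at h; linarith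
    have h4 : a - c < 0 := by exact_mod_cast h2
    have h5 : -2 < a - c := by exact_mod_cast h3
    constructor <;> omega
  · right
    have h2 : (a : ℝ) - c < 2 := by push_cast at h; linarith
    have h3 : (0 : ℝ) < a - c := by push_cast at h; linarith
    have h4 : a - c < 2 := by exact_mod_cast h2
    have h5 : 0 < a - c := by exact_mod_cast h3
    constructor <;> omega
  · left
    have h2 : (a : ℝ) - c < 1 := by push_cast at h; linarith
    have h3 : (-1 : ℝ) < a - c := by push_cast at h; linarith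
    have h4 : a - c < 1 := by exact_mod_cast h2
    have h5 : -1 < a - c := by exact_mod_cast h3
    have : a = c := by omega
    subst this
    push_cast at h
    exact ⟨rfl, rfl, by linarith⟩

lemma not_int {a c e : ℤ} (he : e = 1 ∨ e = -1) {s : ℝ} (h0 : 0 < s) (h1 : s < 1)
    (h : (a : ℝ) + s * e = c) : False := by
  rcases he with rfl | rfl
  · have h2 : (a : ℝ) < c := by push_cast at h; linarith
    have h3 : (c : ℝ) < a + 1 := by push_cast at h; linarith
    have h4 : a < c := by exact_mod_cast h2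
    have h5 : c < a + 1 := by exact_mod_cast h3
    omega
  · have h2 : (c : ℝ) < a := by push_cast at h; linarith
    have h3 : (a : ℝ) - 1 < c := by push_cast at h; linarith
    have h4 : c < a := by exact_mod_cast h2
    have h5 : a - 1 < c := by exact_mod_cast h3
    omega

/-- Two lattice edges sharing an inner point coincide. -/
lemma edge_inter {p q p' q' : ℤ × ℤ} (h : adj p q) (h' : adj p' q') {s s' : ℝ}
    (hs0 : 0 ≤ s) (hs1 : s < 1) (hs0' : 0 ≤ s') (hs1' : s' < 1)
    (he : pt p + s * (pt q - pt p) = pt p' + s' * (pt q' - pt p')) :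
    (p = p' ∧ s = s') ∨ (p = q' ∧ q = p') := by
  have hre := congrArg Complex.re he
  have him := congrArg Complex.im he
  simp only [Complex.add_re, Complex.mul_re, Complex.sub_re, pt_re, Complex.ofReal_re,
    Complex.ofReal_im, zero_mul, sub_zero] at hre
  simp only [Complex.add_im, Complex.mul_im, Complex.sub_im, pt_im, Complex.ofReal_re,
    Complex.ofReal_im, zero_mul, add_zero] at him
  -- directions
  have key : ∀ {p q : ℤ × ℤ}, adj p q →
      (q.1 = p.1 ∧ ∃ e : ℤ, (e = 1 ∨ e = -1) ∧ q.2 = p.2 + e) ∨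
      (q.2 = p.2 ∧ ∃ e : ℤ, (e = 1 ∨ e = -1) ∧ q.1 = p.1 + e) := by
    intro p q h
    rcases h with ⟨h1, h2 | h2⟩ | ⟨h1, h2 | h2⟩
    · exact Or.inl ⟨h1.symm, 1, Or.inl rfl, h2⟩
    · exact Or.inl ⟨h1.symm, -1, Or.inr rfl, by rw [h2]; ring⟩
    · exact Or.inr ⟨h1.symm, 1, Or.inl rfl, h2⟩
    · exact Or.inr ⟨h1.symm, -1, Or.inr rfl, by rw [h2]; ring⟩
  rcases hs0.eq_or_lt with hs | hs <;> rcases hs0'.eq_or_lt with hs' | hs'
  · left
    rw [← hs, ← hs'] at hre him
    simp only [zero_mul, add_zero] at hre him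
    refine ⟨Prod.ext (by exact_mod_cast hre) (by exact_mod_cast him), ?_⟩
    rw [← hs, ← hs']
  · exfalso
    rw [← hs] at hre him
    simp only [zero_mul, add_zero] at hre him
    rcases key h' with ⟨h1, e, he1, h2⟩ | ⟨h1, e, he1, h2⟩
    · rw [h2] at him
      exact not_int he1 hs' hs1' (a := p'.2) (c := p.2) (by rw [him]; push_cast; ring)
    · rw [h2] at hre
      exact not_int he1 hs' hs1' (a := p'.1) (c := p.1) (by rw [hre]; push_cast; ring)
  · exfalso
    rw [← hs'] at hre him
    simp only [zero_mul, add_zero] at hre him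
    rcases key h with ⟨h1, e, he1, h2⟩ | ⟨h1, e, he1, h2⟩
    · rw [h2] at him
      exact not_int he1 hs hs1 (a := p.2) (c := p'.2) (by rw [← him]; push_cast; ring)
    · rw [h2] at hre
      exact not_int he1 hs hs1 (a := p.1) (c := p'.1) (by rw [← hre]; push_cast; ring)
  · rcases key h with ⟨h1, e, he1, h2⟩ | ⟨h1, e, he1, h2⟩ <;>
      rcases key h' with ⟨h1', e', he1', h2'⟩ | ⟨h1', e', he1', h2'⟩
    · rw [h1, h1'] at hre
      rw [h2, h2'] at him
      have hp : p.1 = p'.1 := by
        have : (p.1 : ℝ) = p'.1 := by linarith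
        exact_mod_cast this
      rcases int_seg he1 he1' hs hs1 hs' hs1' (a := p.2) (c := p'.2)
        (by push_cast at him ⊢; linarith) with ⟨h3, h4, h5⟩ | ⟨h3, h4⟩
      · exact Or.inl ⟨Prod.ext hp h3, h5⟩
      · exact Or.inr ⟨Prod.ext (by rw [h1', hp]) (by rw [h2', h3]),
          Prod.ext (by rw [h1, hp]) (by rw [h2, h4])⟩
    · exfalso
      rw [h1] at hre
      rw [h2'] at hre
      exact not_int he1' hs' hs1' (a := p'.1) (c := p.1) (by push_cast at hre ⊢; linarith)
    · exfalso
      rw [h2] at hre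
      rw [h1'] at hre
      exact not_int he1 hs hs1 (a := p.1) (c := p'.1) (by push_cast at hre ⊢; linarith)
    · rw [h1, h1'] at him
      rw [h2, h2'] at hre
      have hp : p.2 = p'.2 := by
        have : (p.2 : ℝ) = p'.2 := by linarith
        exact_mod_cast this
      rcases int_seg he1 he1' hs hs1 hs' hs1' (a := p.1) (c := p'.1)
        (by push_cast at hre ⊢; linarith) with ⟨h3, h4, h5⟩ | ⟨h3, h4⟩
      · exact Or.inl ⟨Prod.ext h3 hp, h5⟩
      · exact Or.inr ⟨Prod.ext (by rw [h2', h3]) (by rw [h1', hp]),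
          Prod.ext (by rw [h2, h4]) (by rw [h1, hp])⟩

lemma poly_injOn (v : ℕ → ℤ × ℤ) (m : ℕ) (hm : 3 ≤ m) (hclosed : v m = v 0)
    (hadj : ∀ i < m, adj (v i) (v (i + 1)))
    (hinj : ∀ i < m, ∀ j < m, v i = v j → i = j) : InjOn (poly v m) (Ico (0 : ℝ) m) := by
  intro t ht t' ht' h
  have split : ∀ t ∈ Ico (0 : ℝ) m, ∃ (k : ℕ) (s : ℝ), k < m ∧ 0 ≤ s ∧ s < 1 ∧ t = k + s := by
    intro t ht
    refine ⟨⌊t⌋₊, t - ⌊t⌋₊, ?_, ?_, ?_, by ring⟩
    · rw [Nat.floor_lt ht.1]; exact ht.2
    · have := Nat.floor_le ht.1; linarith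
    · have := Nat.lt_floor_add_one t; linarith
  obtain ⟨k, s, hk, hs0, hs1, rfl⟩ := split t ht
  obtain ⟨l, s', hl, hs0', hs1', rfl⟩ := split t' ht'
  rw [poly_on v m hk hs0 hs1.le, poly_on v m hl hs0' hs1'.le] at h
  rcases edge_inter (hadj k hk) (hadj l hl) hs0 hs1 hs0' hs1' h with ⟨h1, h2⟩ | ⟨h1, h2⟩
  · rw [hinj k hk l hl h1, h2]
  · exfalso
    have e1 : k = l + 1 ∨ (l + 1 = m ∧ k = 0) := by
      rcases Nat.lt_or_ge (l + 1) m with h3 | h3
      · exact Or.inl (hinj k hk (l + 1) h3 h1)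
      · have : l + 1 = m := by omega
        rw [this, hclosed] at h1
        exact Or.inr ⟨this, hinj k hk 0 (by omega) h1⟩
    have e2 : l = k + 1 ∨ (k + 1 = m ∧ l = 0) := by
      rcases Nat.lt_or_ge (k + 1) m with h3 | h3
      · exact Or.inl (hinj l hl (k + 1) h3 h2.symm)
      · have : k + 1 = m := by omega
        rw [this, hclosed] at h2
        exact Or.inr ⟨this, hinj l hl 0 (by omega) h2.symm⟩
    omega

/-- The discrete winding number of a simple closed lattice polygon about a far point. -/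
theorem lattice_winding (v : ℕ → ℤ × ℤ) (m : ℕ) (hm : 3 ≤ m) (hclosed : v m = v 0)
    (hadj : ∀ i < m, adj (v i) (v (i + 1)))
    (hinj : ∀ i < m, ∀ j < m, v i = v j → i = j) (a : ℂ)
    (hfar : ∀ i ≤ m, 1 < ‖pt (v i) - a‖) :
    ∃ k : ℤ, |k| ≤ 1 ∧ ∑ i ∈ Finset.range m,
      Complex.log ((pt (v (i + 1)) - a) / (pt (v i) - a)) = k * (2 * Real.pi * Complex.I) := by
  have hm0 : (0 : ℝ) < m := by exact_mod_cast (by omega : 0 < m)
  have : Fact ((0 : ℝ) < m) := ⟨hm0⟩
  let H : AddCircle (m : ℝ) ≃ₜ Circle := AddCircle.homeomorphCircle hm0.ne'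
  have hcl : poly v m 0 = poly v m m := by
    have h1 := poly_nat v m (k := 0) (by omega) (by omega)
    have h2 := poly_nat v m (k := m) le_rfl (by omega)
    rw [h2, hclosed]
    simpa using h1
  let G : AddCircle (m : ℝ) → ℂ := AddCircle.liftIco (m : ℝ) 0 (poly v m)
  have hG : Continuous G := AddCircle.liftIco_zero_continuous hcl (poly_cont v m).continuousOn
  have hGi : Function.Injective G := by
    intro x y h
    have hinj' := poly_injOn v m hm hclosed hadj hinj
    have h1 : poly v m (AddCircle.equivIco (m : ℝ) 0 x) = poly v m (AddCircle.equivIco (m : ℝ) 0 y) := h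
    have hx' := (AddCircle.equivIco (m : ℝ) 0 x).2
    have hy' := (AddCircle.equivIco (m : ℝ) 0 y).2
    have hx : ((AddCircle.equivIco (m : ℝ) 0 x : Ico (0 : ℝ) (0 + m)) : ℝ) ∈ Ico (0 : ℝ) m :=
      ⟨hx'.1, by linarith [hx'.2]⟩
    have hy : ((AddCircle.equivIco (m : ℝ) 0 y : Ico (0 : ℝ) (0 + m)) : ℝ) ∈ Ico (0 : ℝ) m :=
      ⟨hy'.1, by linarith [hy'.2]⟩
    have h2 := hinj' hx hy h1
    exact (AddCircle.equivIco (m : ℝ) 0).injective (Subtype.ext h2)
  let γ : Circle → ℂ := fun z => G (H.symm z)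
  have hγ : Continuous γ := hG.comp H.symm.continuous
  have hγi : Function.Injective γ := hGi.comp H.symm.injective
  let e : ℝ → Circle := fun t => Circle.exp (2 * Real.pi / m * t)
  have he : Continuous e := by fun_prop
  have heH : ∀ t : ℝ, e t = H (t : AddCircle (m : ℝ)) := by
    intro t
    rw [AddCircle.homeomorphCircle_apply]
    rfl
  have hγe : ∀ t ∈ Icc (0 : ℝ) m, γ (e t) = poly v m t := by
    intro t ht
    simp only [γ]
    rw [heH, H.symm_apply_apply]
    rcases ht.2.lt_or_eq with h | h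
    · exact AddCircle.liftIco_zero_coe_apply ⟨ht.1, h⟩
    · have h1 : ((t : ℝ) : AddCircle (m : ℝ)) = ((0 : ℝ) : AddCircle (m : ℝ)) := by
        rw [h]; simp
      rw [h1, h, ← hcl]
      exact AddCircle.liftIco_zero_coe_apply ⟨le_rfl, hm0⟩
  -- distance of the polygon from a
  have hnear : ∀ k < m, ∀ s : ℝ, 0 ≤ s → s ≤ 1 →
      ‖(poly v m (k + s) - a) - (pt (v k) - a)‖ < ‖pt (v k) - a‖ := by
    intro k hk s h0 h1
    rw [poly_on v m hk h0 h1]
    have : pt (v k) + s * (pt (v (k + 1)) - pt (v k)) - a - (pt (v k) - a) =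
        s * (pt (v (k + 1)) - pt (v k)) := by ring
    rw [this, norm_mul, Complex.norm_real, Real.norm_eq_abs, abs_of_nonneg h0]
    have h2 := adj_norm (hadj k hk)
    have h3 := hfar k hk.le
    have h4 := norm_nonneg (pt (v (k + 1)) - pt (v k))
    nlinarith
  have hane : ∀ k < m, ∀ s : ℝ, 0 ≤ s → s ≤ 1 → 0 < ((poly v m (k + s) - a) / (pt (v k) - a)).re :=
    fun k hk s h0 h1 => re_pos_of_near (hnear k hk s h0 h1)
  have hsurj : ∀ z : Circle, ∃ (k : ℕ) (s : ℝ), k < m ∧ 0 ≤ s ∧ s ≤ 1 ∧ z = e (k + s) := by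
    intro z
    have hx' := (AddCircle.equivIco (m : ℝ) 0 (H.symm z)).2
    have hx : ((AddCircle.equivIco (m : ℝ) 0 (H.symm z) : Ico (0 : ℝ) (0 + m)) : ℝ) ∈
      Ico (0 : ℝ) m := ⟨hx'.1, by linarith [hx'.2]⟩
    set t : ℝ := ((AddCircle.equivIco (m : ℝ) 0 (H.symm z) : Ico (0 : ℝ) (0 + m)) : ℝ) with ht
    refine ⟨⌊t⌋₊, t - ⌊t⌋₊, ?_, ?_, ?_, ?_⟩
    · rw [Nat.floor_lt hx.1]; exact hx.2
    · have := Nat.floor_le hx.1; linarith
    · have := Nat.lt_floor_add_one t; linarith
    · rw [add_sub_cancel, heH, ht, AddCircle.coe_equivIco, H.apply_symm_apply]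
  have ha : a ∉ range γ := by
    rintro ⟨z, hz⟩
    obtain ⟨k, s, hk, h0, h1, rfl⟩ := hsurj z
    have hkm : (k : ℝ) + 1 ≤ m := by exact_mod_cast hk
    rw [hγe (k + s) ⟨by positivity, by linarith⟩] at hz
    have := hane k hk s h0 h1
    rw [hz, sub_self, zero_div] at this
    simp at this
  obtain ⟨k, hk, h, hc, hh⟩ := jordan_winding γ hγ hγi a ha
  refine ⟨k, hk, ?_⟩
  let L : ℝ → ℂ := fun t => k * ((2 * Real.pi / m * t : ℝ) * Complex.I) + h (e t)
  have hL : Continuous L := by
    simp only [L]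
    fun_prop
  have hLexp : ∀ t ∈ Icc (0 : ℝ) m, Complex.exp (L t) = poly v m t - a := by
    intro t ht
    simp only [L]
    rw [Complex.exp_add, Complex.exp_int_mul, ← Circle.coe_exp]
    have h1 : (γ (e t) - a) * ((((e t : Circle) : ℂ) ^ k))⁻¹ = Complex.exp (h (e t)) := hh (e t)
    rw [hγe t ht] at h1
    have h2 : ((Circle.exp (2 * Real.pi / m * t) : Circle) : ℂ) = ((e t : Circle) : ℂ) := rfl
    rw [h2, ← h1]
    have := zpow_ne_zero k (Circle.coe_ne_zero (e t))
    field_simp
  have hstep : ∀ i < m, L ((i + 1 : ℕ) : ℝ) - L (i : ℝ) =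
      Complex.log ((pt (v (i + 1)) - a) / (pt (v i) - a)) := by
    intro i hi
    have him : (i : ℝ) + 1 ≤ m := by exact_mod_cast hi
    let D : unitInterval → ℂ := fun s => L (i + s) - L i -
      Complex.log ((poly v m (i + s) - a) / (pt (v i) - a))
    have hD : Continuous D := by
      have hp := poly_cont v m
      simp only [D]
      apply Continuous.sub
      · fun_prop
      · apply Continuous.clog
        · fun_prop
        · intro s
          exact Or.inl (hane i hi s s.2.1 s.2.2)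
    have hD1 : ∀ s, Complex.exp (D s) = 1 := by
      intro s
      have hs0 := s.2.1
      have hs1 := s.2.2
      have hpos := hane i hi s s.2.1 s.2.2
      simp only [D]
      rw [Complex.exp_sub, Complex.exp_sub, hLexp (i + s) ⟨by positivity, by linarith⟩,
        hLexp i ⟨by positivity, by linarith⟩, Complex.exp_log]
      · rw [poly_nat v m hi.le (by omega), div_self]
        intro h0
        rw [h0] at hpos
        simp at hpos
      · intro h0
        rw [h0] at hpos
        simp at hpos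
    have h3 := const_of_exp_one hD hD1 0 1
    have hp0 : poly v m (i : ℝ) = pt (v i) := poly_nat v m hi.le (by omega)
    have hp1 : poly v m ((i : ℝ) + 1) = pt (v (i + 1)) := by
      have := poly_nat v m (k := i + 1) (by omega) (by omega)
      push_cast at this
      exact this
    have hne : pt (v i) - a ≠ 0 := by
      intro h0
      have := hfar i hi.le
      rw [h0, norm_zero] at this
      linarith
    simp only [D, Set.Icc.coe_zero, Set.Icc.coe_one, add_zero, sub_self, zero_sub] at h3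
    rw [hp0, hp1, div_self hne, Complex.log_one, neg_zero] at h3
    push_cast
    linear_combination -h3
  rw [← Finset.sum_congr rfl (fun i hi => hstep i (Finset.mem_range.mp hi)),
    Finset.sum_range_sub (fun i : ℕ => L (i : ℝ))]
  have hem : e m = e 0 := by
    rw [heH, heH]
    congr 1
    simp
  simp only [L, Nat.cast_zero]
  rw [hem]
  have hm0' : (m : ℂ) ≠ 0 := by exact_mod_cast hm0.ne'
  push_cast
  field_simp
  ring

end Pool.Agent.Helper188_Cone
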