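import Mathlib

/-! Rank one projections attached to unit vectors of three-space, and products of them. -/

namespace Pool.Agent.Helper188_Cone

open Set Topology Filter Matrix

abbrev E3 := EuclideanSpace ℝ (Fin 3)

/-- The rank one projection attached to a unit vector. -/
noncomputable def P (w : E3) : Matrix (Fin 2) (Fin 2) ℂ :=
  !![(1 + (w 2 : ℂ)) / 2, ((w 0 : ℂ) - Complex.I * (w 1 : ℂ)) / 2;
     ((w 0 : ℂ) + Complex.I * (w 1 : ℂ)) / 2, (1 - (w 2 : ℂ)) / 2]

lemma P_cont : Continuous P := by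
  unfold P
  refine continuous_matrix ?_
  intro i j
  fin_cases i <;> fin_cases j <;> simp <;> fun_prop

lemma P_adj (w : E3) : (P w).adjugate = P (-w) := by
  unfold P
  rw [Matrix.adjugate_fin_two_of]
  ext i j
  fin_cases i <;> fin_cases j <;> simp <;> ring

lemma sq_of_norm {w : E3} (h : ‖w‖ = 1) : (w 0 : ℂ) ^ 2 + (w 1 : ℂ) ^ 2 + (w 2 : ℂ) ^ 2 = 1 := by
  have := EuclideanSpace.norm_sq_eq w
  rw [h, Fin.sum_univ_three] at this
  simp only [Real.norm_eq_abs, sq_abs] at this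
  have h2 : w 0 ^ 2 + w 1 ^ 2 + w 2 ^ 2 = 1 := by linarith
  have h3 := congrArg (fun t : ℝ => (t : ℂ)) h2
  push_cast at h3
  exact h3

lemma inner_eq (w w' : E3) : inner ℝ w w' = w 0 * w' 0 + w 1 * w' 1 + w 2 * w' 2 := by
  rw [PiLp.inner_apply, Fin.sum_univ_three]
  simp [mul_comm]

lemma abs_tri (c z y c' z' y' : ℂ) (h : y * z = 1 - c ^ 2) :
    (!![(1 + c) / 2, y / 2; z / 2, (1 - c) / 2] : Matrix (Fin 2) (Fin 2) ℂ) *
      !![(1 + c') / 2, y' / 2; z' / 2, (1 - c') / 2] *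
      !![(1 + c) / 2, y / 2; z / 2, (1 - c) / 2] =
    ((1 + ((z * y' + y * z') / 2 + c * c')) / 2) •
      !![(1 + c) / 2, y / 2; z / 2, (1 - c) / 2] := by
  ext i j
  fin_cases i <;> fin_cases j <;> simp [Matrix.mul_apply, Fin.sum_univ_two]
  · linear_combination (1 - c') / 8 * h
  · linear_combination (- y') / 8 * h
  · linear_combination (- z') / 8 * h
  · linear_combination (1 + c') / 8 * h

lemma yz_eq {w : E3} (h : ‖w‖ = 1) :
    ((w 0 : ℂ) - Complex.I * (w 1 : ℂ)) * ((w 0 : ℂ) + Complex.I * (w 1 : ℂ))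
      = 1 - (w 2 : ℂ) ^ 2 := by
  have h1 := sq_of_norm h
  have hI : Complex.I ^ 2 = -1 := Complex.I_sq
  linear_combination h1 - (w 1 : ℂ) ^ 2 * hI

lemma P_tri {w w' : E3} (h : ‖w‖ = 1) :
    P w * P w' * P w = ((1 + (inner ℝ w w' : ℝ) : ℂ) / 2) • P w := by
  unfold P
  rw [abs_tri _ _ _ _ _ _ (yz_eq h), inner_eq]
  congr 1
  have hI : Complex.I ^ 2 = -1 := Complex.I_sq
  push_cast
  linear_combination (- (w 1 : ℂ) * (w' 1 : ℂ)) / 2 * hI

lemma P_idem {w : E3} (h : ‖w‖ = 1) : P w * P w = P w := by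
  have h1 := yz_eq h
  unfold P
  set y := ((w 0 : ℂ) - Complex.I * (w 1 : ℂ))
  set z := ((w 0 : ℂ) + Complex.I * (w 1 : ℂ))
  ext i j
  fin_cases i <;> fin_cases j <;> simp [Matrix.mul_apply, Fin.sum_univ_two]
  · linear_combination h1 / 4
  · ring
  · ring
  · linear_combination h1 / 4

/-- The symmetric product `f (-n) ⋯ f 0 ⋯ f n`. -/
noncomputable def prodI (f : ℤ → Matrix (Fin 2) (Fin 2) ℂ) : ℕ → Matrix (Fin 2) (Fin 2) ℂ
  | 0 => f 0
  | (n + 1) => f (-((n : ℤ) + 1)) * prodI f n * f ((n : ℤ) + 1)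

lemma prodI_adj (f f' : ℤ → Matrix (Fin 2) (Fin 2) ℂ) (h : ∀ k, f' k = (f (-k)).adjugate) (n : ℕ) :
    prodI f' n = (prodI f n).adjugate := by
  induction n with
  | zero => simp [prodI, h]
  | succ n ih =>
    simp only [prodI]
    rw [Matrix.adjugate_mul_distrib, Matrix.adjugate_mul_distrib, ih, h, h]
    simp [Matrix.mul_assoc]

lemma prodI_left (w : ℤ → E3) (hw : ∀ k, ‖w k‖ = 1) (n : ℕ) :
    P (w (-(n : ℤ))) * prodI (fun k => P (w k)) n = prodI (fun k => P (w k)) n := by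
  cases n with
  | zero => simpa [prodI] using P_idem (hw 0)
  | succ n =>
    simp only [prodI]
    rw [← Matrix.mul_assoc, ← Matrix.mul_assoc]
    have : (-((n + 1 : ℕ) : ℤ)) = -((n : ℤ) + 1) := by push_cast; ring
    rw [this, P_idem (hw _)]

lemma prodI_right (w : ℤ → E3) (hw : ∀ k, ‖w k‖ = 1) (n : ℕ) :
    prodI (fun k => P (w k)) n * P (w (n : ℤ)) = prodI (fun k => P (w k)) n := by
  cases n with
  | zero => simpa [prodI] using P_idem (hw 0)
  | succ n =>
    simp only [prodI]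
    have : (((n + 1 : ℕ) : ℤ)) = ((n : ℤ) + 1) := by push_cast; ring
    rw [this, Matrix.mul_assoc, P_idem (hw _)]

lemma prodI_ne (w : ℤ → E3) (hw : ∀ k, ‖w k‖ = 1)
    (hc : ∀ k, inner ℝ (w k) (w (k + 1)) ≠ (-1 : ℝ)) (n : ℕ) :
    prodI (fun k => P (w k)) n ≠ 0 := by
  induction n with
  | zero =>
    simp only [prodI]
    intro h
    have h0 := congrArg (fun M : Matrix (Fin 2) (Fin 2) ℂ => M 0 0 + M 1 1) h
    simp [P] at h0
    have : (1 : ℂ) = 0 := by linear_combination h0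
    exact one_ne_zero this
  | succ n ih =>
    intro h
    simp only [prodI] at h
    apply ih
    set A := prodI (fun k => P (w k)) n with hA
    have hl := prodI_left w hw n
    have hr := prodI_right w hw n
    rw [← hA] at hl hr
    -- compute
    have h1 : P (w (-(n : ℤ))) * P (w (-((n : ℤ) + 1))) * P (w (-(n : ℤ))) * A *
        (P (w (n : ℤ)) * P (w ((n : ℤ) + 1)) * P (w (n : ℤ))) = 0 := by
      have : P (w (-(n : ℤ))) * P (w (-((n : ℤ) + 1))) * P (w (-(n : ℤ))) * A *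
          (P (w (n : ℤ)) * P (w ((n : ℤ) + 1)) * P (w (n : ℤ))) =
          P (w (-(n : ℤ))) * (P (w (-((n : ℤ) + 1))) * ((P (w (-(n : ℤ))) * A) * P (w (n : ℤ))) *
            P (w ((n : ℤ) + 1))) * P (w (n : ℤ)) := by
        simp only [Matrix.mul_assoc]
      rw [this, hl, hr, h]
      simp
    rw [P_tri (hw _), P_tri (hw _)] at h1
    have ca : ((1 + (inner ℝ (w (-(n : ℤ))) (w (-((n : ℤ) + 1))) : ℝ) : ℂ) / 2) ≠ 0 := by
      have := hc (-((n : ℤ) + 1))
      rw [show (-((n : ℤ) + 1) + 1) = -(n : ℤ) by ring, real_inner_comm] at this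
      intro h0
      apply this
      have h2 : (1 + (inner ℝ (w (-(n : ℤ))) (w (-((n : ℤ) + 1))) : ℝ) : ℂ) = 0 := by
        linear_combination 2 * h0
      have h3 : ((1 + inner ℝ (w (-(n : ℤ))) (w (-((n : ℤ) + 1))) : ℝ) : ℂ) = 0 := by
        push_cast; exact h2
      have h4 := Complex.ofReal_eq_zero.mp h3
      linarith
    have cb : ((1 + (inner ℝ (w (n : ℤ)) (w ((n : ℤ) + 1)) : ℝ) : ℂ) / 2) ≠ 0 := by
      have := hc (n : ℤ)
      intro h0
      apply this
      have h2 : (1 + (inner ℝ (w (n : ℤ)) (w ((n : ℤ) + 1)) : ℝ) : ℂ) = 0 := by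
        linear_combination 2 * h0
      have h3 : ((1 + inner ℝ (w (n : ℤ)) (w ((n : ℤ) + 1)) : ℝ) : ℂ) = 0 := by
        push_cast; exact h2
      have h4 := Complex.ofReal_eq_zero.mp h3
      linarith
    rw [smul_mul_assoc, hl, Matrix.mul_smul, Matrix.smul_mul, hr, smul_smul, smul_eq_zero] at h1
    rcases h1 with h1 | h1
    · exact absurd h1 (mul_ne_zero cb ca)
    · exact h1

end Pool.Agent.Helper188_Cone
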