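import Pool.Agent.Helper188_Cone.LoopErase

/-! A long almost closed chain in the plane cannot exist. -/

namespace Pool.Agent.Helper188_Cone

open Set Topology Filter Complex

/-- the refined lattice walk of a chain -/
noncomputable def lw (p : ℕ → ℂ) (j : ℕ) : ℤ × ℤ :=
  (⌊(p ((j + 1) / 2)).re⌋, ⌊(p (j / 2)).im⌋)

lemma floor_near {x y : ℝ} (h : |x - y| < 1 / 2) : ⌊x⌋ ≤ ⌊y⌋ + 1 ∧ ⌊y⌋ ≤ ⌊x⌋ + 1 := by
  have h1 := abs_lt.mp h
  have a1 := Int.floor_le x
  have a2 := Int.lt_floor_add_one x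
  have b1 := Int.floor_le y
  have b2 := Int.lt_floor_add_one y
  constructor
  · have : (⌊x⌋ : ℝ) < ⌊y⌋ + 2 := by linarith [h1.2]
    have : ⌊x⌋ < ⌊y⌋ + 2 := by exact_mod_cast this
    omega
  · have : (⌊y⌋ : ℝ) < ⌊x⌋ + 2 := by linarith [h1.1]
    have : ⌊y⌋ < ⌊x⌋ + 2 := by exact_mod_cast this
    omega

lemma lw_step (p : ℕ → ℂ) (n : ℕ) (hp : ∀ i < n, ‖p (i + 1) - p i‖ < 1 / 2) (j : ℕ)
    (hj : j < 2 * n) : lw p (j + 1) = lw p j ∨ adj (lw p j) (lw p (j + 1)) := by
  rcases Nat.even_or_odd' j with ⟨i, rfl | rfl⟩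
  · -- j = 2 i
    have e1 : (2 * i + 1 + 1) / 2 = i + 1 := by omega
    have e2 : (2 * i + 1) / 2 = i := by omega
    have e3 : (2 * i) / 2 = i := by omega
    have h1 := le_trans (Complex.abs_re_le_norm (p (i + 1) - p i)) (hp i (by omega)).le
    have h1' : |(p (i + 1)).re - (p i).re| < 1 / 2 := by
      have := lt_of_le_of_lt (Complex.abs_re_le_norm (p (i + 1) - p i)) (hp i (by omega))
      simpa using this
    obtain ⟨h2, h3⟩ := floor_near h1'
    unfold lw adj
    rw [e1, e2, e3]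
    simp only
    by_cases h4 : ⌊(p (i + 1)).re⌋ = ⌊(p i).re⌋
    · left; rw [h4]
    · right; right
      refine ⟨by trivial, ?_⟩
      omega
  · have e1 : (2 * i + 1 + 1 + 1) / 2 = i + 1 := by omega
    have e2 : (2 * i + 1 + 1) / 2 = i + 1 := by omega
    have e3 : (2 * i + 1) / 2 = i := by omega
    have h1' : |(p (i + 1)).im - (p i).im| < 1 / 2 := by
      have := lt_of_le_of_lt (Complex.abs_im_le_norm (p (i + 1) - p i)) (hp i (by omega))
      simpa using this
    obtain ⟨h2, h3⟩ := floor_near h1'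
    unfold lw adj
    rw [e1, e2, e3]
    simp only
    by_cases h4 : ⌊(p (i + 1)).im⌋ = ⌊(p i).im⌋
    · left; rw [h4]
    · right; left
      refine ⟨by trivial, ?_⟩
      omega

lemma lw_near (p : ℕ → ℂ) (n : ℕ) (hp : ∀ i < n, ‖p (i + 1) - p i‖ < 1 / 2) (j : ℕ)
    (hj : j ≤ 2 * n) : ‖pt (lw p j) - p (j / 2)‖ ≤ 3 := by
  have him : |(pt (lw p j) - p (j / 2)).im| ≤ 1 := by
    simp only [Complex.sub_im, pt_im, lw]
    have b1 := Int.floor_le (p (j / 2)).im
    have b2 := Int.lt_floor_add_one (p (j / 2)).im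
    rw [abs_le]; constructor <;> linarith
  have hre : |(pt (lw p j) - p (j / 2)).re| ≤ 3 / 2 := by
    simp only [Complex.sub_re, pt_re, lw]
    have b1 := Int.floor_le (p ((j + 1) / 2)).re
    have b2 := Int.lt_floor_add_one (p ((j + 1) / 2)).re
    have h3 : |(p ((j + 1) / 2)).re - (p (j / 2)).re| ≤ 1 / 2 := by
      rcases Nat.even_or_odd' j with ⟨i, rfl | rfl⟩
      · have e2 : (2 * i + 1) / 2 = i := by omega
        have e3 : (2 * i) / 2 = i := by omega
        rw [e2, e3]; simp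
      · have e2 : (2 * i + 1 + 1) / 2 = i + 1 := by omega
        have e3 : (2 * i + 1) / 2 = i := by omega
        rw [e2, e3]
        have := lt_of_le_of_lt (Complex.abs_re_le_norm (p (i + 1) - p i)) (hp i (by omega))
        simp only [Complex.sub_re] at this
        exact this.le
    have h4 := abs_le.mp h3
    rw [abs_le]; constructor <;> linarith [h4.1, h4.2]
  have := norm_le_of_coord hre him
  linarith

lemma log_small {x y : ℂ} {D e : ℝ} (hD : 0 < D) (hx : D ≤ ‖x‖) (hxy : ‖y - x‖ ≤ e)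
    (he : e ≤ D / 2) : ‖Complex.log (y / x)‖ ≤ 3 / 2 * (e / D) := by
  have hx0 : x ≠ 0 := by
    intro h; rw [h, norm_zero] at hx; linarith
  have h1 : y / x = 1 + (y - x) / x := by field_simp; ring
  have h2 : ‖(y - x) / x‖ ≤ e / D := by
    rw [norm_div]
    have he0 : 0 ≤ e := le_trans (norm_nonneg _) hxy
    exact div_le_div₀ he0 hxy hD hx
  have h3 : e / D ≤ 1 / 2 := by
    rw [div_le_iff₀ hD]; linarith
  rw [h1]
  calc ‖Complex.log (1 + (y - x) / x)‖ ≤ 3 / 2 * ‖(y - x) / x‖ :=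
        Complex.norm_log_one_add_half_le_self (le_trans h2 h3)
    _ ≤ 3 / 2 * (e / D) := by linarith

lemma zero_of_exp_one {z : ℂ} (h : Complex.exp z = 1) (hz : ‖z‖ < 6) : z = 0 := by
  rw [Complex.exp_eq_one_iff] at h
  obtain ⟨n, rfl⟩ := h
  have h1 : ‖(n : ℂ) * (2 * Real.pi * Complex.I)‖ = |(n : ℝ)| * (2 * Real.pi) := by
    rw [norm_mul, norm_mul, norm_mul, Complex.norm_I, mul_one, Complex.norm_intCast,
      Complex.norm_real, Real.norm_eq_abs, abs_of_pos Real.pi_pos]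
    simp
  rw [h1] at hz
  have h2 := Real.pi_gt_three
  have h3 : |(n : ℝ)| < 1 := by
    by_contra hn
    push Not at hn
    nlinarith
  have h4 : |n| < 1 := by exact_mod_cast h3
  have : n = 0 := by
    rw [Int.abs_lt_one_iff] at h4; exact h4
  rw [this]; simp

theorem no_long_chain {ι : Type*} (s : Finset ι) (a : ι → ℂ) (w : ι → ℤ) (n : ℕ)
    (p : ℕ → ℂ) (σ : ℕ → ℝ) (η : ℕ → ℂ) (B : ℝ) (hB : B = ∑ c ∈ s, |(w c : ℝ)|)
    (hfar : ∀ i ≤ n, ∀ c ∈ s, 100 * (B + 1) ≤ ‖p i - a c‖)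
    (hp : ∀ i < n, ‖p (i + 1) - p i‖ < 1 / 2) (hσ : ∀ i < n, |σ (i + 1) - σ i| < 1 / 10)
    (hη : ∀ i < n, ‖η (i + 1) - η i‖ < 1 / 4) (f₀ : ℂ) (hf₀ : f₀ ≠ 0)
    (hrep : ∀ i ≤ n, Complex.exp (2 * Real.pi * σ i * Complex.I) * f₀ =
      (∏ c ∈ s, (p i - a c) ^ (w c)) * Complex.exp (η i))
    (hclose : ∀ i ≤ n, ∀ j ≤ n, ‖p i - p j‖ ≤ 6 → ‖η i - η j‖ ≤ 1 / 4 ∧
      (|σ i - σ j| < 1 / 8 ∨ 2 * (B + 2) < |σ i - σ j|))
    (hex : ∃ i j, i < j ∧ j ≤ n ∧ lw p (2 * i) = lw p (2 * j) ∧ 1 / 8 ≤ |σ i - σ j|) : False := by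
  have hB0 : 0 ≤ B := by rw [hB]; exact Finset.sum_nonneg (fun c _ => abs_nonneg _)
  set D : ℝ := 100 * (B + 1) with hD
  have hDpos : 0 < D := by positivity
  have hD100 : 100 ≤ D := by rw [hD]; linarith
  have hhalf : ∀ j, j ≤ 2 * n → j / 2 ≤ n := fun j hj => by omega
  have hnear := lw_near p n hp
  -- distance of lattice points from the centres
  have hv1 : ∀ j ≤ 2 * n, ∀ c ∈ s, 1 < ‖pt (lw p j) - a c‖ := by
    intro j hj c hc
    have h1 := hfar (j / 2) (hhalf j hj) c hc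
    have h2 := hnear j hj
    have h3 : ‖p (j / 2) - a c‖ ≤ ‖pt (lw p j) - p (j / 2)‖ + ‖pt (lw p j) - a c‖ := by
      calc ‖p (j / 2) - a c‖ = ‖-(pt (lw p j) - p (j / 2)) + (pt (lw p j) - a c)‖ := by
            congr 1; ring
        _ ≤ ‖-(pt (lw p j) - p (j / 2))‖ + ‖pt (lw p j) - a c‖ := norm_add_le _ _
        _ = _ := by rw [norm_neg]
    linarith
  have hpne : ∀ i ≤ n, ∀ c ∈ s, p i - a c ≠ 0 := by
    intro i hi c hc h0
    have := hfar i hi c hc
    rw [h0, norm_zero] at this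
    linarith
  have hvne : ∀ j ≤ 2 * n, ∀ c ∈ s, pt (lw p j) - a c ≠ 0 := by
    intro j hj c hc h0
    have := hv1 j hj c hc
    rw [h0, norm_zero] at this
    linarith
  let Dj : ℕ → ℂ := fun j => ∑ c ∈ s, (w c : ℂ) *
    Complex.log ((pt (lw p j) - a c) / (p (j / 2) - a c))
  let Λ : ℕ → ℂ := fun j => 2 * Real.pi * σ (j / 2) * Complex.I - η (j / 2) + Dj j
  -- general bound for weighted sums
  have hsumle : ∀ F : ι → ℂ, ∀ e : ℝ, 0 ≤ e → (∀ c ∈ s, ‖F c‖ ≤ 3 / 2 * (e / D)) →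
      ‖∑ c ∈ s, (w c : ℂ) * F c‖ ≤ 3 / 2 * e / 100 := by
    intro F e he hF
    calc ‖∑ c ∈ s, (w c : ℂ) * F c‖ ≤ ∑ c ∈ s, ‖(w c : ℂ) * F c‖ := norm_sum_le _ _
      _ ≤ ∑ c ∈ s, |(w c : ℝ)| * (3 / 2 * (e / D)) := by
          apply Finset.sum_le_sum
          intro c hc
          rw [norm_mul, Complex.norm_intCast]
          exact mul_le_mul_of_nonneg_left (hF c hc) (abs_nonneg _)
      _ = B * (3 / 2 * (e / D)) := by rw [← Finset.sum_mul, hB]
      _ ≤ (D / 100) * (3 / 2 * (e / D)) := by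
          apply mul_le_mul_of_nonneg_right
          · rw [hD]; linarith
          · positivity
      _ = 3 / 2 * e / 100 := by field_simp
  have hDj : ∀ j ≤ 2 * n, ‖Dj j‖ ≤ 1 / 20 := by
    intro j hj
    have := hsumle (fun c => Complex.log ((pt (lw p j) - a c) / (p (j / 2) - a c))) 3 (by norm_num)
      (fun c hc => log_small hDpos (hfar (j / 2) (hhalf j hj) c hc) (by
        have : pt (lw p j) - a c - (p (j / 2) - a c) = pt (lw p j) - p (j / 2) := by ring
        rw [this]; exact hnear j hj) (by linarith))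
    refine le_trans this ?_
    norm_num
  -- exponentials
  have hexpΛ : ∀ j ≤ 2 * n, Complex.exp (Λ j) * f₀ = ∏ c ∈ s, (pt (lw p j) - a c) ^ (w c) := by
    intro j hj
    simp only [Λ, Dj]
    rw [Complex.exp_add, Complex.exp_sub, Complex.exp_sum]
    have h1 := hrep (j / 2) (hhalf j hj)
    have h2 : ∏ c ∈ s, Complex.exp ((w c : ℂ) *
        Complex.log ((pt (lw p j) - a c) / (p (j / 2) - a c))) =
        (∏ c ∈ s, (pt (lw p j) - a c) ^ (w c)) / ∏ c ∈ s, (p (j / 2) - a c) ^ (w c) := by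
      rw [← Finset.prod_div_distrib]
      apply Finset.prod_congr rfl
      intro c hc
      rw [Complex.exp_int_mul, Complex.exp_log
        (div_ne_zero (hvne j hj c hc) (hpne _ (hhalf j hj) c hc)), div_zpow]
    rw [h2]
    have h3 : ∏ c ∈ s, (p (j / 2) - a c) ^ (w c) ≠ 0 :=
      Finset.prod_ne_zero_iff.mpr (fun c hc => zpow_ne_zero _ (hpne _ (hhalf j hj) c hc))
    have h4 := Complex.exp_ne_zero (η (j / 2))
    calc Complex.exp (2 * Real.pi * σ (j / 2) * Complex.I) / Complex.exp (η (j / 2)) *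
          ((∏ c ∈ s, (pt (lw p j) - a c) ^ (w c)) / ∏ c ∈ s, (p (j / 2) - a c) ^ (w c)) * f₀ =
          (Complex.exp (2 * Real.pi * σ (j / 2) * Complex.I) * f₀) / Complex.exp (η (j / 2)) *
          ((∏ c ∈ s, (pt (lw p j) - a c) ^ (w c)) / ∏ c ∈ s, (p (j / 2) - a c) ^ (w c)) := by ring
      _ = _ := by rw [h1]; field_simp
  -- one step
  have hstep : ∀ j < 2 * n, incr s a w (lw p j) (lw p (j + 1)) = Λ (j + 1) - Λ j := by
    intro j hj
    have hj1 : j / 2 ≤ n := by omega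
    have hj2 : (j + 1) / 2 ≤ n := by omega
    have hpp : ‖p ((j + 1) / 2) - p (j / 2)‖ ≤ 1 / 2 ∧ |σ ((j + 1) / 2) - σ (j / 2)| ≤ 1 / 10 ∧
        ‖η ((j + 1) / 2) - η (j / 2)‖ ≤ 1 / 4 := by
      rcases Nat.even_or_odd' j with ⟨i, rfl | rfl⟩
      · have e2 : (2 * i + 1) / 2 = i := by omega
        have e3 : (2 * i) / 2 = i := by omega
        rw [e2, e3]; simp
      · have e2 : (2 * i + 1 + 1) / 2 = i + 1 := by omega
        have e3 : (2 * i + 1) / 2 = i := by omega
        rw [e2, e3]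
        exact ⟨(hp i (by omega)).le, (hσ i (by omega)).le, (hη i (by omega)).le⟩
    obtain ⟨hpp1, hpp2, hpp3⟩ := hpp
    -- logarithms
    have hlog : ∀ c ∈ s, Complex.log ((pt (lw p (j + 1)) - a c) / (pt (lw p j) - a c)) =
        Complex.log ((pt (lw p (j + 1)) - a c) / (p ((j + 1) / 2) - a c)) +
        Complex.log ((p ((j + 1) / 2) - a c) / (p (j / 2) - a c)) -
        Complex.log ((pt (lw p j) - a c) / (p (j / 2) - a c)) := by
      intro c hc
      have f1 := hfar (j / 2) hj1 c hc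
      have f2 := hfar ((j + 1) / 2) hj2 c hc
      have n1 := hnear j (by omega)
      have n2 := hnear (j + 1) (by omega)
      have z1 := hpne (j / 2) hj1 c hc
      have z2 := hpne ((j + 1) / 2) hj2 c hc
      have z3 := hvne j (by omega) c hc
      have r1 : 0 < ((pt (lw p j) - a c) / (p (j / 2) - a c)).re := by
        apply re_pos_of_near
        have : pt (lw p j) - a c - (p (j / 2) - a c) = pt (lw p j) - p (j / 2) := by ring
        rw [this]; linarith
      have r2 : 0 < ((p ((j + 1) / 2) - a c) / (p (j / 2) - a c)).re := by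
        apply re_pos_of_near
        have : p ((j + 1) / 2) - a c - (p (j / 2) - a c) = p ((j + 1) / 2) - p (j / 2) := by ring
        rw [this]; linarith
      have r3 : 0 < ((pt (lw p (j + 1)) - a c) / (p ((j + 1) / 2) - a c)).re := by
        apply re_pos_of_near
        have : pt (lw p (j + 1)) - a c - (p ((j + 1) / 2) - a c) =
          pt (lw p (j + 1)) - p ((j + 1) / 2) := by ring
        rw [this]; linarith
      have r4 : 0 < ((pt (lw p (j + 1)) - a c) / (p (j / 2) - a c)).re := by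
        apply re_pos_of_near
        have : pt (lw p (j + 1)) - a c - (p (j / 2) - a c) =
          (pt (lw p (j + 1)) - p ((j + 1) / 2)) + (p ((j + 1) / 2) - p (j / 2)) := by ring
        rw [this]
        refine lt_of_le_of_lt (norm_add_le _ _) ?_
        linarith
      have e1 : (pt (lw p (j + 1)) - a c) / (pt (lw p j) - a c) =
          ((pt (lw p (j + 1)) - a c) / (p (j / 2) - a c)) /
            ((pt (lw p j) - a c) / (p (j / 2) - a c)) := by
        rw [div_div_div_cancel_right₀ z1]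
      have e2 : (pt (lw p (j + 1)) - a c) / (p (j / 2) - a c) =
          ((pt (lw p (j + 1)) - a c) / (p ((j + 1) / 2) - a c)) *
            ((p ((j + 1) / 2) - a c) / (p (j / 2) - a c)) := by
        field_simp
      rw [e1, log_div_re r1 r4, e2, log_mul_re r3 r2]
    set M : ℂ := ∑ c ∈ s, (w c : ℂ) *
      Complex.log ((p ((j + 1) / 2) - a c) / (p (j / 2) - a c)) with hM
    have hincr : incr s a w (lw p j) (lw p (j + 1)) = Dj (j + 1) - Dj j + M := by
      unfold incr
      rw [Finset.sum_congr rfl (fun c hc => by rw [hlog c hc])]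
      simp only [Dj, hM, mul_sub, mul_add, Finset.sum_sub_distrib, Finset.sum_add_distrib]
      ring
    have hMsmall : ‖M‖ ≤ 1 / 20 := by
      have := hsumle (fun c => Complex.log ((p ((j + 1) / 2) - a c) / (p (j / 2) - a c))) (1 / 2)
        (by norm_num)
        (fun c hc => log_small hDpos (hfar (j / 2) hj1 c hc) (by
          have : p ((j + 1) / 2) - a c - (p (j / 2) - a c) = p ((j + 1) / 2) - p (j / 2) := by ring
          rw [this]; exact hpp1) (by linarith))
      refine le_trans this ?_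
      norm_num
    have hMeq : M - (2 * Real.pi * σ ((j + 1) / 2) * Complex.I - η ((j + 1) / 2) -
        (2 * Real.pi * σ (j / 2) * Complex.I - η (j / 2))) = 0 := by
      apply zero_of_exp_one
      · rw [Complex.exp_sub, Complex.exp_sub, Complex.exp_sub, Complex.exp_sub, hM, Complex.exp_sum]
        have h2 : ∏ c ∈ s, Complex.exp ((w c : ℂ) *
            Complex.log ((p ((j + 1) / 2) - a c) / (p (j / 2) - a c))) =
            (∏ c ∈ s, (p ((j + 1) / 2) - a c) ^ (w c)) / ∏ c ∈ s, (p (j / 2) - a c) ^ (w c) := by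
          rw [← Finset.prod_div_distrib]
          apply Finset.prod_congr rfl
          intro c hc
          rw [Complex.exp_int_mul, Complex.exp_log
            (div_ne_zero (hpne _ hj2 c hc) (hpne _ hj1 c hc)), div_zpow]
        rw [h2]
        have h3 : ∏ c ∈ s, (p (j / 2) - a c) ^ (w c) ≠ 0 :=
          Finset.prod_ne_zero_iff.mpr (fun c hc => zpow_ne_zero _ (hpne _ hj1 c hc))
        have h4 := Complex.exp_ne_zero (η (j / 2))
        have h5 := Complex.exp_ne_zero (η ((j + 1) / 2))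
        have h6 := Complex.exp_ne_zero (2 * Real.pi * σ (j / 2) * Complex.I)
        have h7 := Complex.exp_ne_zero (2 * Real.pi * σ ((j + 1) / 2) * Complex.I)
        have g1 := hrep (j / 2) hj1
        have g2 := hrep ((j + 1) / 2) hj2
        have g3 : Complex.exp (2 * Real.pi * σ (j / 2) * Complex.I) =
            (∏ c ∈ s, (p (j / 2) - a c) ^ (w c)) * Complex.exp (η (j / 2)) / f₀ := by
          rw [eq_div_iff hf₀]; exact g1
        have g4 : Complex.exp (2 * Real.pi * σ ((j + 1) / 2) * Complex.I) =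
            (∏ c ∈ s, (p ((j + 1) / 2) - a c) ^ (w c)) * Complex.exp (η ((j + 1) / 2)) / f₀ := by
          rw [eq_div_iff hf₀]; exact g2
        have h8 : ∏ c ∈ s, (p ((j + 1) / 2) - a c) ^ (w c) ≠ 0 :=
          Finset.prod_ne_zero_iff.mpr (fun c hc => zpow_ne_zero _ (hpne _ hj2 c hc))
        rw [g3, g4]
        field_simp
      · have e1 : 2 * Real.pi * σ ((j + 1) / 2) * Complex.I - η ((j + 1) / 2) -
            (2 * Real.pi * σ (j / 2) * Complex.I - η (j / 2)) =
            ((2 * Real.pi * (σ ((j + 1) / 2) - σ (j / 2)) : ℝ) : ℂ) * Complex.I -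
            (η ((j + 1) / 2) - η (j / 2)) := by push_cast; ring
        rw [e1]
        have e2 : ‖((2 * Real.pi * (σ ((j + 1) / 2) - σ (j / 2)) : ℝ) : ℂ) * Complex.I‖ ≤ 1 := by
          rw [norm_mul, Complex.norm_I, mul_one, Complex.norm_real, Real.norm_eq_abs, abs_mul,
            abs_of_pos (by positivity)]
          have := Real.pi_lt_four
          nlinarith [abs_nonneg (σ ((j + 1) / 2) - σ (j / 2))]
        calc ‖M - (((2 * Real.pi * (σ ((j + 1) / 2) - σ (j / 2)) : ℝ) : ℂ) * Complex.I -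
            (η ((j + 1) / 2) - η (j / 2)))‖ ≤ ‖M‖ +
            ‖((2 * Real.pi * (σ ((j + 1) / 2) - σ (j / 2)) : ℝ) : ℂ) * Complex.I -
            (η ((j + 1) / 2) - η (j / 2))‖ := norm_sub_le _ _
          _ ≤ ‖M‖ + (‖((2 * Real.pi * (σ ((j + 1) / 2) - σ (j / 2)) : ℝ) : ℂ) * Complex.I‖ +
            ‖η ((j + 1) / 2) - η (j / 2)‖) := by gcongr; exact norm_sub_le _ _
          _ < 6 := by linarith
    rw [hincr]
    simp only [Λ]
    linear_combination hMeq
  -- sums
  have hsumIco : ∀ k l, k ≤ l → l ≤ 2 * n →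
      ∑ i ∈ Finset.Ico k l, incr s a w (lw p i) (lw p (i + 1)) = Λ l - Λ k := by
    intro k l hkl hl
    induction l, hkl using Nat.le_induction with
    | base => simp
    | succ l hkl ih =>
      rw [Finset.sum_Ico_succ_top hkl, ih (by omega), hstep l (by omega)]
      ring
  have hpclose : ∀ k ≤ 2 * n, ∀ l ≤ 2 * n, lw p k = lw p l → ‖p (k / 2) - p (l / 2)‖ ≤ 6 := by
    intro k hk l hl h
    have h1 := hnear k hk
    have h2 := hnear l hl
    rw [h] at h1
    calc ‖p (k / 2) - p (l / 2)‖ = ‖-(pt (lw p l) - p (k / 2)) + (pt (lw p l) - p (l / 2))‖ := by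
          congr 1; ring
      _ ≤ ‖-(pt (lw p l) - p (k / 2))‖ + ‖pt (lw p l) - p (l / 2)‖ := norm_add_le _ _
      _ ≤ 6 := by rw [norm_neg]; linarith
  have hΛdiff : ∀ k ≤ 2 * n, ∀ l ≤ 2 * n, lw p k = lw p l →
      ‖(Λ l - Λ k) - ((2 * Real.pi * (σ (l / 2) - σ (k / 2)) : ℝ) : ℂ) * Complex.I‖ ≤ 1 / 2 := by
    intro k hk l hl h
    have h1 := (hclose _ (hhalf k hk) _ (hhalf l hl) (hpclose k hk l hl h)).1
    have h2 := hDj k hk
    have h3 := hDj l hl
    have e1 : (Λ l - Λ k) - ((2 * Real.pi * (σ (l / 2) - σ (k / 2)) : ℝ) : ℂ) * Complex.I =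
        (η (k / 2) - η (l / 2)) + (Dj l - Dj k) := by
      simp only [Λ]; push_cast; ring
    rw [e1]
    calc ‖(η (k / 2) - η (l / 2)) + (Dj l - Dj k)‖ ≤ ‖η (k / 2) - η (l / 2)‖ + ‖Dj l - Dj k‖ :=
          norm_add_le _ _
      _ ≤ ‖η (k / 2) - η (l / 2)‖ + (‖Dj l‖ + ‖Dj k‖) := by gcongr; exact norm_sub_le _ _
      _ ≤ 1 / 2 := by linarith
  -- short closed subwalks have zero winding
  have hshort : ∀ k l, k ≤ l → l ≤ 2 * n → lw p k = lw p l → |σ (k / 2) - σ (l / 2)| < 1 / 8 →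
      ∑ i ∈ Finset.Ico k l, incr s a w (lw p i) (lw p (i + 1)) = 0 := by
    intro k l hkl hl h hs
    rw [hsumIco k l hkl hl]
    apply zero_of_exp_one
    · rw [Complex.exp_sub, div_eq_one_iff_eq (Complex.exp_ne_zero _)]
      have h1 := hexpΛ k (by omega)
      have h2 := hexpΛ l hl
      rw [← h, ← h1] at h2
      exact mul_right_cancel₀ hf₀ h2
    · have h1 := hΛdiff k (by omega) l hl h
      have h2 : ‖((2 * Real.pi * (σ (l / 2) - σ (k / 2)) : ℝ) : ℂ) * Complex.I‖ ≤ 1 := by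
        rw [norm_mul, Complex.norm_I, mul_one, Complex.norm_real, Real.norm_eq_abs, abs_mul,
          abs_of_pos (by positivity), abs_sub_comm]
        have := Real.pi_lt_four
        nlinarith [abs_nonneg (σ (k / 2) - σ (l / 2))]
      calc ‖Λ l - Λ k‖ = ‖((Λ l - Λ k) - ((2 * Real.pi * (σ (l / 2) - σ (k / 2)) : ℝ) : ℂ) *
              Complex.I) + ((2 * Real.pi * (σ (l / 2) - σ (k / 2)) : ℝ) : ℂ) * Complex.I‖ := by
            congr 1; ring
        _ ≤ _ := norm_add_le _ _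
        _ < 6 := by linarith
  -- minimal long pair
  have hP : ∃ d k, k + d ≤ 2 * n ∧ lw p k = lw p (k + d) ∧ 1 / 8 ≤ |σ (k / 2) - σ ((k + d) / 2)| := by
    obtain ⟨i, j, hij, hj, h1, h2⟩ := hex
    refine ⟨2 * j - 2 * i, 2 * i, by omega, ?_, ?_⟩
    · rw [show 2 * i + (2 * j - 2 * i) = 2 * j by omega]; exact h1
    · rw [show 2 * i + (2 * j - 2 * i) = 2 * j by omega, show 2 * i / 2 = i by omega,
        show 2 * j / 2 = j by omega]
      exact h2
  classical
  set d := Nat.find hP with hd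
  obtain ⟨k, hkd, hlk, hσk⟩ := Nat.find_spec hP
  rw [← hd] at hkd hlk hσk
  have hmin : ∀ d' < d, ¬ ∃ k, k + d' ≤ 2 * n ∧ lw p k = lw p (k + d') ∧
      1 / 8 ≤ |σ (k / 2) - σ ((k + d') / 2)| := fun d' hd' => Nat.find_min hP hd'
  obtain ⟨K, hK, hKs⟩ := loop_erase s a w d (fun i => lw p (k + i)) (by
      show lw p (k + d) = lw p (k + 0)
      rw [add_zero, hlk])
    (by
      intro i hi
      exact lw_step p n hp (k + i) (by omega))
    (by
      intro i hi c hc
      exact hv1 (k + i) (by omega) c hc)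
    (by
      intro i j hij hjd hne hv
      have h1 : ∑ t ∈ Finset.Ico i j, incr s a w (lw p (k + t)) (lw p (k + (t + 1))) =
          ∑ t ∈ Finset.Ico (k + i) (k + j), incr s a w (lw p t) (lw p (t + 1)) := by
        rw [Finset.sum_Ico_eq_sum_range, Finset.sum_Ico_eq_sum_range]
        have : k + j - (k + i) = j - i := by omega
        rw [this]
        apply Finset.sum_congr rfl
        intro t _
        congr 2
        · omega
        · omega
      rw [h1]
      apply hshort (k + i) (k + j) (by omega) (by omega) hv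
      by_contra hbig
      push Not at hbig
      have hlt : j - i < d := by omega
      apply hmin (j - i) hlt
      refine ⟨k + i, by omega, ?_, ?_⟩
      · rw [show k + i + (j - i) = k + j by omega]; exact hv
      · rw [show k + i + (j - i) = k + j by omega]; exact hbig)
  have hsum : ∑ i ∈ Finset.range d, incr s a w (lw p (k + i)) (lw p (k + (i + 1))) =
      Λ (k + d) - Λ k := by
    rw [← hsumIco k (k + d) (by omega) hkd, Finset.sum_Ico_eq_sum_range]
    have : k + d - k = d := by omega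
    rw [this]
    rfl
  rw [hsum] at hKs
  have h1 := hΛdiff k (by omega) (k + d) hkd hlk
  rw [hKs] at h1
  have hlong : 2 * (B + 2) < |σ (k / 2) - σ ((k + d) / 2)| := by
    rcases (hclose _ (hhalf k (by omega)) _ (hhalf (k + d) hkd)
      (hpclose k (by omega) (k + d) hkd hlk)).2 with h | h
    · linarith
    · exact h
  have e1 : (K : ℂ) * (2 * Real.pi * Complex.I) -
      ((2 * Real.pi * (σ ((k + d) / 2) - σ (k / 2)) : ℝ) : ℂ) * Complex.I =
      ((2 * Real.pi * (K - (σ ((k + d) / 2) - σ (k / 2))) : ℝ) : ℂ) * Complex.I := by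
    push_cast; ring
  rw [e1, norm_mul, Complex.norm_I, mul_one, Complex.norm_real, Real.norm_eq_abs, abs_mul,
    abs_of_pos (show 0 < 2 * Real.pi by positivity)] at h1
  have h2 : |(K : ℝ) - (σ ((k + d) / 2) - σ (k / 2))| ≤ 1 := by
    have := Real.pi_gt_three
    nlinarith [abs_nonneg ((K : ℝ) - (σ ((k + d) / 2) - σ (k / 2)))]
  have h3 : |(K : ℝ)| ≤ B := by
    rw [hB]
    have : (|K| : ℤ) ≤ ∑ c ∈ s, |w c| := hK
    have h4 : ((|K| : ℤ) : ℝ) ≤ ((∑ c ∈ s, |w c| : ℤ) : ℝ) := by exact_mod_cast this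
    push_cast at h4
    exact h4
  have h4 : |σ (k / 2) - σ ((k + d) / 2)| ≤
      |(K : ℝ)| + |(K : ℝ) - (σ ((k + d) / 2) - σ (k / 2))| := by
    rw [abs_sub_comm (σ (k / 2))]
    have e2 : σ ((k + d) / 2) - σ (k / 2) = (K : ℝ) - ((K : ℝ) - (σ ((k + d) / 2) - σ (k / 2))) := by
      ring
    calc |σ ((k + d) / 2) - σ (k / 2)| =
          |(K : ℝ) - ((K : ℝ) - (σ ((k + d) / 2) - σ (k / 2)))| := by rw [← e2]
      _ ≤ _ := abs_sub _ _
  linarith

end Pool.Agent.Helper188_Cone
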